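import Pool.Agent.Lib.H59Q.Defs3

/-!
# Digit sets: basic facts (owner: helper59)
-/

namespace Pool.Agent.Lib.H59Q

open MeasureTheory Set

theorem mem_Cd_zero {B : ℕ} {A : Finset ℕ} {a : ℕ} : a ∈ Cd B A 0 ↔ a = 0 := by
  simp [Cd]

theorem mem_Cd_succ {B : ℕ} {A : Finset ℕ} {n a : ℕ} :
    a ∈ Cd B A (n + 1) ↔ ∃ x ∈ Cd B A n, ∃ d ∈ A, a = B * x + d := by
  simp only [Cd, Finset.mem_image, Finset.mem_product, Prod.exists]
  constructor
  · rintro ⟨x, d, ⟨hx, hd⟩, rfl⟩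
    exact ⟨x, hx, d, hd, rfl⟩
  · rintro ⟨x, hx, d, hd, rfl⟩
    exact ⟨x, d, ⟨hx, hd⟩, rfl⟩

theorem Cd_lt {B : ℕ} {A : Finset ℕ} (hA : ∀ a ∈ A, a < B) {n a : ℕ} (ha : a ∈ Cd B A n) :
    a < B ^ n := by
  induction n generalizing a with
  | zero => rw [mem_Cd_zero] at ha; simp [ha]
  | succ n ih =>
    obtain ⟨x, hx, d, hd, rfl⟩ := mem_Cd_succ.mp ha
    have h1 := ih hx
    have h2 := hA d hd
    calc B * x + d < B * x + B := by omega
      _ = B * (x + 1) := by ring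
      _ ≤ B * B ^ n := Nat.mul_le_mul_left _ h1
      _ = B ^ (n + 1) := by ring

/-- Splitting a word: the first `m` digits and the last `n` digits. -/
theorem mem_Cd_add {B : ℕ} {A : Finset ℕ} {m n a : ℕ} :
    a ∈ Cd B A (m + n) ↔ ∃ x ∈ Cd B A m, ∃ y ∈ Cd B A n, a = B ^ n * x + y := by
  induction n generalizing a with
  | zero => simp [mem_Cd_zero]
  | succ n ih =>
    rw [← Nat.add_assoc, mem_Cd_succ]
    constructor
    · rintro ⟨z, hz, d, hd, rfl⟩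
      obtain ⟨x, hx, y, hy, rfl⟩ := ih.mp hz
      exact ⟨x, hx, B * y + d, mem_Cd_succ.mpr ⟨y, hy, d, hd, rfl⟩, by ring⟩
    · rintro ⟨x, hx, y', hy', rfl⟩
      obtain ⟨y, hy, d, hd, rfl⟩ := mem_Cd_succ.mp hy'
      exact ⟨B ^ n * x + y, ih.mpr ⟨x, hx, y, hy, rfl⟩, d, hd, by ring⟩

theorem split_inj {B n x y x' y' : ℕ} (hy : y < B ^ n) (hy' : y' < B ^ n)
    (h : B ^ n * x + y = B ^ n * x' + y') : x = x' ∧ y = y' := by
  have hp : 0 < B ^ n := lt_of_le_of_lt (Nat.zero_le _) hy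
  have e1 : (B ^ n * x + y) / B ^ n = x := by
    rw [Nat.mul_add_div hp, Nat.div_eq_of_lt hy, Nat.add_zero]
  have e2 : (B ^ n * x' + y') / B ^ n = x' := by
    rw [Nat.mul_add_div hp, Nat.div_eq_of_lt hy', Nat.add_zero]
  have hx : x = x' := by rw [← e1, h, e2]
  refine ⟨hx, ?_⟩
  subst hx
  omega

/-- The sum over the words of length `m + n` as a double sum. -/
theorem sum_Cd_add {M : Type*} [AddCommMonoid M] {B : ℕ} {A : Finset ℕ} (hA : ∀ a ∈ A, a < B)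
    (m n : ℕ) (f : ℕ → M) :
    ∑ a ∈ Cd B A (m + n), f a = ∑ x ∈ Cd B A m, ∑ y ∈ Cd B A n, f (B ^ n * x + y) := by
  rw [← Finset.sum_product']
  symm
  refine Finset.sum_bij (fun p _ => B ^ n * p.1 + p.2) ?_ ?_ ?_ ?_
  · rintro ⟨x, y⟩ h
    rw [Finset.mem_product] at h
    exact mem_Cd_add.mpr ⟨x, h.1, y, h.2, rfl⟩
  · rintro ⟨x, y⟩ h ⟨x', y'⟩ h' e
    rw [Finset.mem_product] at h h'
    obtain ⟨e1, e2⟩ := split_inj (Cd_lt hA h.2) (Cd_lt hA h'.2) e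
    simp only at e1 e2
    rw [e1, e2]
  · intro a ha
    obtain ⟨x, hx, y, hy, rfl⟩ := mem_Cd_add.mp ha
    exact ⟨(x, y), Finset.mem_product.mpr ⟨hx, hy⟩, rfl⟩
  · rintro ⟨x, y⟩ _
    rfl

theorem sum_Cd_succ {M : Type*} [AddCommMonoid M] {B : ℕ} {A : Finset ℕ} (hA : ∀ a ∈ A, a < B)
    (n : ℕ) (f : ℕ → M) :
    ∑ a ∈ Cd B A (n + 1), f a = ∑ x ∈ Cd B A n, ∑ d ∈ A, f (B * x + d) := by
  have h1 : Cd B A 1 = A := by
    ext a
    rw [mem_Cd_succ]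
    simp [mem_Cd_zero]
  have h := sum_Cd_add hA n 1 f
  rw [h, h1]
  simp

theorem card_Cd {B : ℕ} {A : Finset ℕ} (hA : ∀ a ∈ A, a < B) (n : ℕ) :
    (Cd B A n).card = A.card ^ n := by
  induction n with
  | zero => simp [Cd]
  | succ n ih =>
    have h := sum_Cd_succ hA n (fun _ => (1 : ℕ))
    simp only [Finset.sum_const, smul_eq_mul, mul_one] at h
    rw [h, ih, pow_succ]

theorem Cd_one {B : ℕ} {A : Finset ℕ} : Cd B A 1 = A := by
  ext a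
  rw [mem_Cd_succ]
  simp [mem_Cd_zero]

/-- `n` digits in base `B ^ K` from `Cd B A K` are `K n` digits in base `B`. -/
theorem Cd_pow (B : ℕ) (A : Finset ℕ) (K n : ℕ) : Cd (B ^ K) (Cd B A K) n = Cd B A (K * n) := by
  induction n with
  | zero => simp [Cd]
  | succ n ih =>
    ext a
    rw [mem_Cd_succ, Nat.mul_succ, mem_Cd_add, ih]

theorem C_digits : ∀ a ∈ ({0, 2} : Finset ℕ), a < 3 := by decide

theorem card_C (n : ℕ) : (C n).card = 2 ^ n := by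
  unfold C
  rw [card_Cd C_digits]
  rfl

theorem C_pow (K n : ℕ) : Cd (3 ^ K) (C K) n = C (K * n) := Cd_pow 3 {0, 2} K n

theorem mem_C_succ {n a : ℕ} : a ∈ C (n + 1) ↔ ∃ x ∈ C n, a = 3 * x ∨ a = 3 * x + 2 := by
  unfold C
  rw [mem_Cd_succ]
  constructor
  · rintro ⟨x, hx, d, hd, rfl⟩
    rw [Finset.mem_insert, Finset.mem_singleton] at hd
    rcases hd with rfl | rfl
    · exact ⟨x, hx, Or.inl rfl⟩
    · exact ⟨x, hx, Or.inr rfl⟩
  · rintro ⟨x, hx, rfl | rfl⟩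
    · exact ⟨x, hx, 0, by simp, rfl⟩
    · exact ⟨x, hx, 2, by simp, rfl⟩

end Pool.Agent.Lib.H59Q
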