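import Pool.Agent.Lib.H59Q.H0

/-!
# CE1: growth from a certificate

`V b = v ⌊b / ρ⌋`, bounded by `Vm = max v`.  `step` (with `s = 0`): `Σ_{w ∈ C K × C K} V (T_w b) ≥ lam V b`, so by
induction on `n` (splitting words of length `K (n+1)` into the first `K n` and the last `K` digits,
`sum_Cd_add`) `Σ_{w of length K n} V (T_w g) ≥ lam^n V g` for all real `g`.  Choose `M` with
`ρ / M * 3^K ≤ σ` and `M ≥ 1`, and `S = {k : v (k / M) > 0}` (finite: `k / M` in the finite support; `k ∈ M l + [0, M)`).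
Then `⌊b / (ρ/M)⌋ / M = ⌊b / ρ⌋` (`Int.floor_div_natCast`-type lemma, `Int.ediv` by a positive number is the
floor), so `Gset (ρ/M) S = {b : V b > 0} = {b : V b ≥ 1}`.
Let `b ∈ Xset (ρ/M) S`: there is `g` with `|b - g| ≤ ρ/M`, `V g ≥ 1` (`g = b`, `b + ρ/M` or `b - ρ/M`).  For
`n = 0`: the claim `c ≤ cnt u G 0 b` would need `b ∈ G`!  Therefore the statement is for `n ≥ 1` only and at
`n = 0` nothing is claimed.  For `n ≥ 1`: the first step from `b` is the step from `g` with noise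
`s = 3^K (b - g)`, `|s| ≤ 3^K ρ / M ≤ σ`: `Σ_{w ∈ C K × C K} V (T_w b) ≥ lam V g ≥ lam`.  The remaining `n - 1` steps
without noise: `Σ_{w of length K n} V (T_w b) ≥ lam^n`, so `#{w : V (T_w b) ≥ 1} ≥ lam^n / Vm`.
-/

namespace Pool.Agent.Lib.H59Q

open Set

private theorem CE1_sum_split (f : ℕ × ℕ → ℝ) (m n : ℕ) :
    ∑ p ∈ C (m + n) ×ˢ C (m + n), f p =
      ∑ p ∈ C m ×ˢ C m, ∑ q ∈ C n ×ˢ C n, f (3 ^ n * p.1 + q.1, 3 ^ n * p.2 + q.2) := by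
  have h1 : ∑ p ∈ C (m + n) ×ˢ C (m + n), f p =
      ∑ a ∈ C m, ∑ c ∈ C n, ∑ b ∈ C m, ∑ d ∈ C n, f (3 ^ n * a + c, 3 ^ n * b + d) := by
    rw [Finset.sum_product]
    unfold C
    rw [sum_Cd_add C_digits m n (fun x => ∑ y ∈ Cd 3 {0, 2} (m + n), f (x, y))]
    refine Finset.sum_congr rfl fun a _ => Finset.sum_congr rfl fun c _ => ?_
    rw [sum_Cd_add C_digits m n (fun y => f (3 ^ n * a + c, y))]
  rw [h1, Finset.sum_product]
  refine Finset.sum_congr rfl fun a _ => ?_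
  rw [Finset.sum_comm]
  refine Finset.sum_congr rfl fun b _ => ?_
  rw [Finset.sum_product]

private theorem CE1_floor {M : ℕ} (hM : 0 < M) {ρ : ℝ} (hρ : 0 < ρ) (b : ℝ) :
    ⌊b / (ρ / M)⌋ / (M : ℤ) = ⌊b / ρ⌋ := by
  have hMr : (0 : ℝ) < M := by exact_mod_cast hM
  have hMz : (0 : ℤ) < M := by exact_mod_cast hM
  symm
  rw [Int.floor_eq_iff]
  set k : ℤ := ⌊b / (ρ / M)⌋ with hk
  have e : b / (ρ / M) = b / ρ * M := by
    field_simp
  have k1 : (k : ℝ) ≤ b / ρ * M := by rw [← e]; exact Int.floor_le _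
  have k2 : b / ρ * M < (k : ℝ) + 1 := by rw [← e]; exact Int.lt_floor_add_one _
  have z1 : k / (M : ℤ) * M ≤ k := Int.ediv_mul_le k (ne_of_gt hMz)
  have z2 : k < (k / (M : ℤ) + 1) * M := Int.lt_ediv_add_one_mul_self k hMz
  have z1' : ((k / (M : ℤ) : ℤ) : ℝ) * M ≤ (k : ℝ) := by exact_mod_cast z1
  have z2' : (k : ℝ) + 1 ≤ (((k / (M : ℤ) : ℤ) : ℝ) + 1) * M := by
    have : k + 1 ≤ (k / (M : ℤ) + 1) * M := z2
    exact_mod_cast this
  constructor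
  · exact le_of_mul_le_mul_right (z1'.trans k1) hMr
  · exact lt_of_mul_lt_mul_right (lt_of_lt_of_le k2 z2') hMr.le

private theorem CE1_growth {K : ℕ} {u₁ u₂ ρ σ lam : ℝ} {v : ℤ → ℕ}
    (h : RobustCert K u₁ u₂ ρ σ lam v) {u : ℝ} (hu : u ∈ Icc u₁ u₂) (n : ℕ) (g : ℝ) :
    lam ^ n * (v ⌊g / ρ⌋ : ℝ) ≤
      ∑ p ∈ C (K * n) ×ˢ C (K * n), (v ⌊((3 : ℝ) ^ (K * n) * g - p.2 - u * p.1) / ρ⌋ : ℝ) := by
  induction n with
  | zero => simp [C, Cd]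
  | succ n ih =>
    rw [Nat.mul_succ, CE1_sum_split]
    have hl : 0 < lam := lt_trans one_pos h.one_lt
    calc lam ^ (n + 1) * (v ⌊g / ρ⌋ : ℝ) = lam * (lam ^ n * (v ⌊g / ρ⌋ : ℝ)) := by ring
      _ ≤ lam * ∑ p ∈ C (K * n) ×ˢ C (K * n),
            (v ⌊((3 : ℝ) ^ (K * n) * g - p.2 - u * p.1) / ρ⌋ : ℝ) :=
          mul_le_mul_of_nonneg_left ih hl.le
      _ = ∑ p ∈ C (K * n) ×ˢ C (K * n),
            lam * (v ⌊((3 : ℝ) ^ (K * n) * g - p.2 - u * p.1) / ρ⌋ : ℝ) := by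
          rw [Finset.mul_sum]
      _ ≤ _ := by
          refine Finset.sum_le_sum fun p _ => ?_
          refine (h.step u hu ((3 : ℝ) ^ (K * n) * g - p.2 - u * p.1) 0
            (by rw [abs_zero]; exact h.σ_pos.le)).trans (le_of_eq ?_)
          refine Finset.sum_congr rfl fun q _ => ?_
          have e : (3 : ℝ) ^ K * ((3 : ℝ) ^ (K * n) * g - p.2 - u * p.1) + 0 - q.2 - u * q.1 =
              (3 : ℝ) ^ (K * n + K) * g - ((3 ^ K * p.2 + q.2 : ℕ) : ℝ) -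
                u * ((3 ^ K * p.1 + q.1 : ℕ) : ℝ) := by
            push_cast
            ring
          rw [e]

private theorem CE1_growth_noise {K : ℕ} {u₁ u₂ ρ σ lam : ℝ} {v : ℤ → ℕ}
    (h : RobustCert K u₁ u₂ ρ σ lam v) {u : ℝ} (hu : u ∈ Icc u₁ u₂) (n : ℕ) (g b : ℝ)
    (hgb : |(3 : ℝ) ^ K * (b - g)| ≤ σ) :
    lam ^ (n + 1) * (v ⌊g / ρ⌋ : ℝ) ≤
      ∑ p ∈ C (K * (n + 1)) ×ˢ C (K * (n + 1)),
        (v ⌊((3 : ℝ) ^ (K * (n + 1)) * b - p.2 - u * p.1) / ρ⌋ : ℝ) := by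
  have hl : 0 < lam := lt_trans one_pos h.one_lt
  rw [Nat.mul_succ, Nat.add_comm (K * n) K, CE1_sum_split]
  calc lam ^ (n + 1) * (v ⌊g / ρ⌋ : ℝ) = lam ^ n * (lam * (v ⌊g / ρ⌋ : ℝ)) := by ring
    _ ≤ lam ^ n * ∑ p ∈ C K ×ˢ C K,
          (v ⌊((3 : ℝ) ^ K * g + (3 : ℝ) ^ K * (b - g) - p.2 - u * p.1) / ρ⌋ : ℝ) :=
        mul_le_mul_of_nonneg_left (h.step u hu g _ hgb) (pow_nonneg hl.le n)
    _ = ∑ p ∈ C K ×ˢ C K, lam ^ n *
          (v ⌊((3 : ℝ) ^ K * b - p.2 - u * p.1) / ρ⌋ : ℝ) := by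
        rw [Finset.mul_sum]
        refine Finset.sum_congr rfl fun p _ => ?_
        have e : (3 : ℝ) ^ K * g + (3 : ℝ) ^ K * (b - g) - p.2 - u * p.1 =
            (3 : ℝ) ^ K * b - p.2 - u * p.1 := by ring
        rw [e]
    _ ≤ _ := by
        refine Finset.sum_le_sum fun p _ => ?_
        refine (CE1_growth h hu n _).trans (le_of_eq ?_)
        refine Finset.sum_congr rfl fun q _ => ?_
        have e : (3 : ℝ) ^ (K * n) * ((3 : ℝ) ^ K * b - p.2 - u * p.1) - q.2 - u * q.1 =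
            (3 : ℝ) ^ (K + K * n) * b - ((3 ^ (K * n) * p.2 + q.2 : ℕ) : ℝ) -
              u * ((3 ^ (K * n) * p.1 + q.1 : ℕ) : ℝ) := by
          push_cast
          ring
        rw [e]

private theorem CE1_bound {v : ℤ → ℕ} (hfin : (Function.support v).Finite) :
    ∃ Vm : ℕ, 0 < Vm ∧ ∀ k, v k ≤ Vm := by
  refine ⟨∑ k ∈ hfin.toFinset, v k + 1, Nat.succ_pos _, fun k => ?_⟩
  by_cases hk : v k = 0
  · rw [hk]; exact Nat.zero_le _
  · have hmem : k ∈ hfin.toFinset := by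
      rw [Set.Finite.mem_toFinset]
      exact hk
    have := Finset.single_le_sum (f := v) (fun i _ => Nat.zero_le _) hmem
    omega

private theorem CE1_near {r : ℝ} (hr : 0 < r) {S : Finset ℤ} {b : ℝ} (hb : b ∈ Xset r S) :
    ∃ g : ℝ, |b - g| ≤ r ∧ g ∈ Gset r S := by
  rcases hb with hb | hb | hb
  · refine ⟨b, ?_, hb⟩
    rw [sub_self, abs_zero]
    exact hr.le
  · refine ⟨b + r, ?_, ?_⟩
    · rw [sub_add_cancel_left, abs_neg, abs_of_pos hr]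
    · show ⌊(b + r) / r⌋ ∈ S
      rw [add_div, div_self (ne_of_gt hr), Int.floor_add_one]
      exact hb
  · refine ⟨b - r, ?_, ?_⟩
    · rw [sub_sub_cancel, abs_of_pos hr]
    · show ⌊(b - r) / r⌋ ∈ S
      rw [sub_div, div_self (ne_of_gt hr), Int.floor_sub_one]
      exact hb

theorem cert_growth {K : ℕ} {u₁ u₂ ρ σ lam : ℝ} {v : ℤ → ℕ} (h : RobustCert K u₁ u₂ ρ σ lam v)
    (hne : ∃ k, 0 < v k) :
    ∃ (M : ℕ) (c : ℝ) (S : Finset ℤ), 0 < M ∧ 0 < c ∧ ρ / M * 3 ^ K ≤ σ ∧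
      (∀ k : ℤ, k ∈ S ↔ 0 < v (k / M)) ∧ (∀ b : ℝ, b ∈ Gset (ρ / M) S ↔ 0 < v ⌊b / ρ⌋) ∧
      ∀ u ∈ Icc u₁ u₂, ∀ n : ℕ, 1 ≤ n → ∀ b ∈ Xset (ρ / M) S,
        c * lam ^ n ≤ (cnt u (Gset (ρ / M) S) (K * n) b : ℝ) := by
  classical
  have hρ := h.ρ_pos
  have hσ := h.σ_pos
  have hl : 0 < lam := lt_trans one_pos h.one_lt
  obtain ⟨Vm, hVm, hv⟩ := CE1_bound h.fin
  obtain ⟨N, hN⟩ := exists_nat_ge (ρ * 3 ^ K / σ)
  set M : ℕ := N + 1 with hMdef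
  have hM : 0 < M := Nat.succ_pos N
  have hMr : (0 : ℝ) < M := by exact_mod_cast hM
  have hMz : (0 : ℤ) < M := by exact_mod_cast hM
  have hMσ : ρ / M * 3 ^ K ≤ σ := by
    have h1 : ρ * 3 ^ K / σ ≤ M := by
      refine hN.trans ?_
      rw [hMdef]
      push_cast
      linarith
    rw [div_le_iff₀ hσ] at h1
    rw [div_mul_eq_mul_div, div_le_iff₀ hMr]
    linarith
  have hSfin : {k : ℤ | 0 < v (k / M)}.Finite := by
    have h1 : ((fun k : ℤ => k / (M : ℤ)) ⁻¹' (Function.support v)).Finite := by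
      refine h.fin.preimage' fun l _ => ?_
      refine (Set.finite_Ico ((M : ℤ) * l) ((M : ℤ) * l + M)).subset ?_
      intro k hk
      have hk' : k / (M : ℤ) = l := hk
      have h3 := Int.emod_nonneg k (ne_of_gt hMz)
      have h4 := Int.emod_lt_of_pos k hMz
      have h5 := Int.mul_ediv_add_emod k (M : ℤ)
      rw [hk'] at h5
      constructor <;> linarith
    refine h1.subset ?_
    intro k hk
    have hk' : 0 < v (k / (M : ℤ)) := hk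
    exact (ne_of_gt hk' : v (k / (M : ℤ)) ≠ 0)
  have hS : ∀ k : ℤ, k ∈ hSfin.toFinset ↔ 0 < v (k / M) := by
    intro k
    rw [Set.Finite.mem_toFinset]
    rfl
  have hG : ∀ b : ℝ, b ∈ Gset (ρ / M) hSfin.toFinset ↔ 0 < v ⌊b / ρ⌋ := by
    intro b
    show ⌊b / (ρ / M)⌋ ∈ hSfin.toFinset ↔ _
    rw [hS, CE1_floor hM hρ]
  have hVr : (0 : ℝ) < Vm := by exact_mod_cast hVm
  refine ⟨M, 1 / Vm, hSfin.toFinset, hM, by positivity, hMσ, hS, hG, ?_⟩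
  intro u hu n hn b hb
  obtain ⟨m, rfl⟩ : ∃ m, n = m + 1 := ⟨n - 1, by omega⟩
  obtain ⟨g, hgb, hg⟩ := CE1_near (div_pos hρ hMr) hb
  have hnoise : |(3 : ℝ) ^ K * (b - g)| ≤ σ := by
    rw [abs_mul, abs_of_pos (by positivity : (0 : ℝ) < 3 ^ K)]
    calc (3 : ℝ) ^ K * |b - g| ≤ 3 ^ K * (ρ / M) :=
          mul_le_mul_of_nonneg_left hgb (by positivity)
      _ = ρ / M * 3 ^ K := by ring
      _ ≤ σ := hMσ
  have hgrow := CE1_growth_noise h hu m g b hnoise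
  have hvg : (1 : ℝ) ≤ (v ⌊g / ρ⌋ : ℝ) := by
    have := (hG g).mp hg
    exact_mod_cast this
  have hpow : (0 : ℝ) < lam ^ (m + 1) := pow_pos hl _
  have h1 : lam ^ (m + 1) ≤ ∑ p ∈ C (K * (m + 1)) ×ˢ C (K * (m + 1)),
      (v ⌊((3 : ℝ) ^ (K * (m + 1)) * b - p.2 - u * p.1) / ρ⌋ : ℝ) := by
    refine le_trans ?_ hgrow
    nlinarith
  have h2 : ∑ p ∈ C (K * (m + 1)) ×ˢ C (K * (m + 1)),
      (v ⌊((3 : ℝ) ^ (K * (m + 1)) * b - p.2 - u * p.1) / ρ⌋ : ℝ) ≤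
      Vm * (cnt u (Gset (ρ / M) hSfin.toFinset) (K * (m + 1)) b : ℝ) := by
    unfold cnt
    rw [Finset.card_filter]
    push_cast
    rw [Finset.mul_sum]
    refine Finset.sum_le_sum fun p _ => ?_
    split_ifs with hp
    · rw [mul_one]
      exact_mod_cast hv _
    · rw [mul_zero]
      have : ¬ 0 < v ⌊((3 : ℝ) ^ (K * (m + 1)) * b - p.2 - u * p.1) / ρ⌋ := fun h0 =>
        hp ((hG _).mpr h0)
      have h0 : v ⌊((3 : ℝ) ^ (K * (m + 1)) * b - p.2 - u * p.1) / ρ⌋ = 0 := by omega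
      rw [h0]
      simp
  rw [one_div, inv_mul_eq_div, div_le_iff₀ hVr]
  calc lam ^ (m + 1) ≤ _ := h1
    _ ≤ _ := h2
    _ = _ := by ring

end Pool.Agent.Lib.H59Q
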