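import Mathlib

/-!
# MP_54f706, Q2, sharp theorem: common definitions and the interfaces between the parts

Positions.  A word of length `n` is a pair `(i, j) ∈ C n × C n` (`i` from the first Cantor set, `j`
from the second); the position after `n` steps of the linear model of slope `u` started at `b` is
`3 ^ n * b - j - u * i`.
-/

namespace Pool.Agent.Lib.H59Q

open MeasureTheory Set

/-- The `n`-digit base-`B` numbers (leading zeros allowed) with digits in `A`. -/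
def Cd (B : ℕ) (A : Finset ℕ) : ℕ → Finset ℕ
  | 0 => {0}
  | (n + 1) => ((Cd B A n) ×ˢ A).image (fun p => B * p.1 + p.2)

/-- The `n`-digit ternary numbers with digits `0, 2`. -/
def C (n : ℕ) : Finset ℕ := Cd 3 {0, 2} n

/-- The dimension: `2 log 2 / log 3 - 1`. -/
noncomputable def s0 : ℝ := 2 * Real.log 2 / Real.log 3 - 1

open Classical in
/-- Number of words of length `n` whose final position from `b` is in `G` (base 3). -/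
noncomputable def cnt (u : ℝ) (G : Set ℝ) (n : ℕ) (b : ℝ) : ℕ :=
  ((C n ×ˢ C n).filter (fun p : ℕ × ℕ => (3 : ℝ) ^ n * b - p.2 - u * p.1 ∈ G)).card

/-- Union of the grid cells `[k ρ, (k + 1) ρ)`, `k ∈ S`. -/
def Gset (ρ : ℝ) (S : Finset ℤ) : Set ℝ := {b | ⌊b / ρ⌋ ∈ S}

/-- The grid cells of `S` and their two neighbours; contains all points at distance `≤ ρ` from
`Gset ρ S`. -/
def Xset (ρ : ℝ) (S : Finset ℤ) : Set ℝ := {b | ⌊b / ρ⌋ ∈ S ∨ ⌊b / ρ⌋ + 1 ∈ S ∨ ⌊b / ρ⌋ - 1 ∈ S}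

open Classical in
/-- INTERFACE (II+), upper growth theorem (general base). -/
def UpperGrowth : Prop :=
  ∀ (B : ℕ) (A : Finset ℕ) (t W ε : ℝ), 2 ≤ B → (∀ a ∈ A, a < B) → A.Nonempty →
    Irrational t → 0 < t → 0 < ε →
    ∃ K : ℝ, 0 < K ∧ ∀ (n : ℕ) (h : ℝ),
      ((((Cd B A n) ×ˢ (Cd B A n)).filter
        (fun p : ℕ × ℕ => |h - p.2 - t * p.1| ≤ W)).card : ℝ) ≤
        K * (max 1 ((A.card : ℝ) ^ 2 / B)) ^ n * (B : ℝ) ^ (ε * n)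

/-- INTERFACE (II-), the minimal growth equals the typical growth.  `K` is the number of levels of
one step of the certificate. -/
def LowerGrowth : Prop :=
  ∀ (K : ℕ) (u ρ c lam : ℝ) (S : Finset ℤ), 0 < K → Irrational u → 0 < u → 0 < ρ → 0 < c →
    1 < lam →
    (∀ n : ℕ, 1 ≤ n → ∀ b ∈ Xset ρ S, c * lam ^ n ≤ (cnt u (Gset ρ S) (K * n) b : ℝ)) →
    (∀ ε : ℝ, 0 < ε → ∀ η : ℝ, 0 < η → ∃ n₀ : ℕ, ∀ n ≥ n₀,
      volume {b | b ∈ Xset ρ S ∧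
        (cnt u (Gset ρ S) (K * n) b : ℝ) < (3 : ℝ) ^ (((K * n : ℕ) : ℝ) * (s0 - ε))} ≤
        ENNReal.ofReal η) →
    ∀ ε : ℝ, 0 < ε → ∃ n₀ : ℕ, ∀ n ≥ n₀, ∀ b ∈ Xset ρ S,
      (3 : ℝ) ^ (((K * n : ℕ) : ℝ) * (s0 - ε)) ≤ (cnt u (Gset ρ S) (K * n) b : ℝ)

/-- Typical growth at slope `u`: whenever every point of `X` has descendants in `G` at all levels
`K * n`, `n ≥ 1`, most points have `≥ 3 ^ (K n (s0 - ε))` of them. -/
def Typical (u : ℝ) : Prop :=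
  ∀ (K : ℕ) (ρ : ℝ) (S : Finset ℤ), 0 < K → 0 < ρ →
    (∀ n : ℕ, 1 ≤ n → ∀ b ∈ Xset ρ S, 1 ≤ cnt u (Gset ρ S) (K * n) b) →
    ∀ ε : ℝ, 0 < ε → ∀ η : ℝ, 0 < η → ∃ n₀ : ℕ, ∀ n ≥ n₀,
      volume {b | b ∈ Xset ρ S ∧
        (cnt u (Gset ρ S) (K * n) b : ℝ) < (3 : ℝ) ^ (((K * n : ℕ) : ℝ) * (s0 - ε))} ≤
        ENNReal.ofReal η

/-- INTERFACE (III): growth is typical for all slopes outside a set of dimension `0`. -/
def TypicalSlopes : Prop :=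
  dimH {u : ℝ | u ∈ Icc (1 / 3) 3 ∧ ¬ (Irrational u ∧ Typical u)} = 0

/-- Robust growth at slope `u` for the set `S` of cells: the conclusion the geometry uses. -/
def RobustGrowth (u ρ : ℝ) (S : Finset ℤ) : Prop :=
  ∀ ε : ℝ, 0 < ε → ∀ m₀ : ℕ, ∃ n : ℕ, m₀ ≤ n ∧ ∀ b ∈ Xset ρ S,
    (3 : ℝ) ^ ((n : ℝ) * (s0 - ε)) ≤ (cnt u (Gset ρ S) n b : ℝ)

/-- INTERFACE (lower output for the geometry): given a certificate on a range of slopes, robust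
growth holds for all slopes of the range outside a set of dimension `0`. -/
def RobustSlopes : Prop :=
  ∀ (K : ℕ) (u₁ u₂ ρ c lam : ℝ) (S : Finset ℤ), 0 < K → 1 / 3 ≤ u₁ → u₂ ≤ 3 → 0 < ρ → 0 < c →
    1 < lam →
    (∀ u ∈ Icc u₁ u₂, ∀ n : ℕ, 1 ≤ n → ∀ b ∈ Xset ρ S,
      c * lam ^ n ≤ (cnt u (Gset ρ S) (K * n) b : ℝ)) →
    dimH {u : ℝ | u ∈ Icc u₁ u₂ ∧ ¬ RobustGrowth u ρ S} = 0

/-- CERTIFICATE on the slopes `[u₁, u₂]`: `K` levels per step, cells of length `ρ`, noise `σ` (common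
to the children). -/
structure RobustCert (K : ℕ) (u₁ u₂ ρ σ lam : ℝ) (v : ℤ → ℕ) : Prop where
  K_pos : 0 < K
  hu₁ : 1 / 3 ≤ u₁
  hu : u₁ < u₂
  hu₂ : u₂ ≤ 3
  ρ_pos : 0 < ρ
  σ_pos : 0 < σ
  one_lt : 1 < lam
  fin : (Function.support v).Finite
  step : ∀ u ∈ Icc u₁ u₂, ∀ b s : ℝ, |s| ≤ σ →
    lam * (v ⌊b / ρ⌋ : ℝ) ≤
      ∑ p ∈ C K ×ˢ C K, (v ⌊((3 : ℝ) ^ K * b + s - p.2 - u * p.1) / ρ⌋ : ℝ)

/-- A position at distance `≤ ρ` from `Gset ρ S` is in `Xset ρ S`. -/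
theorem mem_Xset_of_near {ρ : ℝ} (hρ : 0 < ρ) {S : Finset ℤ} {b b' : ℝ} (hb : b ∈ Gset ρ S)
    (h : |b' - b| ≤ ρ) : b' ∈ Xset ρ S := by
  have hb' : ⌊b / ρ⌋ ∈ S := hb
  obtain ⟨h1, h2⟩ := abs_le.mp h
  have e1 : b' / ρ ≤ b / ρ + 1 := by
    rw [div_add_one (ne_of_gt hρ)]
    exact div_le_div_of_nonneg_right (by linarith) hρ.le
  have e2 : b / ρ - 1 ≤ b' / ρ := by
    rw [div_sub_one (ne_of_gt hρ)]
    exact div_le_div_of_nonneg_right (by linarith) hρ.le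
  have f1 : ⌊b' / ρ⌋ ≤ ⌊b / ρ⌋ + 1 := by
    have := Int.floor_le_floor e1
    rwa [Int.floor_add_one] at this
  have f2 : ⌊b / ρ⌋ - 1 ≤ ⌊b' / ρ⌋ := by
    have := Int.floor_le_floor e2
    rwa [Int.floor_sub_one] at this
  show ⌊b' / ρ⌋ ∈ S ∨ ⌊b' / ρ⌋ + 1 ∈ S ∨ ⌊b' / ρ⌋ - 1 ∈ S
  rcases (by omega : ⌊b' / ρ⌋ = ⌊b / ρ⌋ ∨ ⌊b' / ρ⌋ + 1 = ⌊b / ρ⌋ ∨ ⌊b' / ρ⌋ - 1 = ⌊b / ρ⌋) with
    h | h | h
  · left; rw [h]; exact hb'
  · right; left; rw [h]; exact hb'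
  · right; right; rw [h]; exact hb'

/-- The lower output follows from (II-) and (III). -/
theorem robustSlopes_of (h2 : LowerGrowth) (h3 : TypicalSlopes) : RobustSlopes := by
  intro K u₁ u₂ ρ c lam S hK hu1 hu2 hρ hc hlam hcert
  have hsub : {u : ℝ | u ∈ Icc u₁ u₂ ∧ ¬ RobustGrowth u ρ S} ⊆
      {u : ℝ | u ∈ Icc (1 / 3) 3 ∧ ¬ (Irrational u ∧ Typical u)} := by
    rintro u ⟨hu, hnot⟩
    refine ⟨⟨hu1.trans hu.1, hu.2.trans hu2⟩, ?_⟩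
    rintro ⟨hirr, htyp⟩
    apply hnot
    intro ε hε m₀
    have hu0 : 0 < u := by have := hu1.trans hu.1; linarith
    have hpos : ∀ n : ℕ, 1 ≤ n → ∀ b ∈ Xset ρ S, 1 ≤ cnt u (Gset ρ S) (K * n) b := by
      intro n hn b hb
      have h := hcert u hu n hn b hb
      have hp : 0 < c * lam ^ n := mul_pos hc (pow_pos (by linarith) n)
      have : (0 : ℝ) < (cnt u (Gset ρ S) (K * n) b : ℝ) := lt_of_lt_of_le hp h
      exact_mod_cast this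
    obtain ⟨n₀, hn₀⟩ := h2 K u ρ c lam S hK hirr hu0 hρ hc hlam (hcert u hu)
      (htyp K ρ S hK hρ hpos) ε hε
    refine ⟨K * (max n₀ m₀), ?_, ?_⟩
    · calc m₀ ≤ max n₀ m₀ := le_max_right _ _
        _ ≤ K * (max n₀ m₀) := Nat.le_mul_of_pos_left _ hK
    · intro b hb
      exact hn₀ _ (le_max_left _ _) b hb
  exact le_antisymm ((dimH_mono hsub).trans_eq h3) zero_le

end Pool.Agent.Lib.H59Q
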