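import Pool.Agent.Lib.H59Q.Defs

/-!
# MP_54f706, Q2, part (III): definitions

Convention: the word `p = (i, j) ∈ Cd B A n × Cd B A n` has the value `j + u * i`, written
`(p.2 : ℝ) + u * p.1`.
-/

namespace Pool.Agent.Lib.H59Q

open MeasureTheory Set

/-- The exponential sum `Σ exp (i ξ (j + u i))` over the words of length `n`. -/
noncomputable def expsum (B : ℕ) (A : Finset ℕ) (u : ℝ) (n : ℕ) (ξ : ℝ) : ℂ :=
  ∑ p ∈ Cd B A n ×ˢ Cd B A n,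
    Complex.exp (Complex.I * ((ξ * ((p.2 : ℝ) + u * (p.1 : ℝ)) : ℝ) : ℂ))

/-- The middle digits: four ternary digits `0, 2`, times `3`. -/
def A4 : Finset ℕ := (C 4).image (fun a => 3 * a)

/-- `∏_{l < n} cos² (ξ 3^l) cos² (u ξ 3^l)`. -/
noncomputable def P (u : ℝ) (n : ℕ) (ξ : ℝ) : ℝ :=
  ∏ l ∈ Finset.range n, Real.cos (ξ * 3 ^ l) ^ 2 * Real.cos (u * ξ * 3 ^ l) ^ 2

/-- The levels `≡ 0 (mod 5)`. -/
noncomputable def P1 (u : ℝ) (j : ℕ) (ξ : ℝ) : ℝ :=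
  ∏ m ∈ Finset.range j, Real.cos (ξ * 243 ^ m) ^ 2 * Real.cos (u * ξ * 243 ^ m) ^ 2

/-- The levels `≡ 1, 2, 3, 4 (mod 5)`. -/
noncomputable def P2 (u : ℝ) (j : ℕ) (ξ : ℝ) : ℝ :=
  ∏ m ∈ Finset.range j, ∏ r ∈ Finset.range 4,
    Real.cos (ξ * (3 ^ (r + 1) * 243 ^ m)) ^ 2 * Real.cos (u * ξ * (3 ^ (r + 1) * 243 ^ m)) ^ 2

/-- Level `m` is bad at `ξ`: one of `ξ 243^m / π`, `u ξ 243^m / π` is at distance `≥ 1/486` from the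
integers. -/
def Bad (u ξ : ℝ) (m : ℕ) : Prop :=
  1 / 486 ≤ |ξ * 243 ^ m / Real.pi - round (ξ * 243 ^ m / Real.pi)| ∨
    1 / 486 ≤ |u * ξ * 243 ^ m / Real.pi - round (u * ξ * 243 ^ m / Real.pi)|

open Classical in
/-- Number of bad levels below `j`. -/
noncomputable def nbad (u ξ : ℝ) (j : ℕ) : ℕ := ((Finset.range j).filter (Bad u ξ)).card

/-- Slopes with a frequency `ξ ∈ (2/243, 2]` having at most `δ j` bad levels below `j`. -/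
def Eset (δ : ℝ) (j : ℕ) : Set ℝ :=
  {u | u ∈ Icc (1 / 3) 3 ∧ ∃ ξ : ℝ, 2 / 243 < ξ ∧ ξ ≤ 2 ∧ (nbad u ξ j : ℝ) ≤ δ * j}

/-- The exceptional slopes. -/
def Exc : Set ℝ :=
  {u | u ∈ Icc (1 / 3) 3 ∧ ∀ δ : ℝ, 0 < δ → ∀ J₀ : ℕ, ∃ j ≥ J₀, u ∈ Eset δ j}

/-- Gaussian pair sum `Σ_{w,w'} exp (-(D w - D w')² / 4)`. -/
noncomputable def pairG (B : ℕ) (A : Finset ℕ) (u : ℝ) (n : ℕ) : ℝ :=
  ∑ p ∈ Cd B A n ×ˢ Cd B A n, ∑ q ∈ Cd B A n ×ˢ Cd B A n,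
    Real.exp (-(((p.2 : ℝ) + u * p.1) - ((q.2 : ℝ) + u * q.1)) ^ 2 / 4)

/-- The normalised number of words of length `n` staying in the hull `[0, 1 + u]`. -/
noncomputable def fn (u : ℝ) (n : ℕ) (x : ℝ) : ℝ := (3 / 4) ^ n * (cnt u (Icc 0 (1 + u)) n x : ℝ)

/-- `h` is a density: an integrable solution of the refinement equation. -/
structure IsDensity (u : ℝ) (h : ℝ → ℝ) : Prop where
  meas : Measurable h
  nonneg : ∀ x, 0 ≤ h x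
  int : Integrable h
  pos : 0 < ∫ x, h x
  supp : ∀ x, x ∉ Icc 0 (1 + u) → h x = 0
  eqn : ∀ᵐ x, h x = 3 / 4 *
    (h (3 * x) + h (3 * x - 2) + h (3 * x - 2 * u) + h (3 * x - 2 - 2 * u))

end Pool.Agent.Lib.H59Q
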