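import Pool.Agent.Lib.H59Q.Defs3

/-!
# F1: Gaussian identity for exponential sums

PROOF.  `‖Σ_w e^{iξD_w}‖² = Re Σ_w Σ_w' e^{iξ(D_w - D_w')} = Σ_w Σ_w' cos (ξ (D_w - D_w'))`
(`Complex.normSq`, `Complex.mul_conj`, or expand `‖z‖² = re² + im²` with
`re = Σ cos (ξ D_w)`, `im = Σ sin (ξ D_w)` and `Real.cos_sub`).  For every real `x`,
`ξ ↦ exp(-aξ²) cos (ξ x)` is integrable (dominated by the Gaussian: `integrable_exp_neg_mul_sq`) and
`∫ exp(-aξ²) cos(ξ x) dξ = √(π/a) exp(-x²/(4a))`: real part of Mathlib's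
`fourierIntegral_gaussian` (`∫ cexp (I t x) * cexp (-b x²) = (π/b)^(1/2) cexp (-t²/(4b))`).
Sum over the finite set (`integral_finsetSum`).
-/

namespace Pool.Agent.Lib.H59Q

open MeasureTheory Set

private theorem F1_normsq {ι : Type*} (s : Finset ι) (D : ι → ℝ) (ξ : ℝ) :
    ‖∑ w ∈ s, Complex.exp (Complex.I * ((ξ * D w : ℝ) : ℂ))‖ ^ 2 =
      ∑ w ∈ s, ∑ w' ∈ s, Real.cos (ξ * (D w - D w')) := by
  have hre : (∑ w ∈ s, Complex.exp (Complex.I * ((ξ * D w : ℝ) : ℂ))).re =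
      ∑ w ∈ s, Real.cos (ξ * D w) := by
    rw [Complex.re_sum]
    refine Finset.sum_congr rfl fun w _ => ?_
    rw [mul_comm, Complex.exp_ofReal_mul_I_re]
  have him : (∑ w ∈ s, Complex.exp (Complex.I * ((ξ * D w : ℝ) : ℂ))).im =
      ∑ w ∈ s, Real.sin (ξ * D w) := by
    rw [Complex.im_sum]
    refine Finset.sum_congr rfl fun w _ => ?_
    rw [mul_comm, Complex.exp_ofReal_mul_I_im]
  rw [Complex.sq_norm, Complex.normSq_apply, hre, him, Finset.sum_mul_sum, Finset.sum_mul_sum,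
    ← Finset.sum_add_distrib]
  refine Finset.sum_congr rfl fun w _ => ?_
  rw [← Finset.sum_add_distrib]
  refine Finset.sum_congr rfl fun w' _ => ?_
  rw [mul_sub, Real.cos_sub]

private theorem F1_int (x : ℝ) {a : ℝ} (ha : 0 < a) :
    Integrable (fun ξ : ℝ => Real.exp (-a * ξ ^ 2) * Real.cos (ξ * x)) := by
  refine (integrable_exp_neg_mul_sq ha).mono' ?_ ?_
  · exact (by fun_prop : Continuous fun ξ : ℝ =>
      Real.exp (-a * ξ ^ 2) * Real.cos (ξ * x)).aestronglyMeasurable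
  · refine Filter.Eventually.of_forall fun ξ => ?_
    rw [norm_mul, Real.norm_eq_abs, Real.norm_eq_abs, abs_of_pos (Real.exp_pos _)]
    exact mul_le_of_le_one_right (Real.exp_pos _).le (Real.abs_cos_le_one _)

private theorem F1_cos (x : ℝ) {a : ℝ} (ha : 0 < a) :
    ∫ ξ : ℝ, Real.exp (-a * ξ ^ 2) * Real.cos (ξ * x) =
      √(Real.pi / a) * Real.exp (-x ^ 2 / (4 * a)) := by
  have h := fourierIntegral_gaussian (b := (a : ℂ)) (by simpa using ha) (x : ℂ)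
  have hc : Integrable (fun ξ : ℝ =>
      Complex.exp (Complex.I * (x : ℂ) * ξ) * Complex.exp (-(a : ℂ) * (ξ : ℂ) ^ 2)) := by
    refine (integrable_exp_neg_mul_sq ha).mono' ?_ ?_
    · exact (by fun_prop : Continuous fun ξ : ℝ =>
        Complex.exp (Complex.I * (x : ℂ) * ξ) *
          Complex.exp (-(a : ℂ) * (ξ : ℂ) ^ 2)).aestronglyMeasurable
    · refine Filter.Eventually.of_forall fun ξ => ?_
      have e1 : Complex.I * (x : ℂ) * ξ = ((x * ξ : ℝ) : ℂ) * Complex.I := by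
        push_cast; ring
      have e2 : -(a : ℂ) * (ξ : ℂ) ^ 2 = ((-a * ξ ^ 2 : ℝ) : ℂ) := by push_cast; ring
      rw [norm_mul, e1, Complex.norm_exp_ofReal_mul_I, one_mul, e2, Complex.norm_exp_ofReal]
  have h2 := integral_re hc
  have h3 : ∀ ξ : ℝ, RCLike.re (Complex.exp (Complex.I * (x : ℂ) * ξ) *
      Complex.exp (-(a : ℂ) * (ξ : ℂ) ^ 2)) = Real.exp (-a * ξ ^ 2) * Real.cos (ξ * x) := by
    intro ξ
    have e1 : Complex.I * (x : ℂ) * ξ = ((ξ * x : ℝ) : ℂ) * Complex.I := by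
      push_cast; ring
    have e2 : Complex.exp (-(a : ℂ) * (ξ : ℂ) ^ 2) = ((Real.exp (-a * ξ ^ 2) : ℝ) : ℂ) := by
      push_cast; rfl
    rw [e1, e2, mul_comm]
    show (((Real.exp (-a * ξ ^ 2) : ℝ) : ℂ) * Complex.exp (((ξ * x : ℝ) : ℂ) * Complex.I)).re = _
    rw [Complex.re_ofReal_mul, Complex.exp_ofReal_mul_I_re]
  simp only [h3] at h2
  rw [h2, h]
  have h4 : ((Real.pi : ℂ) / (a : ℂ)) ^ (1 / 2 : ℂ) * Complex.exp (-(x : ℂ) ^ 2 / (4 * (a : ℂ))) =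
      ((√(Real.pi / a) * Real.exp (-x ^ 2 / (4 * a)) : ℝ) : ℂ) := by
    rw [Real.sqrt_eq_rpow]
    push_cast
    rw [Complex.ofReal_cpow (by positivity)]
    push_cast
    rfl
  rw [h4]
  exact Complex.ofReal_re _

theorem gauss_integrable {ι : Type*} (s : Finset ι) (D : ι → ℝ) {a : ℝ} (ha : 0 < a) :
    Integrable (fun ξ : ℝ => Real.exp (-a * ξ ^ 2) *
      ‖∑ w ∈ s, Complex.exp (Complex.I * ((ξ * D w : ℝ) : ℂ))‖ ^ 2) := by
  simp only [F1_normsq, Finset.mul_sum]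
  exact integrable_finsetSum _ fun w _ => integrable_finsetSum _ fun w' _ => F1_int _ ha

theorem gauss_id {ι : Type*} (s : Finset ι) (D : ι → ℝ) {a : ℝ} (ha : 0 < a) :
    ∫ ξ : ℝ, Real.exp (-a * ξ ^ 2) *
      ‖∑ w ∈ s, Complex.exp (Complex.I * ((ξ * D w : ℝ) : ℂ))‖ ^ 2 =
    √(Real.pi / a) * ∑ w ∈ s, ∑ w' ∈ s, Real.exp (-(D w - D w') ^ 2 / (4 * a)) := by
  simp only [F1_normsq, Finset.mul_sum]
  rw [integral_finsetSum _ fun w _ => integrable_finsetSum _ fun w' _ => F1_int _ ha]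
  refine Finset.sum_congr rfl fun w _ => ?_
  rw [integral_finsetSum _ fun w' _ => F1_int _ ha]
  refine Finset.sum_congr rfl fun w' _ => ?_
  exact F1_cos _ ha

end Pool.Agent.Lib.H59Q
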