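import Pool.Agent.Lib.H59Q.F1

/-!
# F2: comparison of the Gaussian pair sum with the window `[-2, 2]`

Write `S ξ = Σ_w e^{iξD_w}` and `G_a = ∫ exp(-aξ²)‖S ξ‖² dξ = √(π/a) Σ Σ exp(-(D_w-D_w')²/(4a))` (F1).

PROOF of `window_upper`.  `G_1 ≤ √2 G_2`, because `exp(-x²/4) ≤ exp(-x²/8)` and
`√(π/1) = √2 √(π/2)`.  For `|ξ| ≤ 2`: `exp(-2ξ²) ≤ 1`; for `|ξ| > 2`: `exp(-2ξ²) ≤ e^{-4} exp(-ξ²)`.  So
`G_2 ≤ ∫_{[-2,2]} ‖S‖² + e^{-4} G_1`, hence `G_1 (1 - √2 e^{-4}) ≤ √2 ∫_{[-2,2]} ‖S‖²` and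
`G_1 ≤ 2 ∫_{[-2,2]} ‖S‖²` (`√2 e^{-4} ≤ 1.415 * 0.0184 ≤ 0.027`, use `Real.exp_one_gt_d9` or
`Real.add_one_le_exp`: `e^4 ≥ (1+1+1/2)^4 = 39`).  Finally `G_1 = √π ΣΣ ≥ ΣΣ` (`π ≥ 1`).

PROOF of `window_lower`.  For `|ξ| ≤ 2`, `1 ≤ e^4 exp(-ξ²)`; so `∫_{[-2,2]} ‖S‖² ≤ e^4 G_1 =
e^4 √π ΣΣ ≤ 100 ΣΣ` (`e < 2.7182818286`, so `e^4 < 54.6`; `√π < 1.78`; product `< 97.2`).
`‖S‖²` is continuous, so integrable on the compact window.
-/

namespace Pool.Agent.Lib.H59Q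

open MeasureTheory Set

private theorem F2_cont {ι : Type*} (s : Finset ι) (D : ι → ℝ) :
    Continuous (fun ξ : ℝ => ‖∑ w ∈ s, Complex.exp (Complex.I * ((ξ * D w : ℝ) : ℂ))‖ ^ 2) := by
  refine Continuous.pow (Continuous.norm ?_) 2
  refine continuous_finsetSum _ fun w _ => ?_
  refine Complex.continuous_exp.comp ?_
  exact continuous_const.mul (Complex.continuous_ofReal.comp (continuous_id.mul continuous_const))

private theorem F2_intOn {ι : Type*} (s : Finset ι) (D : ι → ℝ) :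
    IntegrableOn (fun ξ : ℝ => ‖∑ w ∈ s, Complex.exp (Complex.I * ((ξ * D w : ℝ) : ℂ))‖ ^ 2)
      (Icc (-2 : ℝ) 2) :=
  (F2_cont s D).continuousOn.integrableOn_Icc

private theorem F2_exp4 : Real.exp (-4) ≤ 1 / 39 := by
  have h1 : (2.7 : ℝ) ≤ Real.exp 1 := by
    have := Real.exp_one_gt_d9
    linarith
  have h2 : (39 : ℝ) ≤ Real.exp 4 := by
    have h3 : Real.exp 4 = Real.exp 1 ^ 4 := by
      rw [← Real.exp_nat_mul]
      norm_num
    rw [h3]
    calc (39 : ℝ) ≤ 2.7 ^ 4 := by norm_num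
      _ ≤ Real.exp 1 ^ 4 := pow_le_pow_left₀ (by norm_num) h1 4
  rw [Real.exp_neg, ← one_div]
  exact one_div_le_one_div_of_le (by norm_num) h2

private theorem F2_exp4' : Real.exp 4 ≤ 54.7 := by
  have h1 : Real.exp 1 ≤ 2.7182818286 := Real.exp_one_lt_d9.le
  have h3 : Real.exp 4 = Real.exp 1 ^ 4 := by
    rw [← Real.exp_nat_mul]
    norm_num
  rw [h3]
  calc Real.exp 1 ^ 4 ≤ 2.7182818286 ^ 4 := pow_le_pow_left₀ (Real.exp_pos _).le h1 4
    _ ≤ 54.7 := by norm_num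

theorem window_upper {ι : Type*} (s : Finset ι) (D : ι → ℝ) :
    ∑ w ∈ s, ∑ w' ∈ s, Real.exp (-(D w - D w') ^ 2 / 4) ≤
      2 * ∫ ξ in Icc (-2 : ℝ) 2,
        ‖∑ w ∈ s, Complex.exp (Complex.I * ((ξ * D w : ℝ) : ℂ))‖ ^ 2 := by
  set F : ℝ → ℝ := fun ξ => ‖∑ w ∈ s, Complex.exp (Complex.I * ((ξ * D w : ℝ) : ℂ))‖ ^ 2 with hF
  have hF0 : ∀ ξ, 0 ≤ F ξ := fun ξ => by
    rw [hF]
    positivity
  set W : ℝ := ∫ ξ in Icc (-2 : ℝ) 2, F ξ with hW
  have hW0 : 0 ≤ W := setIntegral_nonneg measurableSet_Icc fun ξ _ => hF0 ξ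
  set T : ℝ := ∑ w ∈ s, ∑ w' ∈ s, Real.exp (-(D w - D w') ^ 2 / 4) with hT
  have hT0 : 0 ≤ T := Finset.sum_nonneg fun w _ => Finset.sum_nonneg fun w' _ => (Real.exp_pos _).le
  have i1 : Integrable (fun ξ : ℝ => Real.exp (-1 * ξ ^ 2) * F ξ) :=
    gauss_integrable s D one_pos
  have i2 : Integrable (fun ξ : ℝ => Real.exp (-2 * ξ ^ 2) * F ξ) :=
    gauss_integrable s D two_pos
  have g1 : ∫ ξ : ℝ, Real.exp (-1 * ξ ^ 2) * F ξ = √Real.pi * T := by
    have h := gauss_id s D (a := 1) one_pos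
    rw [div_one] at h
    rw [hF, h, hT]
    norm_num
  have g2 : √(Real.pi / 2) * T ≤ ∫ ξ : ℝ, Real.exp (-2 * ξ ^ 2) * F ξ := by
    have h := gauss_id s D (a := 2) two_pos
    rw [hF, h]
    refine mul_le_mul_of_nonneg_left ?_ (Real.sqrt_nonneg _)
    rw [hT]
    refine Finset.sum_le_sum fun w _ => Finset.sum_le_sum fun w' _ => ?_
    apply Real.exp_le_exp.2
    have : 0 ≤ (D w - D w') ^ 2 := sq_nonneg _
    rw [neg_div, neg_div]
    apply neg_le_neg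
    exact div_le_div_of_nonneg_left this (by norm_num) (by norm_num)
  have iW : Integrable (indicator (Icc (-2 : ℝ) 2) F) :=
    (integrable_indicator_iff measurableSet_Icc).2 (F2_intOn s D)
  have g3 : ∫ ξ : ℝ, Real.exp (-2 * ξ ^ 2) * F ξ ≤ W + Real.exp (-4) * (√Real.pi * T) := by
    calc ∫ ξ : ℝ, Real.exp (-2 * ξ ^ 2) * F ξ
        ≤ ∫ ξ : ℝ, (indicator (Icc (-2 : ℝ) 2) F ξ +
            Real.exp (-4) * (Real.exp (-1 * ξ ^ 2) * F ξ)) := by
          refine integral_mono i2 (iW.add (i1.const_mul _)) fun ξ => ?_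
          by_cases hξ : ξ ∈ Icc (-2 : ℝ) 2
          · simp only [indicator_of_mem hξ]
            have h1 : Real.exp (-2 * ξ ^ 2) ≤ 1 := by
              rw [Real.exp_le_one_iff]
              have := sq_nonneg ξ
              linarith
            have h2 : Real.exp (-2 * ξ ^ 2) * F ξ ≤ 1 * F ξ :=
              mul_le_mul_of_nonneg_right h1 (hF0 ξ)
            have h3 : 0 ≤ Real.exp (-4) * (Real.exp (-1 * ξ ^ 2) * F ξ) :=
              mul_nonneg (Real.exp_pos _).le (mul_nonneg (Real.exp_pos _).le (hF0 ξ))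
            linarith
          · simp only [indicator_of_notMem hξ, zero_add]
            have h4 : 4 ≤ ξ ^ 2 := by
              rw [mem_Icc, not_and_or, not_le, not_le] at hξ
              rcases hξ with h | h
              · nlinarith
              · nlinarith
            rw [← mul_assoc, ← Real.exp_add]
            refine mul_le_mul_of_nonneg_right (Real.exp_le_exp.2 ?_) (hF0 ξ)
            linarith
      _ = W + Real.exp (-4) * (√Real.pi * T) := by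
          rw [integral_add iW (i1.const_mul _), integral_indicator measurableSet_Icc,
            integral_const_mul, g1]
  have hpi : 1 ≤ √Real.pi := by
    rw [Real.one_le_sqrt]
    linarith [Real.pi_gt_three]
  have hsq : √Real.pi = √2 * √(Real.pi / 2) := by
    rw [← Real.sqrt_mul (by norm_num)]
    congr 1
    ring
  have hs2 : √2 ≤ 3 / 2 := by
    rw [Real.sqrt_le_left (by norm_num)]
    norm_num
  have hs20 : 0 ≤ √2 := Real.sqrt_nonneg _
  have hX0 : 0 ≤ √Real.pi * T := mul_nonneg (Real.sqrt_nonneg _) hT0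
  have h5 : √Real.pi * T ≤ √2 * (W + Real.exp (-4) * (√Real.pi * T)) := by
    calc √Real.pi * T = √2 * (√(Real.pi / 2) * T) := by rw [hsq]; ring
      _ ≤ _ := mul_le_mul_of_nonneg_left (g2.trans g3) hs20
  have h6 : √2 * (W + Real.exp (-4) * (√Real.pi * T)) ≤
      (3 / 2) * (W + (1 / 39) * (√Real.pi * T)) := by
    have h7 : Real.exp (-4) * (√Real.pi * T) ≤ (1 / 39) * (√Real.pi * T) :=
      mul_le_mul_of_nonneg_right F2_exp4 hX0
    have h8 : 0 ≤ W + (1 / 39) * (√Real.pi * T) := by positivity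
    calc √2 * (W + Real.exp (-4) * (√Real.pi * T)) ≤ √2 * (W + (1 / 39) * (√Real.pi * T)) :=
          mul_le_mul_of_nonneg_left (by linarith) hs20
      _ ≤ _ := mul_le_mul_of_nonneg_right hs2 h8
  have h9 : T ≤ √Real.pi * T := by
    calc T = 1 * T := (one_mul T).symm
      _ ≤ _ := mul_le_mul_of_nonneg_right hpi hT0
  linarith

theorem window_lower {ι : Type*} (s : Finset ι) (D : ι → ℝ) :
    ∫ ξ in Icc (-2 : ℝ) 2, ‖∑ w ∈ s, Complex.exp (Complex.I * ((ξ * D w : ℝ) : ℂ))‖ ^ 2 ≤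
      100 * ∑ w ∈ s, ∑ w' ∈ s, Real.exp (-(D w - D w') ^ 2 / 4) := by
  set F : ℝ → ℝ := fun ξ => ‖∑ w ∈ s, Complex.exp (Complex.I * ((ξ * D w : ℝ) : ℂ))‖ ^ 2 with hF
  have hF0 : ∀ ξ, 0 ≤ F ξ := fun ξ => by
    rw [hF]
    positivity
  set T : ℝ := ∑ w ∈ s, ∑ w' ∈ s, Real.exp (-(D w - D w') ^ 2 / 4) with hT
  have hT0 : 0 ≤ T := Finset.sum_nonneg fun w _ => Finset.sum_nonneg fun w' _ => (Real.exp_pos _).le
  have i1 : Integrable (fun ξ : ℝ => Real.exp (-1 * ξ ^ 2) * F ξ) :=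
    gauss_integrable s D one_pos
  have g1 : ∫ ξ : ℝ, Real.exp (-1 * ξ ^ 2) * F ξ = √Real.pi * T := by
    have h := gauss_id s D (a := 1) one_pos
    rw [div_one] at h
    rw [hF, h, hT]
    norm_num
  have iW : Integrable (indicator (Icc (-2 : ℝ) 2) F) :=
    (integrable_indicator_iff measurableSet_Icc).2 (F2_intOn s D)
  have h1 : ∫ ξ in Icc (-2 : ℝ) 2, F ξ ≤ Real.exp 4 * (√Real.pi * T) := by
    rw [← g1, ← integral_const_mul, ← integral_indicator measurableSet_Icc]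
    refine integral_mono iW (i1.const_mul _) fun ξ => ?_
    by_cases hξ : ξ ∈ Icc (-2 : ℝ) 2
    · simp only [indicator_of_mem hξ]
      rw [← mul_assoc, ← Real.exp_add]
      have h2 : ξ ^ 2 ≤ 4 := by
        rw [mem_Icc] at hξ
        nlinarith [hξ.1, hξ.2]
      have h3 : 1 ≤ Real.exp (4 + -1 * ξ ^ 2) := by
        rw [Real.one_le_exp_iff]
        linarith
      calc F ξ = 1 * F ξ := (one_mul _).symm
        _ ≤ _ := mul_le_mul_of_nonneg_right h3 (hF0 ξ)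
    · simp only [indicator_of_notMem hξ]
      exact mul_nonneg (Real.exp_pos _).le (mul_nonneg (Real.exp_pos _).le (hF0 ξ))
  have hpi : √Real.pi ≤ 1.78 := by
    rw [Real.sqrt_le_left (by norm_num)]
    have := Real.pi_lt_d2
    norm_num at this ⊢
    linarith
  calc ∫ ξ in Icc (-2 : ℝ) 2, F ξ ≤ Real.exp 4 * (√Real.pi * T) := h1
    _ = (Real.exp 4 * √Real.pi) * T := by ring
    _ ≤ (54.7 * 1.78) * T := by
        refine mul_le_mul_of_nonneg_right ?_ hT0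
        exact mul_le_mul F2_exp4' hpi (Real.sqrt_nonneg _) (by norm_num)
    _ ≤ 100 * T := mul_le_mul_of_nonneg_right (by norm_num) hT0

end Pool.Agent.Lib.H59Q
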