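import Pool.Agent.Lib.H59Q.CdBasic

/-!
# F3: product formula for the exponential sums over digit sets

PROOF of `norm_sq_expsum`.  The sum over `(i, j) ∈ Cd × Cd` of `e^{iξ(j + u i)}` is the product of
`Σ_{j ∈ Cd} e^{iξ j}` and `Σ_{i ∈ Cd} e^{i u ξ i}` (`Finset.sum_product`, `Finset.sum_mul_sum`,
`Complex.exp_add`).  For one digit set: `Σ_{a ∈ Cd B A n} e^{iy a} = ∏_{m < n} Σ_{d ∈ A} e^{i y B^m d}`,
by induction on `n` with `Cd_add` for `1 + n` (first digit first): `a = B^n x + y'`, `x ∈ A`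
(`sum_Cd_add` with `m = 1`, `Cd_one`), so the factor `m = n` is `Σ_x e^{i y B^n x}`.
-/

namespace Pool.Agent.Lib.H59Q

open MeasureTheory Set

/-- One digit set: `Σ_{a ∈ Cd B A n} e^{iya} = ∏_{m < n} Σ_{d ∈ A} e^{i y B^m d}`. -/
theorem sum_exp_Cd {B : ℕ} {A : Finset ℕ} (hA : ∀ a ∈ A, a < B) (n : ℕ) (y : ℝ) :
    ∑ a ∈ Cd B A n, Complex.exp (Complex.I * ((y * a : ℝ) : ℂ)) =
      ∏ m ∈ Finset.range n,
        ∑ a ∈ A, Complex.exp (Complex.I * ((y * (B : ℝ) ^ m * a : ℝ) : ℂ)) := by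
  induction n with
  | zero => simp [Cd]
  | succ n ih =>
    rw [Nat.add_comm n 1, sum_Cd_add hA 1 n, Cd_one, Nat.add_comm 1 n, Finset.prod_range_succ,
      ← ih, mul_comm, Finset.sum_mul_sum]
    refine Finset.sum_congr rfl fun x _ => Finset.sum_congr rfl fun z _ => ?_
    rw [← Complex.exp_add]
    congr 1
    push_cast
    ring

/-- The sum over pairs is a product of two sums over digit sets. -/
theorem expsum_eq_mul (B : ℕ) (A : Finset ℕ) (u : ℝ) (n : ℕ) (ξ : ℝ) :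
    expsum B A u n ξ = (∑ a ∈ Cd B A n, Complex.exp (Complex.I * ((ξ * a : ℝ) : ℂ))) *
      ∑ a ∈ Cd B A n, Complex.exp (Complex.I * ((u * ξ * a : ℝ) : ℂ)) := by
  unfold expsum
  rw [Finset.sum_product, mul_comm, Finset.sum_mul_sum]
  refine Finset.sum_congr rfl fun x _ => Finset.sum_congr rfl fun z _ => ?_
  rw [← Complex.exp_add]
  congr 1
  push_cast
  ring

theorem norm_sq_expsum {B : ℕ} {A : Finset ℕ} (hA : ∀ a ∈ A, a < B) (u : ℝ) (n : ℕ) (ξ : ℝ) :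
    ‖expsum B A u n ξ‖ ^ 2 = ∏ m ∈ Finset.range n,
      (‖∑ a ∈ A, Complex.exp (Complex.I * ((ξ * (B : ℝ) ^ m * a : ℝ) : ℂ))‖ ^ 2 *
        ‖∑ a ∈ A, Complex.exp (Complex.I * ((u * ξ * (B : ℝ) ^ m * a : ℝ) : ℂ))‖ ^ 2) := by
  rw [expsum_eq_mul, sum_exp_Cd hA, sum_exp_Cd hA, norm_mul, mul_pow, Complex.norm_prod,
    Complex.norm_prod, ← Finset.prod_pow, ← Finset.prod_pow, ← Finset.prod_mul_distrib]

end Pool.Agent.Lib.H59Q
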