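import Pool.Agent.Lib.H59Q.F3

/-!
# F3b: the two digit systems, and elementary properties of the products `P`, `P1`, `P2`

PROOFS.
* `norm_sq_expsum_C`: F3 with `B = 3`, `A = {0, 2}`: `‖1 + e^{2iy}‖² = 4 cos² y`
  (`1 + e^{2iy} = 2 cos y e^{iy}`), with `y = ξ 3^m` and `y = u ξ 3^m`; `4 * 4 = 16`.
* `norm_sq_expsum_A4`: F3 with `B = 243`, `A = A4`: `A4 = {3c : c ∈ C 4}`, and for real `y`
  `Σ_{a ∈ A4} e^{iya} = Σ_{c ∈ C 4} e^{i (3y) c} = ∏_{r < 4} (1 + e^{2i y 3^{r+1}})` (the product formula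
  inside F3, or expand: `C 4` has 16 elements, `decide`/`simp`), so
  `‖·‖² = 256 ∏_{r<4} cos² (y 3^{r+1})`; with `y = ξ 243^m`, `y = u ξ 243^m`, and `256 * 256` per level.
* `P_five`: `∏_{l < 5j} = ∏_{m<j} ∏_{r<5}` with `l = 5m + r` (`Finset.prod_range` induction on `j`,
  `Finset.prod_range_succ` five times), `3^{5m+r} = 243^m 3^r`; `r = 0` gives `P1`, `r = 1..4` give `P2`.
* the rest is routine.
-/

namespace Pool.Agent.Lib.H59Q

open MeasureTheory Set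

theorem A4_lt : ∀ a ∈ A4, a < 243 := by
  intro a ha
  unfold A4 at ha
  rw [Finset.mem_image] at ha
  obtain ⟨c, hc, rfl⟩ := ha
  have h := Cd_lt C_digits hc
  norm_num at h
  omega

theorem card_A4 : A4.card = 16 := by
  unfold A4
  rw [Finset.card_image_of_injective _ (fun a b h => by
    have h' : 3 * a = 3 * b := h
    omega), card_C]
  norm_num

/-- `‖1 + e^{2iy}‖² = 4 cos² y`. -/
theorem f3b_norm_one_add (y : ℝ) :
    ‖(1 : ℂ) + Complex.exp (Complex.I * ((y * 2 : ℝ) : ℂ))‖ ^ 2 = 4 * Real.cos y ^ 2 := by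
  have h1 : (1 : ℂ) + Complex.exp (Complex.I * ((y * 2 : ℝ) : ℂ)) =
      2 * Complex.cos (y : ℂ) * Complex.exp ((y : ℂ) * Complex.I) := by
    rw [Complex.cos, mul_div_assoc', mul_comm (2 : ℂ), mul_div_assoc, div_self (two_ne_zero' ℂ),
      mul_one, add_mul, ← Complex.exp_add, ← Complex.exp_add]
    have e1 : (y : ℂ) * Complex.I + (y : ℂ) * Complex.I = Complex.I * ((y * 2 : ℝ) : ℂ) := by
      push_cast
      ring
    have e2 : -(y : ℂ) * Complex.I + (y : ℂ) * Complex.I = 0 := by ring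
    rw [e1, e2, Complex.exp_zero, add_comm]
  rw [h1, norm_mul, norm_mul, Complex.norm_exp_ofReal_mul_I, mul_one, mul_pow,
    ← Complex.ofReal_cos, Complex.norm_real, Real.norm_eq_abs, sq_abs]
  norm_num

theorem f3b_norm_two (y : ℝ) :
    ‖∑ a ∈ ({0, 2} : Finset ℕ), Complex.exp (Complex.I * ((y * a : ℝ) : ℂ))‖ ^ 2 =
      4 * Real.cos y ^ 2 := by
  rw [Finset.sum_pair (by norm_num)]
  rw [← f3b_norm_one_add]
  push_cast
  simp

theorem norm_sq_expsum_C (u : ℝ) (n : ℕ) (ξ : ℝ) :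
    ‖expsum 3 {0, 2} u n ξ‖ ^ 2 = 16 ^ n * P u n ξ := by
  rw [norm_sq_expsum C_digits]
  unfold P
  have h16 : (16 : ℝ) ^ n = ∏ _m ∈ Finset.range n, (16 : ℝ) := by
    rw [Finset.prod_const, Finset.card_range]
  rw [h16, ← Finset.prod_mul_distrib]
  refine Finset.prod_congr rfl fun m _ => ?_
  rw [f3b_norm_two, f3b_norm_two]
  push_cast
  ring

theorem f3b_norm_A4 (y : ℝ) :
    ‖∑ a ∈ A4, Complex.exp (Complex.I * ((y * a : ℝ) : ℂ))‖ ^ 2 =
      256 * ∏ r ∈ Finset.range 4, Real.cos (y * 3 ^ (r + 1)) ^ 2 := by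
  have h1 : ∑ a ∈ A4, Complex.exp (Complex.I * ((y * a : ℝ) : ℂ)) =
      ∑ c ∈ Cd 3 {0, 2} 4, Complex.exp (Complex.I * (((3 * y) * c : ℝ) : ℂ)) := by
    unfold A4
    rw [Finset.sum_image (fun a _ b _ h => by
      have h' : 3 * a = 3 * b := h
      omega)]
    refine Finset.sum_congr rfl fun c _ => ?_
    congr 1
    push_cast
    ring
  rw [h1, sum_exp_Cd C_digits, Complex.norm_prod, ← Finset.prod_pow]
  have h256 : (256 : ℝ) = ∏ _r ∈ Finset.range 4, (4 : ℝ) := by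
    rw [Finset.prod_const, Finset.card_range]
    norm_num
  rw [h256, ← Finset.prod_mul_distrib]
  refine Finset.prod_congr rfl fun r _ => ?_
  rw [f3b_norm_two]
  congr 3
  push_cast
  ring

theorem norm_sq_expsum_A4 (u : ℝ) (j : ℕ) (ξ : ℝ) :
    ‖expsum 243 A4 u j ξ‖ ^ 2 = (256 ^ 2) ^ j * P2 u j ξ := by
  rw [norm_sq_expsum A4_lt]
  unfold P2
  have h16 : ((256 : ℝ) ^ 2) ^ j = ∏ _m ∈ Finset.range j, ((256 : ℝ) ^ 2) := by
    rw [Finset.prod_const, Finset.card_range]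
  rw [h16, ← Finset.prod_mul_distrib]
  refine Finset.prod_congr rfl fun m _ => ?_
  rw [f3b_norm_A4, f3b_norm_A4, Finset.prod_mul_distrib]
  have e1 : ∀ r : ℕ, Real.cos (ξ * ((243 : ℕ) : ℝ) ^ m * 3 ^ (r + 1)) =
      Real.cos (ξ * (3 ^ (r + 1) * 243 ^ m)) := by
    intro r
    congr 1
    push_cast
    ring
  have e2 : ∀ r : ℕ, Real.cos (u * ξ * ((243 : ℕ) : ℝ) ^ m * 3 ^ (r + 1)) =
      Real.cos (u * ξ * (3 ^ (r + 1) * 243 ^ m)) := by
    intro r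
    congr 1
    push_cast
    ring
  simp only [e1, e2]
  ring

theorem f3b_P_split (u : ℝ) (a b : ℕ) (ξ : ℝ) : P u (a + b) ξ = P u a ξ *
    ∏ l ∈ Finset.range b, Real.cos (ξ * 3 ^ (a + l)) ^ 2 * Real.cos (u * ξ * 3 ^ (a + l)) ^ 2 := by
  unfold P
  rw [Finset.prod_range_add]

theorem P_five (u : ℝ) (j : ℕ) (ξ : ℝ) : P u (5 * j) ξ = P1 u j ξ * P2 u j ξ := by
  induction j with
  | zero => simp [P, P1, P2]
  | succ j ih =>
    have h5 : 5 * (j + 1) = 5 * j + 5 := by ring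
    rw [h5]
    unfold P1 P2 at ih ⊢
    rw [Finset.prod_range_succ, Finset.prod_range_succ, f3b_P_split, ih]
    have e : ∀ (v : ℝ) (r : ℕ), Real.cos (v * 3 ^ (5 * j + r)) = Real.cos (v * (3 ^ r * 243 ^ j)) := by
      intro v r
      congr 1
      have h243 : (3 : ℝ) ^ 5 = 243 := by norm_num
      rw [pow_add, pow_mul, h243]
      ring
    simp only [Finset.prod_range_succ, Finset.prod_range_zero, one_mul, e]
    ring_nf

theorem P_add (u : ℝ) (a b : ℕ) (ξ : ℝ) : P u (a + b) ξ = P u a ξ * P u b (3 ^ a * ξ) := by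
  rw [f3b_P_split]
  congr 1
  unfold P
  refine Finset.prod_congr rfl fun l _ => ?_
  rw [pow_add]
  congr 3 <;> ring

theorem P_nonneg (u : ℝ) (n : ℕ) (ξ : ℝ) : 0 ≤ P u n ξ := by
  unfold P
  exact Finset.prod_nonneg fun l _ => mul_nonneg (sq_nonneg _) (sq_nonneg _)

theorem f3b_cos_le (a b : ℝ) : Real.cos a ^ 2 * Real.cos b ^ 2 ≤ 1 :=
  mul_le_one₀ (Real.cos_sq_le_one a) (sq_nonneg _) (Real.cos_sq_le_one b)

theorem P_le_one (u : ℝ) (n : ℕ) (ξ : ℝ) : P u n ξ ≤ 1 := by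
  unfold P
  exact Finset.prod_le_one (fun l _ => mul_nonneg (sq_nonneg _) (sq_nonneg _))
    (fun l _ => f3b_cos_le _ _)

theorem P_neg (u : ℝ) (n : ℕ) (ξ : ℝ) : P u n (-ξ) = P u n ξ := by
  unfold P
  refine Finset.prod_congr rfl fun l _ => ?_
  have e1 : -ξ * 3 ^ l = -(ξ * 3 ^ l) := by ring
  have e2 : u * -ξ * 3 ^ l = -(u * ξ * 3 ^ l) := by ring
  rw [e1, e2, Real.cos_neg, Real.cos_neg]

theorem P_cont (u : ℝ) (n : ℕ) : Continuous (P u n) := by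
  unfold P
  fun_prop

theorem P1_nonneg (u : ℝ) (n : ℕ) (ξ : ℝ) : 0 ≤ P1 u n ξ := by
  unfold P1
  exact Finset.prod_nonneg fun l _ => mul_nonneg (sq_nonneg _) (sq_nonneg _)

theorem P1_le_one (u : ℝ) (n : ℕ) (ξ : ℝ) : P1 u n ξ ≤ 1 := by
  unfold P1
  exact Finset.prod_le_one (fun l _ => mul_nonneg (sq_nonneg _) (sq_nonneg _))
    (fun l _ => f3b_cos_le _ _)

theorem P1_neg (u : ℝ) (n : ℕ) (ξ : ℝ) : P1 u n (-ξ) = P1 u n ξ := by
  unfold P1
  refine Finset.prod_congr rfl fun l _ => ?_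
  have e1 : -ξ * 243 ^ l = -(ξ * 243 ^ l) := by ring
  have e2 : u * -ξ * 243 ^ l = -(u * ξ * 243 ^ l) := by ring
  rw [e1, e2, Real.cos_neg, Real.cos_neg]

theorem P2_nonneg (u : ℝ) (n : ℕ) (ξ : ℝ) : 0 ≤ P2 u n ξ := by
  unfold P2
  exact Finset.prod_nonneg fun l _ => Finset.prod_nonneg fun r _ =>
    mul_nonneg (sq_nonneg _) (sq_nonneg _)

theorem P2_le_one (u : ℝ) (n : ℕ) (ξ : ℝ) : P2 u n ξ ≤ 1 := by
  unfold P2
  exact Finset.prod_le_one
    (fun l _ => Finset.prod_nonneg fun r _ => mul_nonneg (sq_nonneg _) (sq_nonneg _))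
    (fun l _ => Finset.prod_le_one (fun r _ => mul_nonneg (sq_nonneg _) (sq_nonneg _))
      (fun r _ => f3b_cos_le _ _))

theorem P2_cont (u : ℝ) (n : ℕ) : Continuous (P2 u n) := by
  unfold P2
  fun_prop

end Pool.Agent.Lib.H59Q
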