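import Pool.Agent.Lib.H59Q.F2
import Pool.Agent.Lib.H59Q.F3b

/-!
# F4: the middle levels, from the upper growth theorem

Two statements.

PROOF of `pair_le_of_window` (no growth theorem): fix `w`; the terms `exp(-x²/4)`, `x = D_w - D_w'`,
with `⌊|x|⌋ = k` are `≤ exp(-k²/4)` each, and there are at most `2 M` of them (`x ∈ [k, k+1)` is the
window of centre `D_w - k - 1/2` and radius `1 ≥ 1/2`, `x ∈ (-k-1, -k]` similarly).  So
`Σ_w' exp(-x²/4) ≤ 2 M Σ_{k ≥ 0} exp(-k²/4) ≤ 2 M * 5 = 10 M` (`Σ_k exp(-k²/4) ≤ 1 + Σ_{k≥1} exp(-k/4)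
= 1 + 1/(e^{1/4} - 1) ≤ 1 + 4 = 5`, geometric series, `e^{1/4} ≥ 5/4`).  In Lean: `exp(-x²/4) ≤
Σ_{k ∈ range R} exp(-k²/4) 1[⌊|x|⌋ = k]` with `R` larger than all `|x|`, exchange the sums
(`Finset.sum_comm`), count with `Finset.card_filter`.

PROOF of `int_P2`.  `UpperGrowth` with `B = 243`, `A = A4` (`A4_lt`, `card_A4`: `16² / 243 = 256/243 > 1`),
`t = u`, `W = 1`, `ε`: window counts `≤ K (256/243)^j 243^{ε j}` uniformly in the centre.  By
`pair_le_of_window` (with `s = Cd × Cd`, `|s| = 256^j`) `pairG 243 A4 u j ≤ 256^j * 10 K (256/243)^j 243^{εj}`.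
By `window_lower` and `norm_sq_expsum_A4`: `(256²)^j ∫_{[-2,2]} P2 u j ≤ 100 pairG`, so
`∫ P2 ≤ 1000 K 243^{-j} 243^{εj}`.
-/

namespace Pool.Agent.Lib.H59Q

open MeasureTheory Set

theorem exp_quarter : (5 / 4 : ℝ) ≤ Real.exp (1 / 4) := by
  have := Real.add_one_le_exp (1 / 4 : ℝ)
  linarith

theorem sum_exp_sq (R : ℕ) : ∑ k ∈ Finset.range R, Real.exp (-(k : ℝ) ^ 2 / 4) ≤ 5 := by
  have hr : Real.exp (-(1 / 4)) ≤ 4 / 5 := by
    rw [Real.exp_neg]
    rw [inv_le_comm₀ (Real.exp_pos _) (by norm_num)]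
    have := exp_quarter
    norm_num at this ⊢
    linarith
  have h0 : ∀ k : ℕ, Real.exp (-(k : ℝ) ^ 2 / 4) ≤ (4 / 5 : ℝ) ^ k := by
    intro k
    have h1 : Real.exp (-(k : ℝ) ^ 2 / 4) ≤ Real.exp ((k : ℝ) * (-(1 / 4))) := by
      apply Real.exp_le_exp.mpr
      have : (k : ℝ) ≤ (k : ℝ) ^ 2 := by
        have : k ≤ k ^ 2 := Nat.le_self_pow (by norm_num) k
        exact_mod_cast this
      linarith
    refine h1.trans ?_
    rw [Real.exp_nat_mul]
    exact pow_le_pow_left₀ (Real.exp_pos _).le hr k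
  calc ∑ k ∈ Finset.range R, Real.exp (-(k : ℝ) ^ 2 / 4)
      ≤ ∑ k ∈ Finset.range R, (4 / 5 : ℝ) ^ k := Finset.sum_le_sum fun k _ => h0 k
    _ = ((4 / 5 : ℝ) ^ R - 1) / (4 / 5 - 1) := geom_sum_eq (by norm_num) R
    _ ≤ 5 := by
        have : 0 ≤ (4 / 5 : ℝ) ^ R := by positivity
        rw [div_le_iff_of_neg (by norm_num)]
        linarith

open Classical in
theorem pair_le_of_window {ι : Type*} (s : Finset ι) (D : ι → ℝ) {M : ℝ}
    (hM : ∀ h : ℝ, ((s.filter (fun w => |h - D w| ≤ 1)).card : ℝ) ≤ M) :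
    ∑ w ∈ s, ∑ w' ∈ s, Real.exp (-(D w - D w') ^ 2 / 4) ≤ s.card * (10 * M) := by
  have hkey : ∀ w ∈ s, ∑ w' ∈ s, Real.exp (-(D w - D w') ^ 2 / 4) ≤ 10 * M := by
    intro w _
    set R : ℕ := s.sup (fun w' => ⌊|D w - D w'|⌋₊) + 1 with hR
    have hfl : ∀ w' ∈ s, ⌊|D w - D w'|⌋₊ ∈ Finset.range R := by
      intro w' hw'
      rw [Finset.mem_range, hR]
      have := Finset.le_sup (f := fun w' => ⌊|D w - D w'|⌋₊) hw'
      exact Nat.lt_succ_of_le this
    have h1 : ∑ w' ∈ s, Real.exp (-(D w - D w') ^ 2 / 4) =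
        ∑ k ∈ Finset.range R, ∑ w' ∈ s.filter (fun w' => ⌊|D w - D w'|⌋₊ = k),
          Real.exp (-(D w - D w') ^ 2 / 4) := by
      rw [Finset.sum_fiberwise_of_maps_to hfl]
    have hcard : ∀ k : ℕ, ((s.filter (fun w' => ⌊|D w - D w'|⌋₊ = k)).card : ℝ) ≤ 2 * M := by
      intro k
      have hsub : s.filter (fun w' => ⌊|D w - D w'|⌋₊ = k) ⊆
          s.filter (fun w' => |(D w - k - 1 / 2) - D w'| ≤ 1) ∪
          s.filter (fun w' => |(D w + k + 1 / 2) - D w'| ≤ 1) := by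
        intro w' hw'
        rw [Finset.mem_filter] at hw'
        obtain ⟨hs, hk⟩ := hw'
        have ha := Nat.floor_le (abs_nonneg (D w - D w'))
        have hb := Nat.lt_floor_add_one |D w - D w'|
        rw [hk] at ha hb
        rw [Finset.mem_union, Finset.mem_filter, Finset.mem_filter]
        rcases le_total 0 (D w - D w') with h | h
        · left
          rw [abs_of_nonneg h] at ha hb
          exact ⟨hs, abs_le.mpr ⟨by linarith, by linarith⟩⟩
        · right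
          rw [abs_of_nonpos h] at ha hb
          exact ⟨hs, abs_le.mpr ⟨by linarith, by linarith⟩⟩
      have h2 := (Finset.card_le_card hsub).trans (Finset.card_union_le _ _)
      have h3 : ((s.filter (fun w' => ⌊|D w - D w'|⌋₊ = k)).card : ℝ) ≤
          ((s.filter (fun w' => |(D w - k - 1 / 2) - D w'| ≤ 1)).card : ℝ) +
          ((s.filter (fun w' => |(D w + k + 1 / 2) - D w'| ≤ 1)).card : ℝ) := by
        exact_mod_cast h2
      have := hM (D w - k - 1 / 2)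
      have := hM (D w + k + 1 / 2)
      linarith
    rw [h1]
    have hM0 : 0 ≤ M := le_trans (Nat.cast_nonneg _) (hM 0)
    calc ∑ k ∈ Finset.range R, ∑ w' ∈ s.filter (fun w' => ⌊|D w - D w'|⌋₊ = k),
          Real.exp (-(D w - D w') ^ 2 / 4)
        ≤ ∑ k ∈ Finset.range R, (2 * M) * Real.exp (-(k : ℝ) ^ 2 / 4) := by
          refine Finset.sum_le_sum fun k _ => ?_
          calc ∑ w' ∈ s.filter (fun w' => ⌊|D w - D w'|⌋₊ = k),
                Real.exp (-(D w - D w') ^ 2 / 4)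
              ≤ ∑ _w' ∈ s.filter (fun w' => ⌊|D w - D w'|⌋₊ = k),
                Real.exp (-(k : ℝ) ^ 2 / 4) := by
                refine Finset.sum_le_sum fun w' hw' => ?_
                apply Real.exp_le_exp.mpr
                rw [Finset.mem_filter] at hw'
                have ha := Nat.floor_le (abs_nonneg (D w - D w'))
                rw [hw'.2] at ha
                have : (k : ℝ) ^ 2 ≤ (D w - D w') ^ 2 := by
                  rw [← sq_abs (D w - D w')]
                  exact pow_le_pow_left₀ (Nat.cast_nonneg k) ha 2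
                linarith
            _ = ((s.filter (fun w' => ⌊|D w - D w'|⌋₊ = k)).card : ℝ) *
                Real.exp (-(k : ℝ) ^ 2 / 4) := by
                rw [Finset.sum_const, nsmul_eq_mul]
            _ ≤ (2 * M) * Real.exp (-(k : ℝ) ^ 2 / 4) :=
                mul_le_mul_of_nonneg_right (hcard k) (Real.exp_pos _).le
      _ = (2 * M) * ∑ k ∈ Finset.range R, Real.exp (-(k : ℝ) ^ 2 / 4) := by
          rw [Finset.mul_sum]
      _ ≤ (2 * M) * 5 := mul_le_mul_of_nonneg_left (sum_exp_sq R) (by linarith)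
      _ = 10 * M := by ring
  calc ∑ w ∈ s, ∑ w' ∈ s, Real.exp (-(D w - D w') ^ 2 / 4)
      ≤ ∑ _w ∈ s, 10 * M := Finset.sum_le_sum hkey
    _ = s.card * (10 * M) := by rw [Finset.sum_const, nsmul_eq_mul]

theorem int_P2 (hU : UpperGrowth) {u : ℝ} (hu0 : 0 < u) (hirr : Irrational u) {ε : ℝ}
    (hε : 0 < ε) :
    ∃ K : ℝ, 0 < K ∧ ∀ j : ℕ,
      ∫ ξ in Icc (-2 : ℝ) 2, P2 u j ξ ≤ K * (243 : ℝ) ^ ((ε - 1) * j) := by
  classical
  have hne : A4.Nonempty := by
    rw [← Finset.card_pos, card_A4]; norm_num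
  obtain ⟨K, hK, h⟩ := hU 243 A4 u 1 ε (by norm_num) A4_lt hne hirr hu0 hε
  refine ⟨1000 * K, by positivity, fun j => ?_⟩
  set s : Finset (ℕ × ℕ) := Cd 243 A4 j ×ˢ Cd 243 A4 j with hs
  set D : ℕ × ℕ → ℝ := fun p => (p.2 : ℝ) + u * p.1 with hD
  set M : ℝ := K * (256 / 243) ^ j * (243 : ℝ) ^ (ε * j) with hMdef
  have hM : ∀ x : ℝ, ((s.filter (fun w => |x - D w| ≤ 1)).card : ℝ) ≤ M := by
    intro x
    have h1 := h j x
    have e1 : (max 1 (((A4.card : ℕ) : ℝ) ^ 2 / ((243 : ℕ) : ℝ))) = 256 / 243 := by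
      rw [card_A4]; norm_num
    rw [e1] at h1
    refine le_trans (le_of_eq ?_) (h1.trans (le_of_eq ?_))
    · congr 1
      apply congrArg Finset.card
      apply Finset.filter_congr
      intro p _
      simp only [hD]
      rw [show x - ((p.2 : ℝ) + u * p.1) = x - p.2 - u * p.1 by ring]
    · rw [hMdef]; norm_num
  have hp := pair_le_of_window s D hM
  have hw := window_lower s D
  have hcard : ((s.card : ℕ) : ℝ) = 256 ^ j := by
    rw [hs, Finset.card_product, card_Cd A4_lt, card_A4]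
    push_cast
    rw [← mul_pow]; norm_num
  have hint : ∫ ξ in Icc (-2 : ℝ) 2, ‖∑ w ∈ s, Complex.exp (Complex.I * ((ξ * D w : ℝ) : ℂ))‖ ^ 2
      = (256 ^ 2) ^ j * ∫ ξ in Icc (-2 : ℝ) 2, P2 u j ξ := by
    rw [← integral_const_mul]
    apply integral_congr_ae
    filter_upwards with ξ
    rw [← norm_sq_expsum_A4]
    rfl
  rw [hint] at hw
  rw [hcard] at hp
  have h3 : (256 ^ 2 : ℝ) ^ j * ∫ ξ in Icc (-2 : ℝ) 2, P2 u j ξ ≤ 100 * (256 ^ j * (10 * M)) :=
    hw.trans (mul_le_mul_of_nonneg_left hp (by norm_num))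
  have h256 : (0 : ℝ) < 256 ^ j := by positivity
  have h4 : (256 : ℝ) ^ j * ∫ ξ in Icc (-2 : ℝ) 2, P2 u j ξ ≤ 1000 * M := by
    have e : (256 ^ 2 : ℝ) ^ j = 256 ^ j * 256 ^ j := by rw [← mul_pow]; norm_num
    rw [e, mul_assoc] at h3
    have : (256 : ℝ) ^ j * (256 ^ j * ∫ ξ in Icc (-2 : ℝ) 2, P2 u j ξ) ≤
        256 ^ j * (1000 * M) := by linarith
    exact le_of_mul_le_mul_left this h256
  have h5 : 1000 * M = 256 ^ j * (1000 * K * (243 : ℝ) ^ ((ε - 1) * j)) := by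
    rw [hMdef, div_pow, sub_mul, one_mul, Real.rpow_sub (by norm_num), Real.rpow_natCast]
    ring
  rw [h5] at h4
  exact le_of_mul_le_mul_left h4 h256

end Pool.Agent.Lib.H59Q
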