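import Pool.Agent.Lib.H59Q.F3b

/-!
# F5: decay at the bad levels

PROOF.  `P1` is the product over `m < j` of `cos² a cos² b`, `a = ξ 243^m`, `b = u ξ 243^m`.  If level `m`
is bad, one of them, say `a = π z` with `|z - round z| ≥ 1/486`, has `cos² a = 1 - sin² a` and
`|sin (π z)| = |sin (π (z - round z))| ≥ 2 |z - round z|` (`Real.mul_abs_le_abs_sin` or Jordan's
inequality `Real.mul_le_sin`, as `|z - round z| ≤ 1/2`), so `cos² a ≤ 1 - 4 / 486²`; the other factor is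
`≤ 1`.  At the other levels the factor is `≤ 1`.
-/

namespace Pool.Agent.Lib.H59Q

open MeasureTheory Set

lemma F5_cos_sq_le {a : ℝ} (h : 1 / 486 ≤ |a / Real.pi - round (a / Real.pi)|) :
    Real.cos a ^ 2 ≤ 1 - 4 / 486 ^ 2 := by
  have hpi := Real.pi_pos
  set z : ℝ := a / Real.pi with hz
  have ha : a = z * Real.pi := by rw [hz]; field_simp
  set t : ℝ := z - round z with ht
  have ht2 : |t| ≤ 1 / 2 := abs_sub_round z
  have e1 : |Real.sin a| = |Real.sin (t * Real.pi)| := by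
    have : t * Real.pi = a - (round z : ℤ) * Real.pi := by rw [ha, ht]; ring
    rw [this, Real.sin_sub_int_mul_pi, abs_mul, abs_neg_one_zpow, one_mul]
  have h1 : |t * Real.pi| ≤ Real.pi / 2 := by
    rw [abs_mul, abs_of_pos hpi]
    nlinarith
  have h2 := Real.mul_abs_le_abs_sin h1
  have h3 : 2 / 486 ≤ |Real.sin a| := by
    rw [e1]
    refine le_trans ?_ h2
    rw [abs_mul, abs_of_pos hpi]
    have : 2 / Real.pi * (|t| * Real.pi) = 2 * |t| := by field_simp
    rw [this]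
    linarith
  have h4 : (2 / 486 : ℝ) ^ 2 ≤ Real.sin a ^ 2 := by
    rw [← sq_abs (Real.sin a)]
    exact pow_le_pow_left₀ (by norm_num) h3 2
  have h5 := Real.sin_sq_add_cos_sq a
  norm_num at h4 ⊢
  linarith

theorem P1_le (u ξ : ℝ) (j : ℕ) : P1 u j ξ ≤ (1 - 4 / 486 ^ 2 : ℝ) ^ (nbad u ξ j) := by
  classical
  have hc0 : (0 : ℝ) ≤ 1 - 4 / 486 ^ 2 := by norm_num
  have hc1 : (1 : ℝ) - 4 / 486 ^ 2 ≤ 1 := by norm_num
  have h1 : P1 u j ξ ≤ ∏ m ∈ Finset.range j,
      (if Bad u ξ m then (1 - 4 / 486 ^ 2 : ℝ) else 1) := by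
    unfold P1
    refine Finset.prod_le_prod (fun m _ => by positivity) fun m _ => ?_
    have ha1 : Real.cos (ξ * 243 ^ m) ^ 2 ≤ 1 := Real.cos_sq_le_one _
    have hb1 : Real.cos (u * ξ * 243 ^ m) ^ 2 ≤ 1 := Real.cos_sq_le_one _
    split_ifs with hB
    · rcases hB with hB | hB
      · calc Real.cos (ξ * 243 ^ m) ^ 2 * Real.cos (u * ξ * 243 ^ m) ^ 2
            ≤ (1 - 4 / 486 ^ 2) * 1 := mul_le_mul (F5_cos_sq_le hB) hb1 (by positivity) hc0
          _ = _ := mul_one _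
      · calc Real.cos (ξ * 243 ^ m) ^ 2 * Real.cos (u * ξ * 243 ^ m) ^ 2
            ≤ 1 * (1 - 4 / 486 ^ 2) := mul_le_mul ha1 (F5_cos_sq_le hB) (by positivity) zero_le_one
          _ = _ := one_mul _
    · exact mul_le_one₀ ha1 (by positivity) hb1
  refine h1.trans (le_of_eq ?_)
  rw [Finset.prod_ite, Finset.prod_const, Finset.prod_const_one, mul_one]
  rfl

end Pool.Agent.Lib.H59Q
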