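import Pool.Agent.Lib.H59Q.Defs3

/-!
# F6: the slopes with few bad levels are covered by few intervals (Erdos-Kahane counting)

PROOF.  Let `u ∈ Eset δ j` with its `ξ`, `z_m = ξ 243^m / π`, `y_m = u z_m`, `M_m = round z_m`,
`N_m = round y_m` (`m = 0, …, j`).  `0 < z_0 ≤ 2/π < 0.64`, `0 < y_0 ≤ 6/π < 1.92`: `(M_0, N_0)` is one of
the 6 pairs in `{0,1} × {0,1,2}`.  `z_{m+1} = 243 z_m`.  If `m` is not bad, `|z_{m+1} - 243 M_m| < 1/2`,
so `M_{m+1} = 243 M_m`, and also `N_{m+1} = 243 N_m`.  In all cases `|z_{m+1} - 243 M_m| ≤ 243/2`, so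
`|M_{m+1} - 243 M_m| ≤ 122`, the same for `N`: at most `245² = 60025` possibilities.
Define finite sets of pairs `T m k` by recursion: `T 0 k` = the 6 pairs,
`T (m+1) k = {243 p : p ∈ T m k} ∪ {243 p + (a, b) : p ∈ T m (k-1), |a|, |b| ≤ 122}` (second part empty
for `k = 0`).  By induction on `m`: `(M_m, N_m) ∈ T m (number of bad levels below m)` (and `T` is
monotone in `k`), and `|T m k| ≤ 6 x^{-k} (1 + 60025 x)^m` for every `x ∈ (0, 1]`
(`x^{-k}(1+60025x)^m + 60025 x^{-(k-1)}(1+60025x)^m = x^{-k}(1+60025x)^{m+1}`).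
With `k = ⌊δ j⌋`, `x^{-k} ≤ x^{-δ j}`.  Let `F` be the image of `T j k` under `(M, N) ↦ N / M`.
Finally `|u M_j - N_j| ≤ |u (M_j - z_j)| + |y_j - N_j| ≤ 3/2 + 1/2 = 2` and, for `j ≥ 1`,
`M_j ≥ z_j - 1/2 ≥ (2/π) 243^{j-1} - 1/2 ≥ 0.13 * 243^{j-1}`, so `|u - N_j/M_j| ≤ 2/(0.13 * 243^{j-1}) ≤
3740 / 243^j ≤ 4000 / 243^j`.
-/

namespace Pool.Agent.Lib.H59Q

open MeasureTheory Set

/-- The pairs of integers reached with at most `k` bad levels. -/
noncomputable def F6T : ℕ → ℕ → Finset (ℤ × ℤ)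
  | 0, _ => Finset.Icc 0 1 ×ˢ Finset.Icc 0 2
  | (m + 1), 0 => (F6T m 0).image (fun p => (243 * p.1, 243 * p.2))
  | (m + 1), (k + 1) => (F6T m (k + 1)).image (fun p => (243 * p.1, 243 * p.2)) ∪
      (F6T m k ×ˢ (Finset.Icc (-122) 122 ×ˢ Finset.Icc (-122) 122)).image
        (fun q => (243 * q.1.1 + q.2.1, 243 * q.1.2 + q.2.2))

lemma F6T_mono (l : ℕ) : ∀ {J J' : ℕ}, J ≤ J' → F6T l J ⊆ F6T l J' := by
  induction l with
  | zero => intro J J' _; simp [F6T]
  | succ l ih =>
    intro J J' h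
    cases J with
    | zero =>
      cases J' with
      | zero => exact subset_rfl
      | succ J' =>
        simp only [F6T]
        exact (Finset.image_subset_image (ih (Nat.zero_le _))).trans Finset.subset_union_left
    | succ J =>
      cases J' with
      | zero => omega
      | succ J' =>
        simp only [F6T]
        exact Finset.union_subset_union (Finset.image_subset_image (ih h))
          (Finset.image_subset_image (Finset.product_subset_product (ih (by omega)) subset_rfl))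

lemma F6_round_eq {x : ℝ} {X : ℤ} (h : |x - X| < 1 / 2) : round x = X := by
  rw [round_eq, Int.floor_eq_iff]
  obtain ⟨h1, h2⟩ := abs_lt.1 h
  constructor <;> linarith

/-- One step: the nearest integer of `243 z` from that of `z`. -/
lemma F6_digit (z : ℝ) : round (243 * z) - 243 * round z ∈ Finset.Icc (-122 : ℤ) 122 := by
  obtain ⟨a1, a2⟩ := abs_le.1 (abs_sub_round z)
  obtain ⟨b1, b2⟩ := abs_le.1 (abs_sub_round (243 * z))
  rw [Finset.mem_Icc]
  have c1 : ((round (243 * z) : ℤ) : ℝ) - 243 * (round z : ℤ) ≤ 122 := by linarith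
  have c2 : (-122 : ℝ) ≤ ((round (243 * z) : ℤ) : ℝ) - 243 * (round z : ℤ) := by linarith
  constructor
  · exact_mod_cast c2
  · exact_mod_cast c1

lemma F6_good {z : ℝ} (h : ¬ 1 / 486 ≤ |z - round z|) : round (243 * z) = 243 * round z := by
  apply F6_round_eq
  push Not at h
  push_cast
  have : 243 * z - 243 * (round z : ℝ) = 243 * (z - (round z : ℝ)) := by ring
  rw [this, abs_mul, abs_of_pos (by norm_num : (0 : ℝ) < 243)]
  linarith

open Classical in
lemma F6_nbad_succ (u ξ : ℝ) (m : ℕ) :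
    nbad u ξ (m + 1) = nbad u ξ m + if Bad u ξ m then 1 else 0 := by
  unfold nbad
  rw [Finset.range_add_one, Finset.filter_insert]
  split_ifs with h
  · rw [Finset.card_insert_of_notMem]
    simp
  · simp

lemma F6_mem {u ξ : ℝ} (hu : u ∈ Icc (1 / 3 : ℝ) 3) (h1 : 2 / 243 < ξ) (h2 : ξ ≤ 2) (m : ℕ) :
    (round (ξ * 243 ^ m / Real.pi), round (u * ξ * 243 ^ m / Real.pi)) ∈ F6T m (nbad u ξ m) := by
  have hpi := Real.pi_gt_three
  have hpi0 := Real.pi_pos
  have hu0 : (0 : ℝ) < u := lt_of_lt_of_le (by norm_num) hu.1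
  have hξ0 : 0 < ξ := lt_trans (by norm_num) h1
  induction m with
  | zero =>
    simp only [F6T, pow_zero, mul_one, Finset.mem_product, Finset.mem_Icc]
    have a1 : 0 ≤ ξ / Real.pi := by positivity
    have a2 : ξ / Real.pi ≤ 1 := by rw [div_le_one hpi0]; linarith
    have b1 : 0 ≤ u * ξ / Real.pi := by positivity
    have b2 : u * ξ / Real.pi ≤ 2 := by
      rw [div_le_iff₀ hpi0]
      have : u * ξ ≤ 3 * 2 := mul_le_mul hu.2 h2 hξ0.le (by norm_num)
      linarith
    rw [round_eq, round_eq]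
    refine ⟨⟨?_, ?_⟩, ?_, ?_⟩
    · rw [Int.le_floor]; push_cast; linarith
    · have : ⌊ξ / Real.pi + 1 / 2⌋ < 2 := by rw [Int.floor_lt]; push_cast; linarith
      omega
    · rw [Int.le_floor]; push_cast; linarith
    · have : ⌊u * ξ / Real.pi + 1 / 2⌋ < 3 := by rw [Int.floor_lt]; push_cast; linarith
      omega
  | succ m ih =>
    have e1 : ξ * 243 ^ (m + 1) / Real.pi = 243 * (ξ * 243 ^ m / Real.pi) := by
      rw [pow_succ]; ring
    have e2 : u * ξ * 243 ^ (m + 1) / Real.pi = 243 * (u * ξ * 243 ^ m / Real.pi) := by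
      rw [pow_succ]; ring
    rw [e1, e2, F6_nbad_succ]
    set z := ξ * 243 ^ m / Real.pi with hz
    set y := u * ξ * 243 ^ m / Real.pi with hy
    by_cases hB : Bad u ξ m
    · rw [if_pos hB]
      simp only [F6T, Finset.mem_union]
      right
      rw [Finset.mem_image]
      refine ⟨((round z, round y), (round (243 * z) - 243 * round z,
        round (243 * y) - 243 * round y)), ?_, by simp⟩
      rw [Finset.mem_product, Finset.mem_product]
      exact ⟨ih, F6_digit z, F6_digit y⟩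
    · rw [if_neg hB, add_zero]
      have hB1 : ¬ 1 / 486 ≤ |z - round z| := fun h => hB (Or.inl h)
      have hB2 : ¬ 1 / 486 ≤ |y - round y| := fun h => hB (Or.inr h)
      rw [F6_good hB1, F6_good hB2]
      cases hn : nbad u ξ m with
      | zero =>
        rw [hn] at ih
        simp only [F6T]
        exact Finset.mem_image.2 ⟨_, ih, rfl⟩
      | succ J =>
        rw [hn] at ih
        simp only [F6T, Finset.mem_union]
        left
        exact Finset.mem_image.2 ⟨_, ih, rfl⟩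

lemma F6_card {s : ℝ} (hs : 0 < s) (hs1 : s ≤ 1) (l : ℕ) : ∀ J : ℕ,
    ((F6T l J).card : ℝ) * s ^ J ≤ 6 * (1 + 60025 * s) ^ l := by
  induction l with
  | zero =>
    intro J
    have e : (F6T 0 J).card = 6 := by
      simp only [F6T]
      rw [Finset.card_product, Int.card_Icc, Int.card_Icc]
      rfl
    rw [e, pow_zero, mul_one]
    have h1 : s ^ J ≤ 1 := pow_le_one₀ hs.le hs1
    calc ((6 : ℕ) : ℝ) * s ^ J ≤ ((6 : ℕ) : ℝ) * 1 :=
          mul_le_mul_of_nonneg_left h1 (Nat.cast_nonneg _)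
      _ = 6 := by norm_num
  | succ l ih =>
    intro J
    have hp : (0 : ℝ) ≤ 6 * (1 + 60025 * s) ^ l := by positivity
    cases J with
    | zero =>
      have h0 := ih 0
      have h1 : ((F6T (l + 1) 0).card : ℝ) ≤ (F6T l 0).card := by
        simp only [F6T]
        exact_mod_cast Finset.card_image_le
      rw [pow_zero, mul_one] at h0 ⊢
      calc ((F6T (l + 1) 0).card : ℝ) ≤ 6 * (1 + 60025 * s) ^ l := h1.trans h0
        _ ≤ 6 * (1 + 60025 * s) ^ (l + 1) := by
          rw [pow_succ]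
          nlinarith [mul_nonneg hp hs.le]
    | succ J =>
      have h1 := ih (J + 1)
      have h0 := ih J
      have hc : ((F6T (l + 1) (J + 1)).card : ℝ) ≤
          (F6T l (J + 1)).card + 60025 * (F6T l J).card := by
        have h2 : (F6T (l + 1) (J + 1)).card ≤
            (F6T l (J + 1)).card + 60025 * (F6T l J).card := by
          simp only [F6T]
          refine (Finset.card_union_le _ _).trans ?_
          refine add_le_add Finset.card_image_le (Finset.card_image_le.trans ?_)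
          rw [Finset.card_product, Finset.card_product]
          have : (Finset.Icc (-122 : ℤ) 122).card = 245 := by rw [Int.card_Icc]; rfl
          rw [this, mul_comm]
        exact_mod_cast h2
      have hsJ : (0 : ℝ) < s ^ (J + 1) := by positivity
      calc ((F6T (l + 1) (J + 1)).card : ℝ) * s ^ (J + 1)
          ≤ ((F6T l (J + 1)).card + 60025 * (F6T l J).card) * s ^ (J + 1) :=
            mul_le_mul_of_nonneg_right hc hsJ.le
        _ = (F6T l (J + 1)).card * s ^ (J + 1) + 60025 * s * ((F6T l J).card * s ^ J) := by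
            rw [pow_succ]; ring
        _ ≤ 6 * (1 + 60025 * s) ^ l + 60025 * s * (6 * (1 + 60025 * s) ^ l) := by
            gcongr
        _ = 6 * (1 + 60025 * s) ^ (l + 1) := by rw [pow_succ]; ring

theorem Eset_cover {δ : ℝ} (hδ : 0 ≤ δ) {j : ℕ} (hj : 1 ≤ j) {x : ℝ} (hx : 0 < x) (hx1 : x ≤ 1) :
    ∃ F : Finset ℝ, (F.card : ℝ) ≤ 6 * (x ^ (-δ) * (1 + 60025 * x)) ^ j ∧
      ∀ u ∈ Eset δ j, ∃ c ∈ F, |u - c| ≤ 4000 / 243 ^ j := by
  classical
  refine ⟨(F6T j ⌊δ * j⌋₊).image (fun p : ℤ × ℤ => (p.2 : ℝ) / (p.1 : ℝ)), ?_, ?_⟩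
  · have h1 := F6_card hx hx1 j ⌊δ * j⌋₊
    have h2 : (⌊δ * j⌋₊ : ℝ) ≤ δ * j := Nat.floor_le (by positivity)
    have h3 : x ^ (δ * j) ≤ x ^ ⌊δ * j⌋₊ := by
      rw [← Real.rpow_natCast x]
      exact Real.rpow_le_rpow_of_exponent_ge hx hx1 h2
    have h4 : (x ^ (-δ)) ^ j = (x ^ (δ * j))⁻¹ := by
      rw [← Real.rpow_natCast, ← Real.rpow_mul hx.le, ← Real.rpow_neg hx.le]
      ring_nf
    have hp : 0 < x ^ (δ * j) := Real.rpow_pos_of_pos hx _
    have h5 : (((F6T j ⌊δ * j⌋₊).image (fun p : ℤ × ℤ => (p.2 : ℝ) / (p.1 : ℝ))).card : ℝ) ≤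
        (F6T j ⌊δ * j⌋₊).card := by exact_mod_cast Finset.card_image_le
    refine h5.trans ?_
    rw [mul_pow, h4]
    have h6 : ((F6T j ⌊δ * j⌋₊).card : ℝ) * x ^ (δ * j) ≤ 6 * (1 + 60025 * x) ^ j :=
      (mul_le_mul_of_nonneg_left h3 (Nat.cast_nonneg _)).trans h1
    calc ((F6T j ⌊δ * j⌋₊).card : ℝ)
        = ((F6T j ⌊δ * j⌋₊).card : ℝ) * x ^ (δ * j) * (x ^ (δ * j))⁻¹ := by
          rw [mul_assoc, mul_inv_cancel₀ hp.ne', mul_one]
      _ ≤ 6 * (1 + 60025 * x) ^ j * (x ^ (δ * j))⁻¹ :=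
          mul_le_mul_of_nonneg_right h6 (inv_pos.2 hp).le
      _ = 6 * ((x ^ (δ * j))⁻¹ * (1 + 60025 * x) ^ j) := by ring
  · rintro u ⟨hu, ξ, h1, h2, h3⟩
    have hpi0 := Real.pi_pos
    have hpi4 := Real.pi_lt_d2
    have hu0 : (0 : ℝ) < u := lt_of_lt_of_le (by norm_num) hu.1
    have hm := F6T_mono j (Nat.le_floor h3) (F6_mem hu h1 h2 j)
    refine ⟨_, Finset.mem_image_of_mem _ hm, ?_⟩
    simp only
    set z := ξ * 243 ^ j / Real.pi with hz
    have ey : u * ξ * 243 ^ j / Real.pi = u * z := by rw [hz]; ring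
    rw [ey]
    set X : ℝ := ((round z : ℤ) : ℝ) with hX
    set Y : ℝ := ((round (u * z) : ℤ) : ℝ) with hY
    have r1 : |z - X| ≤ 1 / 2 := abs_sub_round z
    have r2 : |u * z - Y| ≤ 1 / 2 := abs_sub_round _
    obtain ⟨i, rfl⟩ : ∃ i, j = i + 1 := ⟨j - 1, by omega⟩
    have hi : (1 : ℝ) ≤ 243 ^ i := one_le_pow₀ (by norm_num)
    have hzl : 63 / 100 * 243 ^ i ≤ z := by
      rw [hz, le_div_iff₀ hpi0]
      have e : ξ * (243 : ℝ) ^ (i + 1) = ξ * 243 * 243 ^ i := by rw [pow_succ]; ring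
      rw [e]
      have h5 : 63 / 100 * Real.pi ≤ ξ * 243 := by linarith
      calc 63 / 100 * 243 ^ i * Real.pi = 63 / 100 * Real.pi * 243 ^ i := by ring
        _ ≤ ξ * 243 * 243 ^ i := mul_le_mul_of_nonneg_right h5 (by positivity)
    have hXl : 13 / 100 * 243 ^ i ≤ X := by
      have := (abs_le.1 r1).2
      linarith
    have hX0 : 0 < X := lt_of_lt_of_le (by positivity) hXl
    have hkey : u - Y / X = ((u * z - Y) - u * (z - X)) / X := by
      field_simp
      ring
    rw [hkey, abs_div, abs_of_pos hX0, div_le_div_iff₀ hX0 (by positivity)]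
    have t1 : |(u * z - Y) - u * (z - X)| ≤ 2 := by
      calc |(u * z - Y) - u * (z - X)| ≤ |u * z - Y| + |u * (z - X)| := abs_sub _ _
        _ = |u * z - Y| + u * |z - X| := by rw [abs_mul, abs_of_pos hu0]
        _ ≤ 1 / 2 + 3 * (1 / 2) := by
            have : u * |z - X| ≤ 3 * (1 / 2) := mul_le_mul hu.2 r1 (abs_nonneg _) (by norm_num)
            linarith
        _ = 2 := by norm_num
    have e : (243 : ℝ) ^ (i + 1) = 243 * 243 ^ i := by rw [pow_succ]; ring
    rw [e]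
    calc |(u * z - Y) - u * (z - X)| * (243 * 243 ^ i) ≤ 2 * (243 * 243 ^ i) :=
          mul_le_mul_of_nonneg_right t1 (by positivity)
      _ ≤ 4000 * X := by nlinarith

end Pool.Agent.Lib.H59Q
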