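import Pool.Agent.Lib.H59Q.F6

/-!
# F7: the exceptional slopes have dimension `0`

PROOF of `dimH_le_of_limsup`.  For every `J`, `A ⊆ ⋃_{j ≥ J} ⋃_{c ∈ F j} closedBall c (r j)`; so
`μH[s] A ≤ liminf_J Σ_{j ≥ J} |F j| (2 r_j)^s = 0` by Mathlib's
`MeasureTheory.Measure.hausdorffMeasure_le_liminf_tsum` (or `mkMetric_le_liminf_tsum`), index type
`Σ j : {j // J ≤ j}, F j`; diameters `≤ 2 sup_{j ≥ J} r_j → 0`.  Hence `dimH A ≤ s`
(`dimH_le_of_hausdorffMeasure_ne_top`).

PROOF of `dimH_Exc`.  For `s > 0` choose `x ∈ (0, 1]` with `1 + 60025 x ≤ 243^{s/4}`, then `δ > 0` with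
`x^{-δ} ≤ 243^{s/4}`.  `Exc ⊆ limsup Eset δ j`; F6 covers, `r_j = 4000/243^j`,
`|F_j| (2 r_j)^s ≤ 6 * 8000^s * 243^{sj/2} * 243^{-sj}`, a convergent geometric series.  So
`dimH Exc ≤ s` for every `s > 0`.
-/

namespace Pool.Agent.Lib.H59Q

open MeasureTheory Set Filter Topology

theorem dimH_le_of_limsup {A : Set ℝ} {s : ℝ} (hs : 0 < s) (F : ℕ → Finset ℝ) (r : ℕ → ℝ)
    (hr : ∀ j, 0 ≤ r j) (hr0 : Tendsto r atTop (𝓝 0))
    (hsum : Summable (fun j => ((F j).card : ℝ) * (2 * r j) ^ s))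
    (hA : ∀ u ∈ A, ∀ J : ℕ, ∃ j ≥ J, ∃ c ∈ F j, |u - c| ≤ r j) :
    dimH A ≤ ENNReal.ofReal s := by
  -- the radii of the levels `≥ n` are uniformly small
  have hbd : ∀ n : ℕ, BddAbove (range fun l => r (n + l)) := by
    intro n
    obtain ⟨B, hB⟩ := hr0.bddAbove_range
    exact ⟨B, by rintro _ ⟨l, rfl⟩; exact hB ⟨n + l, rfl⟩⟩
  set R : ℕ → ℝ := fun n => ⨆ l : ℕ, r (n + l) with hR
  have hRle : ∀ n l, r (n + l) ≤ R n := fun n l => le_ciSup (hbd n) l
  have hR0 : Tendsto (fun n : ℕ => 2 * R n) atTop (𝓝 0) := by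
    have h1 : Tendsto R atTop (𝓝 0) := by
      rw [Metric.tendsto_atTop] at hr0 ⊢
      intro ε hε
      obtain ⟨N, hN⟩ := hr0 (ε / 2) (by linarith)
      refine ⟨N, fun n hn => ?_⟩
      have h2 : R n ≤ ε / 2 := ciSup_le fun l => by
        have := hN (n + l) (by omega)
        rw [Real.dist_eq, sub_zero] at this
        exact (le_abs_self _).trans this.le
      have h3 : 0 ≤ R n := (hr (n + 0)).trans (hRle n 0)
      rw [Real.dist_eq, sub_zero, abs_of_nonneg h3]
      linarith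
    have := h1.const_mul 2
    rwa [mul_zero] at this
  have hrE : Tendsto (fun n : ℕ => ENNReal.ofReal (2 * R n)) atTop (𝓝 0) := by
    have := ENNReal.tendsto_ofReal hR0
    rwa [ENNReal.ofReal_zero] at this
  have hball : ∀ (c : ℝ) (l : ℕ), Metric.ediam (Metric.closedBall c (r l)) ≤
      ENNReal.ofReal (2 * r l) := by
    intro c l
    refine Metric.ediam_le_of_forall_dist_le fun x hx y hy => ?_
    rw [Metric.mem_closedBall] at hx hy
    calc dist x y ≤ dist x c + dist y c := dist_triangle_right _ _ _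
      _ ≤ 2 * r l := by linarith
  set G : ℕ → ℝ := fun l => ((F l).card : ℝ) * (2 * r l) ^ s with hG
  have hG0 : ∀ l, 0 ≤ G l := fun l => by
    have := hr l
    positivity
  have key : μH[s] A ≤ ENNReal.ofReal (∑' l, G l) := by
    refine (Measure.hausdorffMeasure_le_liminf_tsum s A (l := atTop)
      (fun n : ℕ => ENNReal.ofReal (2 * R n)) hrE
      (fun n (i : Σ l : ℕ, {c // c ∈ F (n + l)}) =>
        Metric.closedBall (i.2 : ℝ) (r (n + i.1)))
      (Eventually.of_forall fun n i => (hball _ _).trans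
        (ENNReal.ofReal_le_ofReal (by have := hRle n i.1; linarith)))
      (Eventually.of_forall fun n x hx => ?_)).trans ?_
    · obtain ⟨l, hl, c, hc, hxc⟩ := hA x hx n
      obtain ⟨m, rfl⟩ := Nat.exists_eq_add_of_le hl
      refine mem_iUnion.2 ⟨⟨m, c, hc⟩, ?_⟩
      rw [Metric.mem_closedBall, Real.dist_eq]
      exact hxc
    · refine liminf_le_of_frequently_le' (Frequently.of_forall fun n => ?_)
      rw [ENNReal.tsum_sigma']
      have h1 : ∀ l : ℕ, (∑' b : {c // c ∈ F (n + l)},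
          Metric.ediam (Metric.closedBall ((⟨l, b⟩ : Σ l : ℕ, {c // c ∈ F (n + l)}).2 : ℝ)
            (r (n + (⟨l, b⟩ : Σ l : ℕ, {c // c ∈ F (n + l)}).1))) ^ s) ≤
          ENNReal.ofReal (G (n + l)) := by
        intro l
        have hrl := hr (n + l)
        rw [tsum_fintype]
        calc ∑ b : {c // c ∈ F (n + l)},
              Metric.ediam (Metric.closedBall (b : ℝ) (r (n + l))) ^ s
            ≤ ∑ _b : {c // c ∈ F (n + l)}, ENNReal.ofReal (2 * r (n + l)) ^ s :=
              Finset.sum_le_sum fun b _ => ENNReal.rpow_le_rpow (hball _ _) hs.le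
          _ = ENNReal.ofReal (G (n + l)) := by
              rw [Finset.sum_const, Finset.card_univ, Fintype.card_coe, nsmul_eq_mul,
                ENNReal.ofReal_rpow_of_nonneg (by positivity) hs.le, hG,
                ENNReal.ofReal_mul (by positivity), ENNReal.ofReal_natCast]
      refine (ENNReal.tsum_le_tsum h1).trans ?_
      rw [← ENNReal.ofReal_tsum_of_nonneg (fun l => hG0 _)
        (by simpa [add_comm] using (summable_nat_add_iff n).2 hsum)]
      apply ENNReal.ofReal_le_ofReal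
      have := hsum.sum_add_tsum_nat_add n
      have h2 : 0 ≤ ∑ i ∈ Finset.range n, G i := Finset.sum_nonneg fun i _ => hG0 i
      have h3 : ∑' l, G (n + l) = ∑' l, G (l + n) := by simp_rw [add_comm]
      rw [h3]
      linarith
  have hne : μH[((⟨s, hs.le⟩ : NNReal) : ℝ)] A ≠ ⊤ :=
    ne_top_of_le_ne_top ENNReal.ofReal_ne_top key
  have := dimH_le_of_hausdorffMeasure_ne_top hne
  refine this.trans_eq ?_
  rw [ENNReal.ofReal, Real.toNNReal_of_nonneg hs.le]
  rfl

theorem dimH_Exc : dimH Exc = 0 := by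
  refine le_antisymm ?_ zero_le
  refine ENNReal.le_of_forall_pos_le_add fun η hη _ => ?_
  rw [zero_add]
  set s : ℝ := (η : ℝ) with hs
  have hs0 : 0 < s := by exact_mod_cast hη
  have e0 : (η : ENNReal) = ENNReal.ofReal s := by rw [hs, ENNReal.ofReal_coe_nnreal]
  rw [e0]
  set Lg : ℝ := Real.log 243 with hLg
  have hLg0 : 0 < Lg := Real.log_pos (by norm_num)
  -- choice of `x`
  obtain ⟨x, hx0, hx1, hx2⟩ : ∃ x : ℝ, 0 < x ∧ x < 1 ∧ 60025 * x ≤ s * Lg / 4 := by
    refine ⟨min (1 / 2) (s * Lg / 240100), by positivity, ?_, ?_⟩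
    · exact lt_of_le_of_lt (min_le_left _ _) (by norm_num)
    · have := min_le_right (1 / 2) (s * Lg / 240100)
      linarith
  have hlx : Real.log x < 0 := Real.log_neg hx0 hx1
  -- choice of `δ`
  obtain ⟨δ, hδ0, hδ⟩ : ∃ δ : ℝ, 0 < δ ∧ δ * (-Real.log x) ≤ s * Lg / 4 := by
    refine ⟨s * Lg / (4 * (-Real.log x)), by
      apply div_pos (by positivity)
      linarith, le_of_eq ?_⟩
    have : Real.log x ≠ 0 := hlx.ne
    field_simp
  have hq : x ^ (-δ) * (1 + 60025 * x) ≤ Real.exp (s * Lg / 2) := by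
    have h1 : x ^ (-δ) ≤ Real.exp (s * Lg / 4) := by
      rw [Real.rpow_def_of_pos hx0]
      apply Real.exp_le_exp.2
      linarith
    have h2 : 1 + 60025 * x ≤ Real.exp (s * Lg / 4) := by
      have := Real.add_one_le_exp (60025 * x)
      have h3 : Real.exp (60025 * x) ≤ Real.exp (s * Lg / 4) := Real.exp_le_exp.2 hx2
      linarith
    calc x ^ (-δ) * (1 + 60025 * x) ≤ Real.exp (s * Lg / 4) * Real.exp (s * Lg / 4) :=
          mul_le_mul h1 h2 (by positivity) (Real.exp_pos _).le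
      _ = Real.exp (s * Lg / 2) := by rw [← Real.exp_add]; ring_nf
  -- the covers
  have hcov : ∀ j : ℕ, ∃ F : Finset ℝ, (F.card : ℝ) ≤ 6 * (Real.exp (s * Lg / 2)) ^ j ∧
      (1 ≤ j → ∀ u ∈ Eset δ j, ∃ c ∈ F, |u - c| ≤ 4000 / 243 ^ j) := by
    intro j
    rcases Nat.eq_zero_or_pos j with hj | hj
    · exact ⟨∅, by simp only [Finset.card_empty, Nat.cast_zero]; positivity, fun h => by omega⟩
    · obtain ⟨F, h1, h2⟩ := Eset_cover hδ0.le hj hx0 hx1.le
      refine ⟨F, h1.trans ?_, fun _ => h2⟩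
      have : (x ^ (-δ) * (1 + 60025 * x)) ^ j ≤ Real.exp (s * Lg / 2) ^ j :=
        pow_le_pow_left₀ (by positivity) hq j
      linarith
  choose F hF1 hF2 using hcov
  refine dimH_le_of_limsup hs0 F (fun j => 4000 / 243 ^ j) (fun j => by positivity) ?_ ?_ ?_
  · have := (tendsto_pow_atTop_nhds_zero_of_lt_one (by norm_num : (0 : ℝ) ≤ 1 / 243)
        (by norm_num)).const_mul 4000
    rw [mul_zero] at this
    refine this.congr fun n => ?_
    rw [one_div, inv_pow]; rfl
  · have hterm : ∀ j : ℕ, ((F j).card : ℝ) * (2 * (4000 / 243 ^ j)) ^ s ≤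
        6 * 8000 ^ s * (Real.exp (-(s * Lg / 2))) ^ j := by
      intro j
      have h3 : (2 * (4000 / 243 ^ j : ℝ)) ^ s = 8000 ^ s * Real.exp (-(s * Lg) * j) := by
        have e : (2 * (4000 / 243 ^ j : ℝ)) = 8000 * (243 ^ j)⁻¹ := by ring
        rw [e, Real.mul_rpow (by norm_num) (by positivity)]
        congr 1
        rw [Real.rpow_def_of_pos (by positivity), Real.log_inv, Real.log_pow]
        congr 1
        rw [hLg]
        ring
      rw [h3]
      calc ((F j).card : ℝ) * (8000 ^ s * Real.exp (-(s * Lg) * j))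
          ≤ 6 * (Real.exp (s * Lg / 2)) ^ j * (8000 ^ s * Real.exp (-(s * Lg) * j)) :=
            mul_le_mul_of_nonneg_right (hF1 j) (by positivity)
        _ = 6 * 8000 ^ s * (Real.exp (-(s * Lg / 2))) ^ j := by
            rw [← Real.exp_nat_mul, ← Real.exp_nat_mul]
            have : 6 * Real.exp (j * (s * Lg / 2)) * (8000 ^ s * Real.exp (-(s * Lg) * j)) =
                6 * 8000 ^ s * (Real.exp (j * (s * Lg / 2)) * Real.exp (-(s * Lg) * j)) := by
              ring
            rw [this, ← Real.exp_add]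
            congr 2
            ring
    have hlt : Real.exp (-(s * Lg / 2)) < 1 := by
      rw [Real.exp_lt_one_iff]
      have : 0 < s * Lg / 2 := by positivity
      linarith
    refine Summable.of_nonneg_of_le (fun l => by positivity) hterm ?_
    exact (summable_geometric_of_lt_one (Real.exp_pos _).le hlt).mul_left _
  · rintro u ⟨_, hu⟩ J
    obtain ⟨j, hj, huj⟩ := hu δ hδ0 (max J 1)
    refine ⟨j, le_trans (le_max_left _ _) hj, ?_⟩
    exact hF2 j (le_trans (le_max_right _ _) hj) u huj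

end Pool.Agent.Lib.H59Q
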