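import Pool.Agent.Lib.H59Q.F4
import Pool.Agent.Lib.H59Q.F5

/-!
# F8a: the shell bound for non-exceptional slopes

Chunk of F8 (see the docstring there for the proof).
-/

namespace Pool.Agent.Lib.H59Q

open MeasureTheory Set

private theorem f8a_measurable :
    MeasurableSet {ξ : ℝ | 2 / 243 < |ξ| ∧ |ξ| ≤ 2} := by
  have h : {ξ : ℝ | 2 / 243 < |ξ| ∧ |ξ| ≤ 2} = (fun ξ : ℝ => |ξ|) ⁻¹' Ioc (2 / 243) 2 := by
    ext ξ
    simp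
  rw [h]
  exact measurableSet_Ioc.preimage continuous_abs.measurable

private theorem f8a_subset :
    {ξ : ℝ | 2 / 243 < |ξ| ∧ |ξ| ≤ 2} ⊆ Icc (-2 : ℝ) 2 := by
  rintro ξ ⟨_, h2⟩
  exact abs_le.mp h2

private theorem f8a_P1 {u : ℝ} (hu : u ∈ Icc (1 / 3 : ℝ) 3) (hexc : u ∉ Exc) :
    ∃ q1 : ℝ, 0 < q1 ∧ q1 < 1 ∧ ∃ J₀ : ℕ, ∀ j ≥ J₀, ∀ ξ : ℝ, 2 / 243 < |ξ| → |ξ| ≤ 2 →
      P1 u j ξ ≤ q1 ^ j := by
  have hex : ∃ δ : ℝ, 0 < δ ∧ ∃ J₀ : ℕ, ∀ j ≥ J₀, u ∉ Eset δ j := by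
    by_contra hcon
    push Not at hcon
    exact hexc ⟨hu, fun δ hδ J₀ => hcon δ hδ J₀⟩
  obtain ⟨δ, hδ, J₀, hJ⟩ := hex
  have hc0 : (0 : ℝ) < 1 - 4 / 486 ^ 2 := by norm_num
  have hc1 : (1 - 4 / 486 ^ 2 : ℝ) < 1 := by norm_num
  refine ⟨(1 - 4 / 486 ^ 2 : ℝ) ^ δ, Real.rpow_pos_of_pos hc0 δ,
    Real.rpow_lt_one hc0.le hc1 hδ, J₀, ?_⟩
  have hpos : ∀ j ≥ J₀, ∀ ξ : ℝ, 2 / 243 < ξ → ξ ≤ 2 →
      P1 u j ξ ≤ ((1 - 4 / 486 ^ 2 : ℝ) ^ δ) ^ j := by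
    intro j hj ξ h1 h2
    have hn : δ * j < (nbad u ξ j : ℝ) := by
      by_contra hle
      push Not at hle
      exact hJ j hj ⟨hu, ξ, h1, h2, hle⟩
    calc P1 u j ξ ≤ (1 - 4 / 486 ^ 2 : ℝ) ^ (nbad u ξ j) := P1_le u ξ j
      _ = (1 - 4 / 486 ^ 2 : ℝ) ^ ((nbad u ξ j : ℕ) : ℝ) := (Real.rpow_natCast _ _).symm
      _ ≤ (1 - 4 / 486 ^ 2 : ℝ) ^ (δ * j) :=
          Real.rpow_le_rpow_of_exponent_ge hc0 hc1.le hn.le
      _ = ((1 - 4 / 486 ^ 2 : ℝ) ^ δ) ^ j := by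
          rw [Real.rpow_mul hc0.le, Real.rpow_natCast]
  intro j hj ξ h1 h2
  rcases le_or_gt 0 ξ with h0 | h0
  · rw [abs_of_nonneg h0] at h1 h2
    exact hpos j hj ξ h1 h2
  · rw [abs_of_neg h0] at h1 h2
    have := hpos j hj (-ξ) h1 h2
    rwa [P1_neg] at this

theorem shell_bound (hU : UpperGrowth) {u : ℝ} (hu : u ∈ Icc (1 / 3 : ℝ) 3) (hirr : Irrational u)
    (hexc : u ∉ Exc) :
    ∃ K q : ℝ, 0 < K ∧ 0 < q ∧ q < 1 ∧ ∀ j : ℕ,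
      ∫ ξ in {ξ : ℝ | 2 / 243 < |ξ| ∧ |ξ| ≤ 2}, P u (5 * j) ξ ≤ K * q ^ j * (1 / 243) ^ j := by
  obtain ⟨q1, hq0, hq1, J₀, hP1⟩ := f8a_P1 hu hexc
  have hu0 : 0 < u := by have := hu.1; linarith
  have hlog : Real.log q1 < 0 := Real.log_neg hq0 hq1
  have hlog243 : 0 < Real.log 243 := Real.log_pos (by norm_num)
  set ε : ℝ := -Real.log q1 / (2 * Real.log 243) with hεdef
  have hε : 0 < ε := by
    rw [hεdef]
    exact div_pos (by linarith) (by linarith)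
  obtain ⟨K0, hK0, hP2⟩ := int_P2 hU hu0 hirr hε
  set q : ℝ := Real.exp (Real.log q1 / 2) with hqdef
  have hqpos : 0 < q := Real.exp_pos _
  have hqlt : q < 1 := by
    rw [hqdef, Real.exp_lt_one_iff]
    linarith
  have hpow : ∀ j : ℕ, q1 ^ j * (243 : ℝ) ^ ((ε - 1) * j) = q ^ j * (1 / 243) ^ j := by
    intro j
    have e1 : q1 * (243 : ℝ) ^ (ε - 1) = q * (1 / 243) := by
      have e2 : (243 : ℝ) ^ ε = Real.exp (-Real.log q1 / 2) := by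
        rw [Real.rpow_def_of_pos (by norm_num : (0 : ℝ) < 243), hεdef]
        congr 1
        field_simp
      have e3 : q1 * Real.exp (-Real.log q1 / 2) = q := by
        conv_lhs => rw [← Real.exp_log hq0]
        rw [← Real.exp_add, hqdef]
        congr 1
        rw [Real.log_exp]
        ring
      rw [Real.rpow_sub (by norm_num : (0 : ℝ) < 243), Real.rpow_one, e2, ← e3]
      ring
    rw [Real.rpow_mul (by norm_num : (0 : ℝ) ≤ 243), Real.rpow_natCast, ← mul_pow, e1, mul_pow]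
  have hPint : ∀ n : ℕ, IntegrableOn (P u n) (Icc (-2 : ℝ) 2) := fun n =>
    (P_cont u n).continuousOn.integrableOn_Icc
  have hP2int : ∀ n : ℕ, IntegrableOn (P2 u n) (Icc (-2 : ℝ) 2) := fun n =>
    (P2_cont u n).continuousOn.integrableOn_Icc
  have hlarge : ∀ j ≥ J₀, ∫ ξ in {ξ : ℝ | 2 / 243 < |ξ| ∧ |ξ| ≤ 2}, P u (5 * j) ξ ≤
      K0 * q ^ j * (1 / 243) ^ j := by
    intro j hj
    have s1 : ∫ ξ in {ξ : ℝ | 2 / 243 < |ξ| ∧ |ξ| ≤ 2}, P u (5 * j) ξ ≤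
        ∫ ξ in {ξ : ℝ | 2 / 243 < |ξ| ∧ |ξ| ≤ 2}, q1 ^ j * P2 u j ξ := by
      refine setIntegral_mono_on ((hPint (5 * j)).mono_set f8a_subset)
        (((hP2int j).mono_set f8a_subset).const_mul _) f8a_measurable ?_
      rintro ξ ⟨h1, h2⟩
      rw [P_five]
      exact mul_le_mul_of_nonneg_right (hP1 j hj ξ h1 h2) (P2_nonneg u j ξ)
    have s2 : ∫ ξ in {ξ : ℝ | 2 / 243 < |ξ| ∧ |ξ| ≤ 2}, q1 ^ j * P2 u j ξ ≤
        ∫ ξ in Icc (-2 : ℝ) 2, q1 ^ j * P2 u j ξ := by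
      refine setIntegral_mono_set ((hP2int j).const_mul _) ?_ f8a_subset.eventuallyLE
      exact Filter.Eventually.of_forall fun ξ =>
        mul_nonneg (pow_nonneg hq0.le _) (P2_nonneg u j ξ)
    have s3 : ∫ ξ in Icc (-2 : ℝ) 2, q1 ^ j * P2 u j ξ = q1 ^ j * ∫ ξ in Icc (-2 : ℝ) 2, P2 u j ξ :=
      integral_const_mul _ _
    calc ∫ ξ in {ξ : ℝ | 2 / 243 < |ξ| ∧ |ξ| ≤ 2}, P u (5 * j) ξ
        ≤ q1 ^ j * ∫ ξ in Icc (-2 : ℝ) 2, P2 u j ξ := by rw [← s3]; exact s1.trans s2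
      _ ≤ q1 ^ j * (K0 * (243 : ℝ) ^ ((ε - 1) * j)) :=
          mul_le_mul_of_nonneg_left (hP2 j) (pow_nonneg hq0.le _)
      _ = K0 * (q1 ^ j * (243 : ℝ) ^ ((ε - 1) * j)) := by ring
      _ = K0 * q ^ j * (1 / 243) ^ j := by rw [hpow j]; ring
  have hall : ∀ j : ℕ, ∫ ξ in {ξ : ℝ | 2 / 243 < |ξ| ∧ |ξ| ≤ 2}, P u (5 * j) ξ ≤ 4 := by
    intro j
    have s2 : ∫ ξ in {ξ : ℝ | 2 / 243 < |ξ| ∧ |ξ| ≤ 2}, P u (5 * j) ξ ≤
        ∫ ξ in Icc (-2 : ℝ) 2, P u (5 * j) ξ :=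
      setIntegral_mono_set (hPint _)
        (Filter.Eventually.of_forall fun ξ => P_nonneg u _ ξ) f8a_subset.eventuallyLE
    have s3 : ∫ ξ in Icc (-2 : ℝ) 2, P u (5 * j) ξ ≤ ∫ _ξ in Icc (-2 : ℝ) 2, (1 : ℝ) :=
      setIntegral_mono_on (hPint _) (by simp) measurableSet_Icc fun ξ _ => P_le_one u _ ξ
    have s4 : ∫ _ξ in Icc (-2 : ℝ) 2, (1 : ℝ) = 4 := by
      rw [setIntegral_const, smul_eq_mul, mul_one, Measure.real, Real.volume_Icc,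
        ENNReal.toReal_ofReal (by norm_num)]
      norm_num
    exact (s2.trans s3).trans_eq s4
  have hDpos : 0 < q ^ J₀ * (1 / 243 : ℝ) ^ J₀ := by positivity
  refine ⟨K0 + 4 / (q ^ J₀ * (1 / 243) ^ J₀), q, by positivity, hqpos, hqlt, fun j => ?_⟩
  rcases le_or_gt J₀ j with hj | hj
  · refine (hlarge j hj).trans ?_
    have h1 : 0 ≤ q ^ j * (1 / 243 : ℝ) ^ j := by positivity
    have h2 : 0 ≤ 4 / (q ^ J₀ * (1 / 243 : ℝ) ^ J₀) := by positivity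
    have h3 := mul_nonneg h2 h1
    calc K0 * q ^ j * (1 / 243) ^ j = K0 * (q ^ j * (1 / 243) ^ j) := by ring
      _ ≤ K0 * (q ^ j * (1 / 243) ^ j) +
          4 / (q ^ J₀ * (1 / 243) ^ J₀) * (q ^ j * (1 / 243) ^ j) := by linarith
      _ = (K0 + 4 / (q ^ J₀ * (1 / 243) ^ J₀)) * q ^ j * (1 / 243) ^ j := by ring
  · refine (hall j).trans ?_
    have h1 : q ^ J₀ * (1 / 243 : ℝ) ^ J₀ ≤ q ^ j * (1 / 243) ^ j :=
      mul_le_mul (pow_le_pow_of_le_one hqpos.le hqlt.le hj.le)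
        (pow_le_pow_of_le_one (by norm_num) (by norm_num) hj.le) (by positivity) (by positivity)
    have h2 : 4 = 4 / (q ^ J₀ * (1 / 243 : ℝ) ^ J₀) * (q ^ J₀ * (1 / 243) ^ J₀) := by
      field_simp
    have h3 : 0 ≤ K0 * (q ^ j * (1 / 243 : ℝ) ^ j) := by positivity
    calc (4 : ℝ) = 4 / (q ^ J₀ * (1 / 243 : ℝ) ^ J₀) * (q ^ J₀ * (1 / 243) ^ J₀) := h2
      _ ≤ 4 / (q ^ J₀ * (1 / 243 : ℝ) ^ J₀) * (q ^ j * (1 / 243) ^ j) :=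
          mul_le_mul_of_nonneg_left h1 (by positivity)
      _ ≤ K0 * (q ^ j * (1 / 243) ^ j) +
          4 / (q ^ J₀ * (1 / 243 : ℝ) ^ J₀) * (q ^ j * (1 / 243) ^ j) := by linarith
      _ = (K0 + 4 / (q ^ J₀ * (1 / 243) ^ J₀)) * q ^ j * (1 / 243) ^ j := by ring

end Pool.Agent.Lib.H59Q
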