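import Pool.Agent.Lib.H59Q.F4
import Pool.Agent.Lib.H59Q.F5
import Pool.Agent.Lib.H59Q.F8a

/-!
# F8: the uniform pair bound for non-exceptional slopes

PROOF of `shell_bound`.  `u ∉ Exc`: there are `δ > 0`, `J₀` with `u ∉ Eset δ j` for all `j ≥ J₀`, i.e.
`nbad u ξ j > δ j` for all `ξ ∈ (2/243, 2]`.  With `q₁ = (1 - 4/486²)^δ < 1`, F5 gives
`P1 u j ξ ≤ q₁^j` for these `ξ`, and for `-ξ` by evenness (`P1_neg`).  Choose `ε > 0` with
`243^ε = q₁^{-1/2}` and `q = q₁^{1/2}`.  `P u (5j) = P1 P2` (`P_five`), so the integral over the shell is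
`≤ q₁^j ∫_{[-2,2]} P2 u j ≤ q₁^j K 243^{(ε-1)j} = K q^j 243^{-j}` for `j ≥ J₀` (F4); for `j < J₀` it is
`≤ 4`, so enlarge `K`.

PROOF of `int_P_le`.  `a_J := ∫_{[-2,2]} P u (5J)`.  On `|ξ| ≤ 2/243`, `P u (5(J+1)) ξ = P u 5 ξ *
P u (5J) (243 ξ) ≤ P u (5J) (243 ξ)` (`P_add`, `3^5 = 243`), whose integral over `|ξ| ≤ 2/243` is
`a_J / 243` (`integral_comp_mul_left`).  So `a_{J+1} ≤ K (q/243)^{J+1} + a_J/243`; with
`b_J = 243^J a_J`: `b_{J+1} ≤ b_J + K q^{J+1}`, `b_0 ≤ 4`, so `b_J ≤ 4 + K / (1 - q)`.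

PROOF of `pairG_bound`.  `window_upper` with `s = C n × C n` (`n = 5J`), `norm_sq_expsum_C`:
`pairG ≤ 2 * 16^n ∫_{[-2,2]} P u n ≤ 2 * 16^{5J} K' 243^{-J} = 2 K' (16/3)^{5J}`.
-/

namespace Pool.Agent.Lib.H59Q

open MeasureTheory Set

private theorem F8b_int_on {u : ℝ} {n : ℕ} {S : Set ℝ} (hS : S ⊆ Icc (-2) 2) :
    IntegrableOn (P u n) S := by
  have h1 : IntegrableOn (P u n) (Icc (-2) 2) :=
    (P_cont u n).continuousOn.integrableOn_compact isCompact_Icc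
  exact h1.mono_set hS

private theorem F8b_step {u K q : ℝ}
    (h : ∀ j : ℕ, ∫ ξ in {ξ : ℝ | 2 / 243 < |ξ| ∧ |ξ| ≤ 2}, P u (5 * j) ξ ≤
      K * q ^ j * (1 / 243) ^ j) (J : ℕ) :
    ∫ ξ in Icc (-2 : ℝ) 2, P u (5 * (J + 1)) ξ ≤
      K * q ^ (J + 1) * (1 / 243) ^ (J + 1) +
        (1 / 243) * ∫ ξ in Icc (-2 : ℝ) 2, P u (5 * J) ξ := by
  have hset : Icc (-2 : ℝ) 2 = {ξ : ℝ | 2 / 243 < |ξ| ∧ |ξ| ≤ 2} ∪ Icc (-(2 / 243)) (2 / 243) := by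
    ext ξ
    simp only [mem_Icc, mem_union, mem_ofPred_eq]
    rw [← abs_le, ← abs_le]
    constructor
    · intro hx
      rcases lt_or_ge (2 / 243 : ℝ) |ξ| with h1 | h1
      · exact Or.inl ⟨h1, hx⟩
      · exact Or.inr h1
    · rintro (h1 | h1)
      · exact h1.2
      · exact h1.trans (by norm_num)
  have hdisj : Disjoint {ξ : ℝ | 2 / 243 < |ξ| ∧ |ξ| ≤ 2} (Icc (-(2 / 243)) (2 / 243)) := by
    rw [Set.disjoint_left]
    intro ξ h1 h2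
    rw [mem_Icc, ← abs_le] at h2
    exact absurd h1.1 (not_lt.mpr h2)
  have hsub1 : {ξ : ℝ | 2 / 243 < |ξ| ∧ |ξ| ≤ 2} ⊆ Icc (-2 : ℝ) 2 := by
    intro ξ h1
    rw [mem_Icc, ← abs_le]
    exact h1.2
  have hsub2 : Icc (-(2 / 243 : ℝ)) (2 / 243) ⊆ Icc (-2 : ℝ) 2 :=
    Icc_subset_Icc (by norm_num) (by norm_num)
  have hsplit : ∫ ξ in Icc (-2 : ℝ) 2, P u (5 * (J + 1)) ξ =
      (∫ ξ in {ξ : ℝ | 2 / 243 < |ξ| ∧ |ξ| ≤ 2}, P u (5 * (J + 1)) ξ) +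
        ∫ ξ in Icc (-(2 / 243) : ℝ) (2 / 243), P u (5 * (J + 1)) ξ := by
    rw [hset]
    exact setIntegral_union hdisj measurableSet_Icc (F8b_int_on hsub1) (F8b_int_on hsub2)
  rw [hsplit]
  refine add_le_add (h (J + 1)) ?_
  have hpt : ∀ ξ : ℝ, P u (5 * (J + 1)) ξ ≤ P u (5 * J) (243 * ξ) := by
    intro ξ
    have e : 5 * (J + 1) = 5 + 5 * J := by ring
    rw [e, P_add]
    have e2 : (3 : ℝ) ^ 5 * ξ = 243 * ξ := by norm_num
    rw [e2]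
    calc P u 5 ξ * P u (5 * J) (243 * ξ) ≤ 1 * P u (5 * J) (243 * ξ) :=
          mul_le_mul_of_nonneg_right (P_le_one u 5 ξ) (P_nonneg u _ _)
      _ = P u (5 * J) (243 * ξ) := one_mul _
  have hcont : Continuous (fun ξ : ℝ => P u (5 * J) (243 * ξ)) :=
    (P_cont u (5 * J)).comp (continuous_const.mul continuous_id)
  have h1 : ∫ ξ in Icc (-(2 / 243) : ℝ) (2 / 243), P u (5 * (J + 1)) ξ ≤
      ∫ ξ in Icc (-(2 / 243) : ℝ) (2 / 243), P u (5 * J) (243 * ξ) :=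
    setIntegral_mono (F8b_int_on hsub2)
      (hcont.continuousOn.integrableOn_compact isCompact_Icc) hpt
  refine h1.trans (le_of_eq ?_)
  rw [integral_Icc_eq_integral_Ioc, integral_Icc_eq_integral_Ioc,
    ← intervalIntegral.integral_of_le (by norm_num : (-(2 / 243) : ℝ) ≤ 2 / 243),
    ← intervalIntegral.integral_of_le (by norm_num : (-2 : ℝ) ≤ 2)]
  rw [intervalIntegral.integral_comp_mul_left (fun x => P u (5 * J) x)
    (by norm_num : (243 : ℝ) ≠ 0)]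
  have e3 : (243 : ℝ) * -(2 / 243) = -2 := by norm_num
  have e4 : (243 : ℝ) * (2 / 243) = 2 := by norm_num
  rw [e3, e4, smul_eq_mul]
  norm_num

theorem int_P_le {u K q : ℝ} (hK : 0 < K) (hq0 : 0 < q) (hq1 : q < 1)
    (h : ∀ j : ℕ, ∫ ξ in {ξ : ℝ | 2 / 243 < |ξ| ∧ |ξ| ≤ 2}, P u (5 * j) ξ ≤
      K * q ^ j * (1 / 243) ^ j) :
    ∀ J : ℕ, ∫ ξ in Icc (-2 : ℝ) 2, P u (5 * J) ξ ≤ (4 + K / (1 - q)) * (1 / 243) ^ J := by
  have hstep : ∀ J : ℕ, ∫ ξ in Icc (-2 : ℝ) 2, P u (5 * (J + 1)) ξ ≤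
      K * q ^ (J + 1) * (1 / 243) ^ (J + 1) +
        (1 / 243) * ∫ ξ in Icc (-2 : ℝ) 2, P u (5 * J) ξ := F8b_step h
  have hb : ∀ J : ℕ, ∫ ξ in Icc (-2 : ℝ) 2, P u (5 * J) ξ ≤
      (4 + K * ∑ i ∈ Finset.range J, q ^ (i + 1)) * (1 / 243) ^ J := by
    intro J
    induction J with
    | zero =>
      have h0 : ∀ ξ : ℝ, P u (5 * 0) ξ = 1 := by
        intro ξ
        simp [P]
      simp only [h0]
      simp
      norm_num
    | succ J ih =>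
      refine (hstep J).trans ?_
      have e1 : (1 / 243 : ℝ) * ∫ ξ in Icc (-2 : ℝ) 2, P u (5 * J) ξ ≤
          (1 / 243) * ((4 + K * ∑ i ∈ Finset.range J, q ^ (i + 1)) * (1 / 243) ^ J) :=
        mul_le_mul_of_nonneg_left ih (by norm_num)
      refine (add_le_add_right e1 _).trans (le_of_eq ?_)
      rw [Finset.sum_range_succ]
      ring
  intro J
  refine (hb J).trans ?_
  refine mul_le_mul_of_nonneg_right ?_ (by positivity)
  have h1q : 0 < 1 - q := by linarith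
  have hs : ∑ i ∈ Finset.range J, q ^ (i + 1) ≤ 1 / (1 - q) := by
    have h2 : ∀ n : ℕ, (∑ i ∈ Finset.range n, q ^ (i + 1)) * (1 - q) = q - q ^ (n + 1) := by
      intro n
      induction n with
      | zero => simp
      | succ n ih =>
        rw [Finset.sum_range_succ, add_mul, ih]
        ring
    rw [le_div_iff₀ h1q, h2 J]
    have : 0 ≤ q ^ (J + 1) := by positivity
    linarith
  have h3 := mul_le_mul_of_nonneg_left hs hK.le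
  have h4 : K * (1 / (1 - q)) = K / (1 - q) := by ring
  linarith

theorem pairG_bound (hU : UpperGrowth) {u : ℝ} (hu : u ∈ Icc (1 / 3 : ℝ) 3) (hirr : Irrational u)
    (hexc : u ∉ Exc) :
    ∃ K : ℝ, 0 < K ∧ ∀ J : ℕ, pairG 3 {0, 2} u (5 * J) ≤ K * (16 / 3) ^ (5 * J) := by
  obtain ⟨K, q, hK, hq0, hq1, h⟩ := shell_bound hU hu hirr hexc
  have hP := int_P_le hK hq0 hq1 h
  have h1q : 0 < 1 - q := by linarith
  refine ⟨2 * (4 + K / (1 - q)), by positivity, fun J => ?_⟩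
  have hw := window_upper (Cd 3 {0, 2} (5 * J) ×ˢ Cd 3 {0, 2} (5 * J))
    (fun p : ℕ × ℕ => (p.2 : ℝ) + u * (p.1 : ℝ))
  have h1 : pairG 3 {0, 2} u (5 * J) ≤
      2 * ∫ ξ in Icc (-2 : ℝ) 2, ‖expsum 3 {0, 2} u (5 * J) ξ‖ ^ 2 := hw
  refine h1.trans ?_
  simp only [norm_sq_expsum_C]
  rw [integral_const_mul]
  have h2 := mul_le_mul_of_nonneg_left (hP J) (by positivity : (0 : ℝ) ≤ 16 ^ (5 * J))
  have e : (16 : ℝ) ^ (5 * J) * (1 / 243) ^ J = (16 / 3) ^ (5 * J) := by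
    rw [pow_mul, pow_mul, ← mul_pow]
    norm_num
  calc 2 * ((16 : ℝ) ^ (5 * J) * ∫ ξ in Icc (-2 : ℝ) 2, P u (5 * J) ξ)
      ≤ 2 * ((16 : ℝ) ^ (5 * J) * ((4 + K / (1 - q)) * (1 / 243) ^ J)) := by linarith
    _ = 2 * (4 + K / (1 - q)) * ((16 : ℝ) ^ (5 * J) * (1 / 243) ^ J) := by ring
    _ = 2 * (4 + K / (1 - q)) * (16 / 3) ^ (5 * J) := by rw [e]

end Pool.Agent.Lib.H59Q
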