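import Pool.Agent.Lib.H59Q.CdBasic

/-!
# H0: elementary properties of `cnt` and `fn`

`cnt u G n x = #{(i, j) ∈ C n × C n : 3^n x - j - u i ∈ G}`.

PROOFS.
* `cnt_split` (descendants of descendants): words of length `m + n` are pairs of a word `p` of length `m`
  and a word `q` of length `n` (`sum_Cd_add` with `B = 3`, `A = {0,2}` for both coordinates): with
  `i = 3^n p.1 + q.1`, `j = 3^n p.2 + q.2`,
  `3^(m+n) x - j - u i = 3^n (3^m x - p.2 - u p.1) - q.2 - u q.1`.  Write `cnt` as a sum of indicators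
  (`Finset.card_filter`).
* `fn_succ`: `cnt_split` with `m = 1`, `C 1 = {0, 2}`.
* `fn_supp` (`0 ≤ u`): all `j, i ≤ 3^n - 1` (`Cd_lt`), `j + u i ∈ [0, (1+u)(3^n - 1)]`, and
  `3^n x - (j + u i) ∈ [0, 1+u]` gives `x ∈ [0, 1+u]`.
* `fn_integral` (`0 ≤ u`): `∫ cnt = Σ_w ∫ 1[3^n x - D_w ∈ [0,1+u]] = 4^n * 3^{-n} (1+u)`.
* `cnt_meas`: finite sum of indicators of measurable sets.
-/

namespace Pool.Agent.Lib.H59Q

open MeasureTheory Set

open Classical in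
theorem cnt_eq_sum (u : ℝ) (G : Set ℝ) (n : ℕ) (x : ℝ) :
    cnt u G n x = ∑ p ∈ C n ×ˢ C n, if (3 : ℝ) ^ n * x - p.2 - u * p.1 ∈ G then 1 else 0 := by
  unfold cnt
  rw [Finset.card_filter]

theorem cnt_split (u : ℝ) (G : Set ℝ) (m n : ℕ) (x : ℝ) :
    cnt u G (m + n) x = ∑ p ∈ C m ×ˢ C m, cnt u G n ((3 : ℝ) ^ m * x - p.2 - u * p.1) := by
  classical
  rw [cnt_eq_sum, Finset.sum_product, Finset.sum_product]
  have h1 : ∀ f : ℕ → ℕ, ∑ a ∈ C (m + n), f a = ∑ x ∈ C m, ∑ y ∈ C n, f (3 ^ n * x + y) :=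
    fun f => sum_Cd_add C_digits m n f
  rw [h1]
  refine Finset.sum_congr rfl fun i _ => ?_
  have h2 : ∀ q1 ∈ C n, ∑ j ∈ C (m + n),
      (if (3 : ℝ) ^ (m + n) * x - (j : ℕ) - u * ((3 ^ n * i + q1 : ℕ) : ℝ) ∈ G then 1 else 0 : ℕ) =
      ∑ j ∈ C m, ∑ q2 ∈ C n,
        (if (3 : ℝ) ^ n * ((3 : ℝ) ^ m * x - j - u * i) - q2 - u * q1 ∈ G then 1 else 0 : ℕ) := by
    intro q1 _
    rw [h1]
    refine Finset.sum_congr rfl fun j _ => Finset.sum_congr rfl fun q2 _ => ?_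
    have e : (3 : ℝ) ^ (m + n) * x - ((3 ^ n * j + q2 : ℕ) : ℝ) - u * ((3 ^ n * i + q1 : ℕ) : ℝ) =
        (3 : ℝ) ^ n * ((3 : ℝ) ^ m * x - j - u * i) - q2 - u * q1 := by
      push_cast
      ring
    rw [e]
  rw [Finset.sum_congr rfl h2, Finset.sum_comm]
  refine Finset.sum_congr rfl fun j _ => ?_
  rw [cnt_eq_sum, Finset.sum_product]

theorem cnt_meas (u : ℝ) {G : Set ℝ} (hG : MeasurableSet G) (n : ℕ) :
    Measurable (fun x => (cnt u G n x : ℝ)) := by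
  classical
  have h : (fun x => (cnt u G n x : ℝ)) = fun x => ∑ p ∈ C n ×ˢ C n,
      if (3 : ℝ) ^ n * x - p.2 - u * p.1 ∈ G then (1 : ℝ) else 0 := by
    funext x
    rw [cnt_eq_sum]
    push_cast
    rfl
  rw [h]
  refine Finset.measurable_sum _ fun p _ => ?_
  refine Measurable.ite ?_ measurable_const measurable_const
  have hm : Measurable (fun x : ℝ => (3 : ℝ) ^ n * x - p.2 - u * p.1) := by fun_prop
  exact hm hG

theorem cnt_le (u : ℝ) (G : Set ℝ) (n : ℕ) (x : ℝ) : cnt u G n x ≤ 4 ^ n := by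
  classical
  unfold cnt
  refine (Finset.card_filter_le _ _).trans ?_
  rw [Finset.card_product, card_C, ← mul_pow]
  norm_num

theorem fn_nonneg (u : ℝ) (n : ℕ) (x : ℝ) : 0 ≤ fn u n x := by
  unfold fn
  positivity

theorem fn_meas (u : ℝ) (n : ℕ) : Measurable (fn u n) := by
  have h := (cnt_meas u (measurableSet_Icc (a := (0 : ℝ)) (b := 1 + u)) n).const_mul ((3 / 4 : ℝ) ^ n)
  exact h

theorem fn_le (u : ℝ) (n : ℕ) (x : ℝ) : fn u n x ≤ 3 ^ n := by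
  unfold fn
  have h : (cnt u (Icc 0 (1 + u)) n x : ℝ) ≤ 4 ^ n := by
    exact_mod_cast cnt_le u (Icc 0 (1 + u)) n x
  calc (3 / 4 : ℝ) ^ n * (cnt u (Icc 0 (1 + u)) n x : ℝ) ≤ (3 / 4) ^ n * 4 ^ n :=
        mul_le_mul_of_nonneg_left h (by positivity)
    _ = 3 ^ n := by
        rw [← mul_pow]
        norm_num

private theorem H0_lt {n a : ℕ} (ha : a ∈ C n) : (a : ℝ) + 1 ≤ 3 ^ n := by
  have h : a < 3 ^ n := Cd_lt C_digits ha
  exact_mod_cast h

theorem fn_supp {u : ℝ} (hu : 0 ≤ u) {n : ℕ} {x : ℝ} (hx : x ∉ Icc 0 (1 + u)) : fn u n x = 0 := by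
  classical
  unfold fn
  have h0 : cnt u (Icc 0 (1 + u)) n x = 0 := by
    rw [cnt_eq_sum]
    apply Finset.sum_eq_zero
    intro p hp
    rw [Finset.mem_product] at hp
    rw [if_neg]
    intro hmem
    apply hx
    obtain ⟨h1, h2⟩ := hmem
    have h3 := H0_lt hp.1
    have h4 := H0_lt hp.2
    have h5 : (0 : ℝ) ≤ p.1 := Nat.cast_nonneg _
    have h6 : (0 : ℝ) ≤ p.2 := Nat.cast_nonneg _
    have h7 : (0 : ℝ) < 3 ^ n := by positivity
    have h8 : (0 : ℝ) ≤ u * p.1 := mul_nonneg hu h5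
    constructor
    · have h9 : 0 ≤ (3 : ℝ) ^ n * x := by linarith
      exact nonneg_of_mul_nonneg_right h9 h7
    · have h9 : u * (p.1 : ℝ) ≤ u * (3 ^ n - 1) := mul_le_mul_of_nonneg_left (by linarith) hu
      have h10 : (3 : ℝ) ^ n * x ≤ 3 ^ n * (1 + u) := by nlinarith
      exact le_of_mul_le_mul_left h10 h7
  rw [h0]
  simp

private theorem H0_ind (u : ℝ) (n : ℕ) (p : ℕ × ℕ) (x : ℝ) [Decidable ((3 : ℝ) ^ n * x - p.2 - u * p.1 ∈ Icc 0 (1 + u))] :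
    (if (3 : ℝ) ^ n * x - p.2 - u * p.1 ∈ Icc 0 (1 + u) then (1 : ℝ) else 0) =
      (Icc ((p.2 + u * p.1) / 3 ^ n) ((p.2 + u * p.1 + (1 + u)) / 3 ^ n)).indicator
        (1 : ℝ → ℝ) x := by
  have h7 : (0 : ℝ) < 3 ^ n := by positivity
  have hiff : (3 : ℝ) ^ n * x - p.2 - u * p.1 ∈ Icc 0 (1 + u) ↔
      x ∈ Icc (((p.2 : ℝ) + u * p.1) / 3 ^ n) ((p.2 + u * p.1 + (1 + u)) / 3 ^ n) := by
    rw [mem_Icc, mem_Icc, div_le_iff₀ h7, le_div_iff₀ h7]
    constructor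
    · rintro ⟨h1, h2⟩
      constructor <;> linarith
    · rintro ⟨h1, h2⟩
      constructor <;> linarith
  by_cases h : (3 : ℝ) ^ n * x - p.2 - u * p.1 ∈ Icc 0 (1 + u)
  · rw [if_pos h, indicator_of_mem (hiff.1 h)]
    rfl
  · rw [if_neg h, indicator_of_notMem (fun h' => h (hiff.2 h'))]

theorem fn_integral {u : ℝ} (hu : 0 ≤ u) (n : ℕ) : ∫ x, fn u n x = 1 + u := by
  classical
  have h7 : (0 : ℝ) < 3 ^ n := by positivity
  have h : fn u n = fun x => (3 / 4 : ℝ) ^ n * ∑ p ∈ C n ×ˢ C n,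
      (Icc (((p.2 : ℝ) + u * p.1) / 3 ^ n) ((p.2 + u * p.1 + (1 + u)) / 3 ^ n)).indicator
        (1 : ℝ → ℝ) x := by
    funext x
    unfold fn
    rw [cnt_eq_sum]
    push_cast
    congr 1
    exact Finset.sum_congr rfl fun p _ => H0_ind u n p x
  rw [h, integral_const_mul, integral_finsetSum]
  · have h1 : ∀ p ∈ C n ×ˢ C n, ∫ x,
        (Icc (((p.2 : ℝ) + u * p.1) / 3 ^ n) ((p.2 + u * p.1 + (1 + u)) / 3 ^ n)).indicator
        (1 : ℝ → ℝ) x = (1 + u) / 3 ^ n := by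
      intro p _
      rw [integral_indicator_one measurableSet_Icc, Real.volume_real_Icc_of_le]
      · ring
      · apply div_le_div_of_nonneg_right _ h7.le
        linarith
    rw [Finset.sum_congr rfl h1, Finset.sum_const, Finset.card_product, card_C, nsmul_eq_mul]
    push_cast
    rw [← mul_pow]
    have e : (3 / 4 : ℝ) ^ n * (2 * 2) ^ n = 3 ^ n := by
      rw [← mul_pow]
      norm_num
    rw [← mul_assoc, e, mul_div_cancel₀ _ h7.ne']
  · intro p _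
    rw [integrable_indicator_iff measurableSet_Icc]
    exact integrableOn_const (by simp)

theorem fn_succ (u : ℝ) (n : ℕ) (x : ℝ) :
    fn u (n + 1) x = 3 / 4 *
      (fn u n (3 * x) + fn u n (3 * x - 2) + fn u n (3 * x - 2 * u) + fn u n (3 * x - 2 - 2 * u)) := by
  unfold fn
  have h1 : C 1 = {0, 2} := Cd_one
  have h := cnt_split u (Icc 0 (1 + u)) 1 n x
  rw [Nat.add_comm 1 n, h1, Finset.sum_product, Finset.sum_pair (by norm_num),
    Finset.sum_pair (by norm_num), Finset.sum_pair (by norm_num)] at h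
  rw [h]
  push_cast
  have e1 : (3 : ℝ) ^ 1 * x - 0 - u * 0 = 3 * x := by ring
  have e2 : (3 : ℝ) ^ 1 * x - 2 - u * 0 = 3 * x - 2 := by ring
  have e3 : (3 : ℝ) ^ 1 * x - 0 - u * 2 = 3 * x - 2 * u := by ring
  have e4 : (3 : ℝ) ^ 1 * x - 2 - u * 2 = 3 * x - 2 - 2 * u := by ring
  rw [e1, e2, e3, e4]
  ring

end Pool.Agent.Lib.H59Q
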