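import Pool.Agent.Lib.H59Q.H0

/-!
# H1: uniform `L²` bound for `fn` from the pair bound

PROOF of `fn_sq_le`.  `I = [0, 1+u]`, `D_p = p.2 + u p.1`.  `cnt(x)² = Σ_{p,q} 1[3^n x - D_p ∈ I] 1[3^n x - D_q ∈ I]`;
both indicators nonzero forces `|D_p - D_q| ≤ 1 + u ≤ 4`, and the integral of the product is
`≤ ∫ 1[3^n x - D_p ∈ I] dx = 3^{-n} (1 + u) ≤ 4 * 3^{-n}`.  So
`∫ fn² ≤ (9/16)^n * 4 * 3^{-n} * #{(p,q) : |D_p - D_q| ≤ 4}` and
`#{|D_p - D_q| ≤ 4} ≤ e^4 Σ_{p,q} exp(-(D_p - D_q)²/4) = e^4 pairG ≤ 55 pairG` (`e^4 < 54.6`).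
Total: `∫ fn² ≤ 220 (3/16)^n pairG`.

PROOF of `fn_sq_succ`: by `fn_succ` and Cauchy-Schwarz for four terms
(`(a+b+c+d)² ≤ 4(a²+b²+c²+d²)`): `∫ fn(n+1)² ≤ (9/16) * 4 * 4 * (1/3) ∫ fn(n)² = 3 ∫ fn(n)²`
(`integral_comp_mul_left`, translation invariance; all functions are bounded with compact support).

PROOF of `fn_L2`: `n = 5J + r`, `r < 5`: `∫ fn(n)² ≤ 3^r * 220 K ≤ 81 * 220 K`.
-/

namespace Pool.Agent.Lib.H59Q

open MeasureTheory Set

private noncomputable def h1_g (u : ℝ) (n : ℕ) (p : ℕ × ℕ) (x : ℝ) : ℝ :=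
  (Icc (0 : ℝ) (1 + u)).indicator (fun _ => (1 : ℝ)) ((3 : ℝ) ^ n * x - ((p.2 : ℝ) + u * p.1))

private theorem h1_cnt (u : ℝ) (n : ℕ) (x : ℝ) :
    (cnt u (Icc 0 (1 + u)) n x : ℝ) = ∑ p ∈ C n ×ˢ C n, h1_g u n p x := by
  classical
  rw [cnt_eq_sum]
  push_cast
  refine Finset.sum_congr rfl fun p _ => ?_
  unfold h1_g
  rw [Set.indicator_apply]
  have e : (3 : ℝ) ^ n * x - p.2 - u * p.1 = (3 : ℝ) ^ n * x - ((p.2 : ℝ) + u * p.1) := by ring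
  rw [e]

private theorem h1_g_nonneg (u : ℝ) (n : ℕ) (p : ℕ × ℕ) (x : ℝ) : 0 ≤ h1_g u n p x :=
  Set.indicator_nonneg (fun _ _ => zero_le_one) _

private theorem h1_base_int (u : ℝ) :
    Integrable ((Icc (0 : ℝ) (1 + u)).indicator (fun _ => (1 : ℝ))) := by
  rw [integrable_indicator_iff measurableSet_Icc]
  exact integrableOn_const (by simp) (by simp)

private theorem h1_g_int (u : ℝ) (n : ℕ) (p : ℕ × ℕ) : Integrable (h1_g u n p) := by
  have h3 : ((3 : ℝ) ^ n) ≠ 0 := by positivity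
  exact ((h1_base_int u).comp_sub_right ((p.2 : ℝ) + u * p.1)).comp_mul_left' h3

private theorem h1_g_integral {u : ℝ} (hu : 0 ≤ 1 + u) (n : ℕ) (p : ℕ × ℕ) :
    ∫ x, h1_g u n p x = (1 / 3) ^ n * (1 + u) := by
  have h3 : (0 : ℝ) < (3 : ℝ) ^ n := by positivity
  have e1 : ∫ x, h1_g u n p x = |((3 : ℝ) ^ n)⁻¹| • ∫ y,
      (Icc (0 : ℝ) (1 + u)).indicator (fun _ => (1 : ℝ)) (y - ((p.2 : ℝ) + u * p.1)) :=
    Measure.integral_comp_mul_left
      (fun y => (Icc (0 : ℝ) (1 + u)).indicator (fun _ => (1 : ℝ)) (y - ((p.2 : ℝ) + u * p.1))) _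
  rw [e1, integral_sub_right_eq_self, integral_indicator measurableSet_Icc, setIntegral_const,
    Measure.real, Real.volume_Icc, ENNReal.toReal_ofReal (by linarith), abs_of_pos (inv_pos.mpr h3)]
  simp only [smul_eq_mul, mul_one, sub_zero, one_div, inv_pow]

private theorem h1_exp : (1 : ℝ) / 55 ≤ Real.exp (-4) := by
  have h1 : Real.exp 1 < 2.7182818286 := Real.exp_one_lt_d9
  have h2 : Real.exp 4 = Real.exp 1 ^ 4 := by
    rw [← Real.exp_nat_mul]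
    norm_num
  have h3 : Real.exp 4 ≤ 55 := by
    rw [h2]
    calc Real.exp 1 ^ 4 ≤ 2.7182818286 ^ 4 :=
          pow_le_pow_left₀ (Real.exp_pos 1).le h1.le 4
      _ ≤ 55 := by norm_num
  rw [Real.exp_neg, one_div]
  exact inv_anti₀ (Real.exp_pos 4) h3

private theorem h1_pair {u : ℝ} (hu : u ∈ Icc (1 / 3 : ℝ) 3) (n : ℕ) (p q : ℕ × ℕ) (x : ℝ) :
    h1_g u n p x * h1_g u n q x ≤
      55 * Real.exp (-(((p.2 : ℝ) + u * p.1) - ((q.2 : ℝ) + u * q.1)) ^ 2 / 4) *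
        h1_g u n p x := by
  have hE : 0 < Real.exp (-(((p.2 : ℝ) + u * p.1) - ((q.2 : ℝ) + u * q.1)) ^ 2 / 4) :=
    Real.exp_pos _
  by_cases hp : (3 : ℝ) ^ n * x - ((p.2 : ℝ) + u * p.1) ∈ Icc (0 : ℝ) (1 + u)
  · have h1 : h1_g u n p x = 1 := by
      unfold h1_g
      rw [Set.indicator_of_mem hp]
    by_cases hq : (3 : ℝ) ^ n * x - ((q.2 : ℝ) + u * q.1) ∈ Icc (0 : ℝ) (1 + u)
    · have h2 : h1_g u n q x = 1 := by
        unfold h1_g
        rw [Set.indicator_of_mem hq]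
      rw [h1, h2, mul_one, mul_one]
      have hd : (((p.2 : ℝ) + u * p.1) - ((q.2 : ℝ) + u * q.1)) ^ 2 ≤ 16 := by
        have hu2 := hu.2
        obtain ⟨a1, a2⟩ := hp
        obtain ⟨b1, b2⟩ := hq
        have c1 : ((p.2 : ℝ) + u * p.1) - ((q.2 : ℝ) + u * q.1) ≤ 4 := by linarith
        have c2 : -4 ≤ ((p.2 : ℝ) + u * p.1) - ((q.2 : ℝ) + u * q.1) := by linarith
        nlinarith
      have h3 : Real.exp (-4) ≤
          Real.exp (-(((p.2 : ℝ) + u * p.1) - ((q.2 : ℝ) + u * q.1)) ^ 2 / 4) := by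
        apply Real.exp_le_exp.mpr
        linarith
      have := h1_exp
      linarith
    · have h2 : h1_g u n q x = 0 := by
        unfold h1_g
        rw [Set.indicator_of_notMem hq]
      rw [h2, mul_zero, h1]
      positivity
  · have h1 : h1_g u n p x = 0 := by
      unfold h1_g
      rw [Set.indicator_of_notMem hp]
    rw [h1, zero_mul, mul_zero]

theorem fn_sq_le {u : ℝ} (hu : u ∈ Icc (1 / 3 : ℝ) 3) (n : ℕ) :
    ∫ x, (fn u n x) ^ 2 ≤ 220 * ((3 / 16) ^ n * pairG 3 {0, 2} u n) := by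
  have hu1 := hu.1
  have hu2 := hu.2
  have hpt : ∀ x : ℝ, (fn u n x) ^ 2 ≤ ∑ p ∈ C n ×ˢ C n, ∑ q ∈ C n ×ˢ C n,
      (3 / 4 : ℝ) ^ n * (3 / 4) ^ n *
        (55 * Real.exp (-(((p.2 : ℝ) + u * p.1) - ((q.2 : ℝ) + u * q.1)) ^ 2 / 4) *
          h1_g u n p x) := by
    intro x
    have e : (fn u n x) ^ 2 = ∑ p ∈ C n ×ˢ C n, ∑ q ∈ C n ×ˢ C n,
        (3 / 4 : ℝ) ^ n * (3 / 4) ^ n * (h1_g u n p x * h1_g u n q x) := by
      unfold fn
      rw [h1_cnt, mul_pow, sq (∑ p ∈ C n ×ˢ C n, h1_g u n p x), Finset.sum_mul_sum, sq,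
        Finset.mul_sum]
      refine Finset.sum_congr rfl fun p _ => ?_
      rw [Finset.mul_sum]
    rw [e]
    refine Finset.sum_le_sum fun p _ => Finset.sum_le_sum fun q _ => ?_
    exact mul_le_mul_of_nonneg_left (h1_pair hu n p q x) (by positivity)
  have hint : ∀ p ∈ C n ×ˢ C n, ∀ q ∈ C n ×ˢ C n, Integrable (fun x : ℝ =>
      (3 / 4 : ℝ) ^ n * (3 / 4) ^ n *
        (55 * Real.exp (-(((p.2 : ℝ) + u * p.1) - ((q.2 : ℝ) + u * q.1)) ^ 2 / 4) *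
          h1_g u n p x)) := fun p _ q _ =>
    ((h1_g_int u n p).const_mul _).const_mul _
  have hmono : ∫ x, (fn u n x) ^ 2 ≤ ∫ x, ∑ p ∈ C n ×ˢ C n, ∑ q ∈ C n ×ˢ C n,
      (3 / 4 : ℝ) ^ n * (3 / 4) ^ n *
        (55 * Real.exp (-(((p.2 : ℝ) + u * p.1) - ((q.2 : ℝ) + u * q.1)) ^ 2 / 4) *
          h1_g u n p x) := by
    refine integral_mono_of_nonneg (Filter.Eventually.of_forall fun x => sq_nonneg _) ?_
      (Filter.Eventually.of_forall hpt)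
    exact integrable_finsetSum _ fun p hp => integrable_finsetSum _ fun q hq => hint p hp q hq
  refine hmono.trans ?_
  rw [integral_finsetSum _ fun p hp => integrable_finsetSum _ fun q hq => hint p hp q hq]
  have hterm : ∀ p ∈ C n ×ˢ C n, ∫ x, ∑ q ∈ C n ×ˢ C n,
      (3 / 4 : ℝ) ^ n * (3 / 4) ^ n *
        (55 * Real.exp (-(((p.2 : ℝ) + u * p.1) - ((q.2 : ℝ) + u * q.1)) ^ 2 / 4) *
          h1_g u n p x) ≤ ∑ q ∈ C n ×ˢ C n, 220 * ((3 / 16) ^ n *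
          Real.exp (-(((p.2 : ℝ) + u * p.1) - ((q.2 : ℝ) + u * q.1)) ^ 2 / 4)) := by
    intro p hp
    rw [integral_finsetSum _ fun q hq => hint p hp q hq]
    refine Finset.sum_le_sum fun q _ => ?_
    rw [integral_const_mul, integral_const_mul, h1_g_integral (by linarith)]
    have e2 : (3 / 4 : ℝ) ^ n * (3 / 4) ^ n * (1 / 3) ^ n = (3 / 16) ^ n := by
      rw [← mul_pow, ← mul_pow]
      norm_num
    have hE : 0 < Real.exp (-(((p.2 : ℝ) + u * p.1) - ((q.2 : ℝ) + u * q.1)) ^ 2 / 4) :=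
      Real.exp_pos _
    have hA : 0 ≤ (3 / 16 : ℝ) ^ n *
        Real.exp (-(((p.2 : ℝ) + u * p.1) - ((q.2 : ℝ) + u * q.1)) ^ 2 / 4) := by positivity
    calc (3 / 4 : ℝ) ^ n * (3 / 4) ^ n *
        (55 * Real.exp (-(((p.2 : ℝ) + u * p.1) - ((q.2 : ℝ) + u * q.1)) ^ 2 / 4) *
          ((1 / 3) ^ n * (1 + u)))
        = 55 * (1 + u) * (((3 / 4 : ℝ) ^ n * (3 / 4) ^ n * (1 / 3) ^ n) *
          Real.exp (-(((p.2 : ℝ) + u * p.1) - ((q.2 : ℝ) + u * q.1)) ^ 2 / 4)) := by ring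
      _ = 55 * (1 + u) * ((3 / 16) ^ n *
          Real.exp (-(((p.2 : ℝ) + u * p.1) - ((q.2 : ℝ) + u * q.1)) ^ 2 / 4)) := by rw [e2]
      _ ≤ 220 * ((3 / 16) ^ n *
          Real.exp (-(((p.2 : ℝ) + u * p.1) - ((q.2 : ℝ) + u * q.1)) ^ 2 / 4)) :=
          mul_le_mul_of_nonneg_right (by linarith) hA
  refine (Finset.sum_le_sum hterm).trans (le_of_eq ?_)
  unfold pairG
  change ∑ p ∈ C n ×ˢ C n, ∑ q ∈ C n ×ˢ C n, _ = 220 * ((3 / 16) ^ n *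
    ∑ p ∈ C n ×ˢ C n, ∑ q ∈ C n ×ˢ C n, _)
  rw [Finset.mul_sum, Finset.mul_sum]
  refine Finset.sum_congr rfl fun p _ => ?_
  rw [Finset.mul_sum, Finset.mul_sum]

private theorem h1_sq_int {u : ℝ} (hu : 0 ≤ u) (n : ℕ) :
    Integrable (fun x => (fn u n x) ^ 2) := by
  have hs : Function.support (fun x => (fn u n x) ^ 2) ⊆ Icc 0 (1 + u) := by
    intro x hx
    by_contra hcon
    apply hx
    show (fn u n x) ^ 2 = 0
    rw [fn_supp hu hcon]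
    norm_num
  rw [← integrableOn_iff_integrable_of_support_subset hs]
  refine Measure.integrableOn_of_bounded (M := ((3 : ℝ) ^ n) ^ 2) ?_ ?_ ?_
  · rw [Real.volume_Icc]
    exact ENNReal.ofReal_ne_top
  · exact ((fn_meas u n).pow_const 2).aestronglyMeasurable
  · refine Filter.Eventually.of_forall fun x => ?_
    rw [Real.norm_of_nonneg (sq_nonneg _)]
    exact pow_le_pow_left₀ (fn_nonneg u n x) (fn_le u n x) 2

private theorem h1_shift_int {u : ℝ} (hu : 0 ≤ u) (n : ℕ) (s : ℝ) :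
    Integrable (fun x => (fn u n (3 * x - s)) ^ 2) :=
  ((h1_sq_int hu n).comp_sub_right s).comp_mul_left' (by norm_num : (3 : ℝ) ≠ 0)

private theorem h1_shift {u : ℝ} (n : ℕ) (s : ℝ) :
    ∫ x, (fn u n (3 * x - s)) ^ 2 = 1 / 3 * ∫ x, (fn u n x) ^ 2 := by
  have e1 : ∫ x, (fn u n (3 * x - s)) ^ 2 = |(3 : ℝ)⁻¹| • ∫ y, (fn u n (y - s)) ^ 2 :=
    Measure.integral_comp_mul_left (fun y => (fn u n (y - s)) ^ 2) 3
  rw [e1, integral_sub_right_eq_self (fun y => (fn u n y) ^ 2) s, smul_eq_mul,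
    abs_of_pos (by norm_num : (0 : ℝ) < 3⁻¹), one_div]

theorem fn_sq_succ {u : ℝ} (hu : u ∈ Icc (1 / 3 : ℝ) 3) (n : ℕ) :
    ∫ x, (fn u (n + 1) x) ^ 2 ≤ 3 * ∫ x, (fn u n x) ^ 2 := by
  have hu0 : 0 ≤ u := by have := hu.1; linarith
  have hpt : ∀ x : ℝ, (fn u (n + 1) x) ^ 2 ≤ 9 / 4 * ((fn u n (3 * x - 0)) ^ 2 +
      (fn u n (3 * x - 2)) ^ 2 + (fn u n (3 * x - 2 * u)) ^ 2 +
        (fn u n (3 * x - (2 + 2 * u))) ^ 2) := by
    intro x
    have e0 : 3 * x - 2 - 2 * u = 3 * x - (2 + 2 * u) := by ring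
    rw [fn_succ, sub_zero, e0]
    nlinarith [sq_nonneg (fn u n (3 * x) - fn u n (3 * x - 2)),
      sq_nonneg (fn u n (3 * x) - fn u n (3 * x - 2 * u)),
      sq_nonneg (fn u n (3 * x) - fn u n (3 * x - (2 + 2 * u))),
      sq_nonneg (fn u n (3 * x - 2) - fn u n (3 * x - 2 * u)),
      sq_nonneg (fn u n (3 * x - 2) - fn u n (3 * x - (2 + 2 * u))),
      sq_nonneg (fn u n (3 * x - 2 * u) - fn u n (3 * x - (2 + 2 * u)))]
  have i0 := h1_shift_int hu0 n 0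
  have i1 := h1_shift_int hu0 n 2
  have i2 := h1_shift_int hu0 n (2 * u)
  have i3 := h1_shift_int hu0 n (2 + 2 * u)
  have i01 : Integrable (fun x => (fn u n (3 * x - 0)) ^ 2 + (fn u n (3 * x - 2)) ^ 2) := i0.add i1
  have i012 : Integrable (fun x => (fn u n (3 * x - 0)) ^ 2 + (fn u n (3 * x - 2)) ^ 2 +
      (fn u n (3 * x - 2 * u)) ^ 2) := i01.add i2
  have i0123 : Integrable (fun x => (fn u n (3 * x - 0)) ^ 2 + (fn u n (3 * x - 2)) ^ 2 +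
      (fn u n (3 * x - 2 * u)) ^ 2 + (fn u n (3 * x - (2 + 2 * u))) ^ 2) := i012.add i3
  have hmono : ∫ x, (fn u (n + 1) x) ^ 2 ≤ ∫ x, 9 / 4 * ((fn u n (3 * x - 0)) ^ 2 +
      (fn u n (3 * x - 2)) ^ 2 + (fn u n (3 * x - 2 * u)) ^ 2 +
        (fn u n (3 * x - (2 + 2 * u))) ^ 2) :=
    integral_mono_of_nonneg (Filter.Eventually.of_forall fun x => sq_nonneg _)
      (i0123.const_mul _) (Filter.Eventually.of_forall hpt)
  refine hmono.trans (le_of_eq ?_)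
  rw [integral_const_mul, integral_add i012 i3, integral_add i01 i2, integral_add i0 i1,
    h1_shift, h1_shift, h1_shift, h1_shift]
  ring

theorem fn_L2 {u : ℝ} (hu : u ∈ Icc (1 / 3 : ℝ) 3) {K : ℝ}
    (hK : ∀ J : ℕ, pairG 3 {0, 2} u (5 * J) ≤ K * (16 / 3) ^ (5 * J)) :
    ∃ K' : ℝ, ∀ n : ℕ, ∫ x, (fn u n x) ^ 2 ≤ K' := by
  have hpg : 0 ≤ pairG 3 {0, 2} u (5 * 0) := by
    unfold pairG
    exact Finset.sum_nonneg fun p _ => Finset.sum_nonneg fun q _ => (Real.exp_pos _).le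
  have hK0 : 0 ≤ K := by
    have h0 := hK 0
    simp only [mul_zero, pow_zero, mul_one] at h0 hpg
    exact hpg.trans h0
  have hbase : ∀ J : ℕ, ∫ x, (fn u (5 * J) x) ^ 2 ≤ 220 * K := by
    intro J
    refine (fn_sq_le hu (5 * J)).trans ?_
    refine mul_le_mul_of_nonneg_left ?_ (by norm_num)
    have h1 := mul_le_mul_of_nonneg_left (hK J) (by positivity : (0 : ℝ) ≤ (3 / 16) ^ (5 * J))
    refine h1.trans (le_of_eq ?_)
    have e : (3 / 16 : ℝ) ^ (5 * J) * (16 / 3) ^ (5 * J) = 1 := by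
      rw [← mul_pow]
      norm_num
    calc (3 / 16 : ℝ) ^ (5 * J) * (K * (16 / 3) ^ (5 * J))
        = K * ((3 / 16 : ℝ) ^ (5 * J) * (16 / 3) ^ (5 * J)) := by ring
      _ = K := by rw [e, mul_one]
  have hstep : ∀ J r : ℕ, ∫ x, (fn u (5 * J + r) x) ^ 2 ≤ 3 ^ r * (220 * K) := by
    intro J r
    induction r with
    | zero => simpa using hbase J
    | succ r ih =>
      have h1 := fn_sq_succ hu (5 * J + r)
      have e : 5 * J + (r + 1) = 5 * J + r + 1 := by ring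
      rw [e]
      calc ∫ x, (fn u (5 * J + r + 1) x) ^ 2 ≤ 3 * ∫ x, (fn u (5 * J + r) x) ^ 2 := h1
        _ ≤ 3 * (3 ^ r * (220 * K)) := mul_le_mul_of_nonneg_left ih (by norm_num)
        _ = 3 ^ (r + 1) * (220 * K) := by ring
  refine ⟨81 * (220 * K), fun n => ?_⟩
  have hn : 5 * (n / 5) + n % 5 = n := Nat.div_add_mod n 5
  have hr : n % 5 ≤ 4 := by omega
  have h1 := hstep (n / 5) (n % 5)
  rw [hn] at h1
  refine h1.trans ?_
  have h2 : (3 : ℝ) ^ (n % 5) ≤ 3 ^ 4 := pow_le_pow_right₀ (by norm_num) hr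
  have h3 : (0 : ℝ) ≤ 220 * K := by positivity
  have h4 := mul_le_mul_of_nonneg_right h2 h3
  norm_num at h4 ⊢
  linarith

end Pool.Agent.Lib.H59Q
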