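import Pool.Agent.Lib.H59Q.H0

/-!
# H2: existence of a density from the uniform `L²` bound

PROOF.  Let `T f (x) = (3/4) Σ_{d ∈ {0, 2, 2u, 2+2u}} f (3x - d)`; `fn u (n+1) = T (fn u n)` (`fn_succ`).
Cesaro means `A_N = (1/(N+1)) Σ_{n ≤ N} fn u n`: `0 ≤ A_N`, supported in `I = [0, 1+u]`, `∫ A_N = 1 + u`,
`‖A_N‖_2 ≤ √K`.  The closed ball of the Hilbert space `H = Lp ℝ 2 volume` is weakly compact.  In Lean:
let `U` be an ultrafilter `≤ atTop` on `ℕ` (`Filter.hyperfilter ℕ` or `Ultrafilter.of atTop`); for `g ∈ H` the bounded real sequence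
`⟪A_N, g⟫` has a limit `L g` along `U` (`IsCompact.ultrafilter_le_nhds` on `[-√K‖g‖, √K‖g‖]`), `L` is
linear and `|L g| ≤ √K ‖g‖`, so `L g = ⟪h, g⟫` with `h ∈ H` (Riesz:
`InnerProductSpace.toDual`, `LinearMap.mkContinuous`).  (Or Banach-Alaoglu: `WeakDual.isCompact_closedBall`.)
With `g = indicatorConstLp 2 (E) 1`, `E` measurable of finite measure: `∫_E h = lim_U ∫_E A_N`.
* `∫_E h ≥ 0` for all such `E`, so `h ≥ 0` a.e. (`ae_nonneg_of_forall_setIntegral_nonneg`, locally).
* `E ∩ I = ∅ ⇒ ∫_E h = 0`, so `h = 0` a.e. off `I`; `∫_I h = lim ∫_I A_N = 1 + u > 0`.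
* REFINEMENT: for bounded measurable `E`, `∫_E h(3x - d) dx = (1/3) ∫_{3E - d} h = (1/3) lim_U ∫_{3E-d} A_N =
  lim_U ∫_E A_N(3x - d) dx`; summing, `∫_E T h = lim_U ∫_E T A_N`, and `T A_N - A_N =
  (fn u (N+1) - fn u 0) / (N+1)`, whose integral over `E` is at most `2(1+u)/(N+1) → 0` in absolute value.  So
  `∫_E T h = ∫_E h` for all bounded measurable `E`, `T h = h` a.e.
Replace `h` by a measurable, everywhere nonnegative representative vanishing off `I`
(`h' = indicator I (max (h₀) 0)` with `h₀` strongly measurable); the equation survives because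
`x ↦ 3x - d` pulls null sets back to null sets (`Measure.quasiMeasurePreserving_smul`, or directly:
preimage of a null set under an affine map of slope 3 is null).  `h'` is integrable (square integrable with
support of finite measure).
-/

namespace Pool.Agent.Lib.H59Q

open MeasureTheory Set

open Filter Topology

/-- Weak compactness: a bounded sequence of `L²` has a weak cluster point along a fixed
ultrafilter. -/
lemma H2_weak {b : ℕ → Lp ℝ 2 (volume : Measure ℝ)} {R : ℝ} (hb : ∀ n, ‖b n‖ ≤ R)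
    (U : Ultrafilter ℕ) : ∃ h : Lp ℝ 2 (volume : Measure ℝ), ∀ g : Lp ℝ 2 (volume : Measure ℝ),
      Tendsto (fun n => (inner ℝ (b n) g : ℝ)) U (𝓝 (inner ℝ h g)) := by
  set D := InnerProductSpace.toDual ℝ (Lp ℝ 2 (volume : Measure ℝ)) with hD
  set φ : ℕ → WeakDual ℝ (Lp ℝ 2 (volume : Measure ℝ)) :=
    fun n => StrongDual.toWeakDual (D (b n)) with hφ
  have hcomp := WeakDual.isCompact_closedBall (𝕜 := ℝ)
    (0 : StrongDual ℝ (Lp ℝ 2 (volume : Measure ℝ))) R
  have hmem : ∀ n, φ n ∈ WeakDual.toStrongDual ⁻¹' Metric.closedBall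
      (0 : StrongDual ℝ (Lp ℝ 2 (volume : Measure ℝ))) R := by
    intro n
    rw [mem_preimage, mem_closedBall_zero_iff]
    change ‖D (b n)‖ ≤ R
    rw [LinearIsometryEquiv.norm_map]
    exact hb n
  obtain ⟨ψ, -, hψ⟩ := hcomp.ultrafilter_le_nhds (U.map φ) (by
    rw [le_principal_iff]
    exact Filter.mem_map.2 (Filter.Eventually.of_forall hmem))
  refine ⟨D.symm (WeakDual.toStrongDual ψ), fun g => ?_⟩
  have h1 : Tendsto φ U (𝓝 ψ) := hψ
  have h2 := ((WeakDual.eval_continuous (𝕜 := ℝ) g).tendsto ψ).comp h1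
  have e1 : (inner ℝ (D.symm (WeakDual.toStrongDual ψ)) g : ℝ) = ψ g := by
    rw [hD, InnerProductSpace.toDual_symm_apply]
    rfl
  rw [e1]
  refine h2.congr fun n => ?_
  change D (b n) g = _
  rw [hD, InnerProductSpace.toDual_apply_apply]

/-- The preimage of a null set under `x ↦ 3 x - d` is null. -/
lemma H2_null (d : ℝ) {N : Set ℝ} (hN : volume N = 0) :
    volume ((fun x : ℝ => 3 * x - d) ⁻¹' N) = 0 := by
  have e : (fun x : ℝ => 3 * x - d) ⁻¹' N = (fun x : ℝ => 3 * x) ⁻¹' ((fun y => y - d) ⁻¹' N) := rfl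
  rw [e, Real.volume_preimage_mul_left (by norm_num : (3 : ℝ) ≠ 0)]
  have : volume ((fun y : ℝ => y - d) ⁻¹' N) = 0 := by
    simp_rw [sub_eq_add_neg]
    rw [measure_preimage_add_right]
    exact hN
  rw [this, mul_zero]

lemma H2_ae (d : ℝ) {p : ℝ → Prop} (h : ∀ᵐ x, p x) : ∀ᵐ x, p (3 * x - d) := by
  rw [ae_iff] at h ⊢
  exact H2_null d h

/-- Change of variables on sets. -/
lemma H2_cov (f : ℝ → ℝ) (d : ℝ) {E : Set ℝ} (hE : MeasurableSet E) :
    ∫ x in E, f (3 * x - d) = 1 / 3 * ∫ x in (fun y => (y + d) / 3) ⁻¹' E, f x := by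
  have hm : MeasurableSet ((fun y : ℝ => (y + d) / 3) ⁻¹' E) :=
    (by fun_prop : Measurable (fun y : ℝ => (y + d) / 3)) hE
  rw [← integral_indicator hE, ← integral_indicator hm]
  set F : ℝ → ℝ := ((fun y : ℝ => (y + d) / 3) ⁻¹' E).indicator f with hF
  have e1 : E.indicator (fun x => f (3 * x - d)) = fun x => F (3 * x - d) := by
    funext x
    have hx : (3 * x - d ∈ (fun y : ℝ => (y + d) / 3) ⁻¹' E) ↔ x ∈ E := by
      rw [mem_preimage]
      have : (3 * x - d + d) / 3 = x := by ring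
      rw [this]
    by_cases hxE : x ∈ E
    · rw [indicator_of_mem hxE, hF, indicator_of_mem (hx.2 hxE)]
    · rw [indicator_of_notMem hxE, hF, indicator_of_notMem (fun h => hxE (hx.1 h))]
  rw [e1]
  have e2 := Measure.integral_comp_mul_left (fun y => F (y - d)) (3 : ℝ)
  rw [e2, integral_sub_right_eq_self F d]
  rw [abs_of_pos (by norm_num : (0 : ℝ) < 3⁻¹), smul_eq_mul]
  norm_num

lemma H2_cov_int {f : ℝ → ℝ} (d : ℝ) {E : Set ℝ} (hE : MeasurableSet E)
    (hf : IntegrableOn f ((fun y => (y + d) / 3) ⁻¹' E)) :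
    IntegrableOn (fun x => f (3 * x - d)) E := by
  have hm : MeasurableSet ((fun y : ℝ => (y + d) / 3) ⁻¹' E) :=
    (by fun_prop : Measurable (fun y : ℝ => (y + d) / 3)) hE
  rw [← integrable_indicator_iff hE]
  rw [← integrable_indicator_iff hm] at hf
  set F : ℝ → ℝ := ((fun y : ℝ => (y + d) / 3) ⁻¹' E).indicator f with hF
  have e1 : E.indicator (fun x => f (3 * x - d)) = fun x => F (3 * x - d) := by
    funext x
    have hx : (3 * x - d ∈ (fun y : ℝ => (y + d) / 3) ⁻¹' E) ↔ x ∈ E := by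
      rw [mem_preimage]
      have : (3 * x - d + d) / 3 = x := by ring
      rw [this]
    by_cases hxE : x ∈ E
    · rw [indicator_of_mem hxE, hF, indicator_of_mem (hx.2 hxE)]
    · rw [indicator_of_notMem hxE, hF, indicator_of_notMem (fun h => hxE (hx.1 h))]
  rw [e1]
  exact (hf.comp_sub_right d).comp_mul_left' (by norm_num)

lemma H2_vol (d : ℝ) {E : Set ℝ} (hfin : volume E < ⊤) :
    volume ((fun y : ℝ => (y + d) / 3) ⁻¹' E) < ⊤ := by
  have e : (fun y : ℝ => (y + d) / 3) ⁻¹' E = (fun y : ℝ => y + d) ⁻¹' ((fun y => 3⁻¹ * y) ⁻¹' E) := by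
    ext y
    simp only [mem_preimage]
    rw [div_eq_inv_mul]
  rw [e, measure_preimage_add_right, Real.volume_preimage_mul_left (by norm_num : (3⁻¹ : ℝ) ≠ 0)]
  exact ENNReal.mul_lt_top ENNReal.ofReal_lt_top hfin

lemma H2_add4 {f₀ f₁ f₂ f₃ : ℝ → ℝ} {E : Set ℝ} (i0 : IntegrableOn f₀ E) (i1 : IntegrableOn f₁ E)
    (i2 : IntegrableOn f₂ E) (i3 : IntegrableOn f₃ E) :
    ∫ x in E, (f₀ x + f₁ x + f₂ x + f₃ x) =
      (∫ x in E, f₀ x) + (∫ x in E, f₁ x) + (∫ x in E, f₂ x) + ∫ x in E, f₃ x := by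
  have h1 : IntegrableOn (fun x => f₀ x + f₁ x) E := i0.add i1
  have h2 : IntegrableOn (fun x => f₀ x + f₁ x + f₂ x) E := h1.add i2
  rw [integral_add h2 i3, integral_add h1 i2, integral_add i0 i1]

theorem exists_density_of_L2 {u : ℝ} (hu : u ∈ Icc (1 / 3 : ℝ) 3) {K : ℝ}
    (hK : ∀ n : ℕ, ∫ x, (fn u n x) ^ 2 ≤ K) : ∃ h : ℝ → ℝ, IsDensity u h := by
  have hu0 : (0 : ℝ) < u := lt_of_lt_of_le (by norm_num) hu.1
  set I : Set ℝ := Icc 0 (1 + u) with hI
  have hIm : MeasurableSet I := measurableSet_Icc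
  have hIfin : volume I ≠ ⊤ := by rw [hI, Real.volume_Icc]; exact ENNReal.ofReal_ne_top
  -- `fn` as elements of `L²`
  have hmem : ∀ n, MemLp (fn u n) 2 volume := by
    intro n
    have h1 : MemLp (I.indicator fun _ => (3 : ℝ) ^ n) 2 volume :=
      memLp_indicator_const 2 hIm _ (Or.inr hIfin)
    refine h1.mono (fn_meas u n).aestronglyMeasurable (Eventually.of_forall fun x => ?_)
    by_cases hx : x ∈ I
    · rw [indicator_of_mem hx, Real.norm_of_nonneg (fn_nonneg u n x),
        Real.norm_of_nonneg (by positivity)]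
      exact fn_le u n x
    · rw [fn_supp hu0.le hx]
      simp
  set b : ℕ → Lp ℝ 2 (volume : Measure ℝ) := fun n => (hmem n).toLp (fn u n) with hb
  have hbae : ∀ n, (b n : ℝ → ℝ) =ᵐ[volume] fn u n := fun n => (hmem n).coeFn_toLp
  have hKnn : 0 ≤ K := le_trans (integral_nonneg fun x => sq_nonneg _) (hK 0)
  have hbn : ∀ n, ‖b n‖ ≤ Real.sqrt K := by
    intro n
    apply Real.le_sqrt_of_sq_le
    have e1 : ‖b n‖ ^ 2 = ∫ x, (fn u n x) ^ 2 := by
      rw [← real_inner_self_eq_norm_sq, L2.inner_def]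
      refine integral_congr_ae ((hbae n).mono fun x hx => ?_)
      simp only [hx]
      rw [real_inner_self_eq_norm_sq, Real.norm_eq_abs, sq_abs]
    rw [e1]
    exact hK n
  set a : ℕ → Lp ℝ 2 (volume : Measure ℝ) :=
    fun N => ((N : ℝ) + 1)⁻¹ • ∑ n ∈ Finset.range (N + 1), b n with ha
  have han : ∀ N, ‖a N‖ ≤ Real.sqrt K := by
    intro N
    have hN : (0 : ℝ) < (N : ℝ) + 1 := by positivity
    rw [ha]
    simp only
    rw [norm_smul, Real.norm_of_nonneg (inv_pos.2 hN).le, inv_mul_le_iff₀ hN]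
    calc ‖∑ n ∈ Finset.range (N + 1), b n‖ ≤ ∑ n ∈ Finset.range (N + 1), ‖b n‖ := norm_sum_le _ _
      _ ≤ ∑ n ∈ Finset.range (N + 1), Real.sqrt K := Finset.sum_le_sum fun n _ => hbn n
      _ = ((N : ℝ) + 1) * Real.sqrt K := by
          rw [Finset.sum_const, Finset.card_range, nsmul_eq_mul]; push_cast; ring
  obtain ⟨h, hh⟩ := H2_weak han (hyperfilter ℕ)
  -- integrals over sets
  set J : Set ℝ → ℕ → ℝ := fun E n => ∫ x in E, fn u n x with hJ
  set S : Set ℝ → ℕ → ℝ := fun E N => ((N : ℝ) + 1)⁻¹ * ∑ n ∈ Finset.range (N + 1), J E n with hS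
  have hlim : ∀ E : Set ℝ, MeasurableSet E → volume E < ⊤ →
      Tendsto (S E) (hyperfilter ℕ) (𝓝 (∫ x in E, (h : ℝ → ℝ) x)) := by
    intro E hE hfin
    have h1 := hh (indicatorConstLp 2 hE hfin.ne (1 : ℝ))
    rw [real_inner_comm, L2.inner_indicatorConstLp_one hE hfin.ne h] at h1
    refine h1.congr fun N => ?_
    rw [real_inner_comm, ha, hS]
    simp only
    rw [inner_smul_right, inner_sum]
    congr 1
    refine Finset.sum_congr rfl fun n _ => ?_
    rw [L2.inner_indicatorConstLp_one hE hfin.ne (b n)]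
    exact integral_congr_ae (ae_restrict_of_ae (hbae n))
  have hint : ∀ E : Set ℝ, MeasurableSet E → volume E < ⊤ → IntegrableOn (h : ℝ → ℝ) E :=
    fun E _ hfin => integrableOn_Lp_of_measure_ne_top h (by norm_num) hfin.ne
  have hfint : ∀ n, Integrable (fn u n) := by
    intro n
    have h1 : Integrable (I.indicator fun _ => (3 : ℝ) ^ n) :=
      (integrable_indicator_iff hIm).2 (integrableOn_const hIfin)
    refine h1.mono (fn_meas u n).aestronglyMeasurable (Eventually.of_forall fun x => ?_)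
    by_cases hx : x ∈ I
    · rw [indicator_of_mem hx, Real.norm_of_nonneg (fn_nonneg u n x),
        Real.norm_of_nonneg (by positivity)]
      exact fn_le u n x
    · rw [fn_supp hu0.le hx]
      simp
  have hJ0 : ∀ E n, 0 ≤ J E n := fun E n => integral_nonneg fun x => fn_nonneg u n x
  have hJ1 : ∀ E n, J E n ≤ 1 + u := by
    intro E n
    rw [hJ, ← fn_integral hu0.le n]
    exact setIntegral_le_integral (hfint n) (Eventually.of_forall fun x => fn_nonneg u n x)
  -- nonnegativity
  have hnn : 0 ≤ᵐ[volume] (h : ℝ → ℝ) := by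
    refine ae_nonneg_of_forall_setIntegral_nonneg_of_sigmaFinite hint fun E hE hfin => ?_
    refine ge_of_tendsto (hlim E hE hfin) (Eventually.of_forall fun N => ?_)
    rw [hS]
    exact mul_nonneg (by positivity) (Finset.sum_nonneg fun n _ => hJ0 E n)
  -- support
  have hsupp : ∀ᵐ x, x ∉ I → (h : ℝ → ℝ) x = 0 := by
    have h1 : (Iᶜ).indicator (h : ℝ → ℝ) =ᵐ[volume] 0 := by
      refine ae_eq_zero_of_forall_setIntegral_eq_of_sigmaFinite (fun E hE hfin => ?_)
        fun E hE hfin => ?_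
      · exact (hint E hE hfin).indicator hIm.compl
      · rw [setIntegral_indicator hIm.compl]
        have hE2 : MeasurableSet (E ∩ Iᶜ) := hE.inter hIm.compl
        have hfin2 : volume (E ∩ Iᶜ) < ⊤ := (measure_mono inter_subset_left).trans_lt hfin
        refine tendsto_nhds_unique (hlim _ hE2 hfin2) ?_
        refine tendsto_const_nhds.congr fun N => ?_
        have : ∀ n, J (E ∩ Iᶜ) n = 0 := by
          intro n
          rw [hJ]
          refine setIntegral_eq_zero_of_forall_eq_zero fun x hx => ?_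
          exact fn_supp hu0.le hx.2
        rw [hS]
        simp only [this, Finset.sum_const_zero, mul_zero]
    filter_upwards [h1] with x hx hxI
    rw [indicator_of_mem (show x ∈ Iᶜ from hxI)] at hx
    exact hx
  -- the integral
  have hI1 : ∫ x in I, (h : ℝ → ℝ) x = 1 + u := by
    refine tendsto_nhds_unique (hlim I hIm hIfin.lt_top) ?_
    refine tendsto_const_nhds.congr fun N => ?_
    have : ∀ n, J I n = 1 + u := by
      intro n
      rw [hJ, ← fn_integral hu0.le n]
      exact setIntegral_eq_integral_of_forall_compl_eq_zero fun x hx => fn_supp hu0.le hx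
    rw [hS]
    simp only [this, Finset.sum_const, Finset.card_range, nsmul_eq_mul]
    push_cast
    field_simp
  -- the refinement equation
  have hTint : ∀ E : Set ℝ, MeasurableSet E → volume E < ⊤ →
      ∀ d : ℝ, IntegrableOn (fun x => (h : ℝ → ℝ) (3 * x - d)) E := by
    intro E hE hfin d
    exact H2_cov_int d hE (hint _ ((by fun_prop : Measurable (fun y : ℝ => (y + d) / 3)) hE)
      (H2_vol d hfin))
  have hT : ∀ᵐ x, (h : ℝ → ℝ) x = 3 / 4 * ((h : ℝ → ℝ) (3 * x - 0) + (h : ℝ → ℝ) (3 * x - 2) +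
      (h : ℝ → ℝ) (3 * x - 2 * u) + (h : ℝ → ℝ) (3 * x - (2 + 2 * u))) := by
    refine ae_eq_of_forall_setIntegral_eq_of_sigmaFinite hint (fun E hE hfin => ?_)
      fun E hE hfin => ?_
    · exact ((((hTint E hE hfin 0).add (hTint E hE hfin 2)).add (hTint E hE hfin (2 * u))).add
        (hTint E hE hfin (2 + 2 * u))).const_mul _
    · have i0 := hTint E hE hfin 0
      have i1 := hTint E hE hfin 2
      have i2 := hTint E hE hfin (2 * u)
      have i3 := hTint E hE hfin (2 + 2 * u)
      rw [integral_const_mul, H2_add4 i0 i1 i2 i3,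
        H2_cov _ 0 hE, H2_cov _ 2 hE, H2_cov _ (2 * u) hE, H2_cov _ (2 + 2 * u) hE]
      set τ : ℝ → Set ℝ := fun d => (fun y : ℝ => (y + d) / 3) ⁻¹' E with hτ
      have hτm : ∀ d, MeasurableSet (τ d) := fun d =>
        (by fun_prop : Measurable (fun y : ℝ => (y + d) / 3)) hE
      have hτf : ∀ d, volume (τ d) < ⊤ := fun d => H2_vol d hfin
      have l0 := hlim _ (hτm 0) (hτf 0)
      have l1 := hlim _ (hτm 2) (hτf 2)
      have l2 := hlim _ (hτm (2 * u)) (hτf (2 * u))
      have l3 := hlim _ (hτm (2 + 2 * u)) (hτf (2 + 2 * u))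
      have lsum := ((((l0.const_mul (1 / 3)).add (l1.const_mul (1 / 3))).add
        (l2.const_mul (1 / 3))).add (l3.const_mul (1 / 3))).const_mul (3 / 4)
      refine tendsto_nhds_unique (hlim E hE hfin) ?_
      have herr : Tendsto (fun N : ℕ => ((N : ℝ) + 1)⁻¹ * (J E (N + 1) - J E 0))
          (hyperfilter ℕ) (𝓝 0) := by
        have h1 : Tendsto (fun N : ℕ => ((N : ℝ) + 1)⁻¹ * (1 + u)) atTop (𝓝 0) := by
          have h2 : Tendsto (fun N : ℕ => 1 / ((N : ℝ) + 1)) atTop (𝓝 0) :=
            tendsto_one_div_add_atTop_nhds_zero_nat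
          have h3 := h2.mul_const (1 + u)
          rw [zero_mul] at h3
          refine h3.congr fun N => ?_
          rw [one_div]
        have h4 : Tendsto (fun N : ℕ => ((N : ℝ) + 1)⁻¹ * (J E (N + 1) - J E 0)) atTop
            (𝓝 0) := by
          refine squeeze_zero_norm (fun N => ?_) h1
          have hN : (0 : ℝ) < ((N : ℝ) + 1)⁻¹ := by positivity
          rw [norm_mul, Real.norm_of_nonneg hN.le]
          refine mul_le_mul_of_nonneg_left ?_ hN.le
          rw [Real.norm_eq_abs, abs_le]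
          constructor
          · linarith [hJ0 E (N + 1), hJ1 E 0]
          · linarith [hJ0 E 0, hJ1 E (N + 1)]
        exact h4.mono_left Nat.hyperfilter_le_atTop
      have hfin2 := lsum.sub herr
      rw [sub_zero] at hfin2
      refine hfin2.congr fun N => ?_
      -- `J E (n + 1)` in terms of the `J (τ d) n`
      have hrec : ∀ n, J E (n + 1) = 3 / 4 * (1 / 3 * J (τ 0) n + 1 / 3 * J (τ 2) n +
          1 / 3 * J (τ (2 * u)) n + 1 / 3 * J (τ (2 + 2 * u)) n) := by
        intro n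
        have j0 : IntegrableOn (fun x => fn u n (3 * x - 0)) E :=
          H2_cov_int 0 hE (hfint n).integrableOn
        have j1 : IntegrableOn (fun x => fn u n (3 * x - 2)) E :=
          H2_cov_int 2 hE (hfint n).integrableOn
        have j2 : IntegrableOn (fun x => fn u n (3 * x - 2 * u)) E :=
          H2_cov_int (2 * u) hE (hfint n).integrableOn
        have j3 : IntegrableOn (fun x => fn u n (3 * x - (2 + 2 * u))) E :=
          H2_cov_int (2 + 2 * u) hE (hfint n).integrableOn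
        rw [hJ]
        simp only
        rw [← H2_cov _ 0 hE, ← H2_cov _ 2 hE, ← H2_cov _ (2 * u) hE, ← H2_cov _ (2 + 2 * u) hE,
          ← H2_add4 j0 j1 j2 j3, ← integral_const_mul]
        refine setIntegral_congr_fun hE fun x _ => ?_
        rw [fn_succ, sub_zero, show 3 * x - 2 - 2 * u = 3 * x - (2 + 2 * u) by ring]
      have hsum : ∑ n ∈ Finset.range (N + 1), J E (n + 1) =
          3 / 4 * (1 / 3 * ∑ n ∈ Finset.range (N + 1), J (τ 0) n +
            1 / 3 * ∑ n ∈ Finset.range (N + 1), J (τ 2) n +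
            1 / 3 * ∑ n ∈ Finset.range (N + 1), J (τ (2 * u)) n +
            1 / 3 * ∑ n ∈ Finset.range (N + 1), J (τ (2 + 2 * u)) n) := by
        rw [Finset.sum_congr rfl fun n _ => hrec n, ← Finset.mul_sum, Finset.sum_add_distrib, Finset.sum_add_distrib,
          Finset.sum_add_distrib, ← Finset.mul_sum, ← Finset.mul_sum, ← Finset.mul_sum,
          ← Finset.mul_sum]
      have htel : ∑ n ∈ Finset.range (N + 1), J E (n + 1) =
          ∑ n ∈ Finset.range (N + 1), J E n + (J E (N + 1) - J E 0) := by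
        have h5 := Finset.sum_range_succ (J E) (N + 1)
        have h6 := Finset.sum_range_succ' (J E) (N + 1)
        linarith
      have hN : ((N : ℝ) + 1) ≠ 0 := by positivity
      simp only [hS]
      have h7 := hsum.symm.trans htel
      have h8 : 3 / 4 * (1 / 3 * (((N : ℝ) + 1)⁻¹ * ∑ n ∈ Finset.range (N + 1), J (τ 0) n) +
            1 / 3 * (((N : ℝ) + 1)⁻¹ * ∑ n ∈ Finset.range (N + 1), J (τ 2) n) +
            1 / 3 * (((N : ℝ) + 1)⁻¹ * ∑ n ∈ Finset.range (N + 1), J (τ (2 * u)) n) +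
            1 / 3 * (((N : ℝ) + 1)⁻¹ * ∑ n ∈ Finset.range (N + 1), J (τ (2 + 2 * u)) n)) =
          ((N : ℝ) + 1)⁻¹ * (∑ n ∈ Finset.range (N + 1), J E n + (J E (N + 1) - J E 0)) := by
        rw [← h7]
        ring
      rw [h8]
      ring
  -- the representative
  set h' : ℝ → ℝ := I.indicator (fun x => max ((h : ℝ → ℝ) x) 0) with hh'
  have hae : ∀ᵐ x, h' x = (h : ℝ → ℝ) x := by
    filter_upwards [hnn, hsupp] with x h1 h2
    by_cases hx : x ∈ I
    · rw [hh', indicator_of_mem hx]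
      exact max_eq_left h1
    · rw [hh', indicator_of_notMem hx, h2 hx]
  refine ⟨h', ?_, ?_, ?_, ?_, ?_, ?_⟩
  · exact ((Lp.stronglyMeasurable h).measurable.max measurable_const).indicator hIm
  · intro x
    by_cases hx : x ∈ I
    · rw [hh', indicator_of_mem hx]; exact le_max_right _ _
    · rw [hh', indicator_of_notMem hx]
  · have h1 : IntegrableOn h' I := by
      refine (hint I hIm hIfin.lt_top).congr ?_
      exact ae_restrict_of_ae (hae.mono fun x hx => hx.symm)
    rw [← integrable_indicator_iff hIm] at h1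
    refine h1.congr (Eventually.of_forall fun x => ?_)
    rw [hh', indicator_indicator, inter_self]
  · have h1 : ∫ x, h' x = 1 + u := by
      rw [← hI1, ← integral_indicator hIm]
      refine integral_congr_ae ?_
      filter_upwards [hae] with x hx
      by_cases hxI : x ∈ I
      · rw [indicator_of_mem hxI, hx]
      · rw [indicator_of_notMem hxI, hh', indicator_of_notMem hxI]
    rw [h1]
    linarith
  · intro x hx
    rw [hh', indicator_of_notMem hx]
  · have a0 := H2_ae 0 hae
    have a1 := H2_ae 2 hae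
    have a2 := H2_ae (2 * u) hae
    have a3 := H2_ae (2 + 2 * u) hae
    filter_upwards [hae, hT, a0, a1, a2, a3] with x e0 eT e1 e2 e3 e4
    rw [e0, eT, ← e1, ← e2, ← e3, ← e4, sub_zero,
      show 3 * x - 2 - 2 * u = 3 * x - (2 + 2 * u) by ring]

end Pool.Agent.Lib.H59Q
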