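import Pool.Agent.Lib.H59Q.H3a

/-!
# H3: a backward invariant set of positive measure is full

PROOF of `ae_full_K`.  Let `Z = [0,1+u] \ A`, `c = volume A / (2 (1+u) 3^K) > 0`.  CLAIM: for every interval
`J = [a, a + ℓ] ⊆ [0, 1+u]`, `ℓ > 0`: `volume (A ∩ J) ≥ c ℓ`.  Take the least `n` with
`3^{-Kn} (1+u) ≤ ℓ/2`; then `3^{-Kn}(1+u) > ℓ/(2·3^K)` (`n ≥ 1` because `ℓ/2 < 1+u`).  The midpoint `m` of `J`
has a word `p` with `3^(Kn) m - D_p ∈ [0, 1+u]` (`cover`).  The set `A' = {b : 3^(Kn) b - D_p ∈ A}` is contained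
a.e. in `A` (`hback`), lies in the interval `{b : 3^(Kn) b - D_p ∈ [0,1+u]}` of length `3^{-Kn}(1+u) ≤ ℓ/2`, which
contains `m`, so in `J`, and has measure `3^{-Kn} volume A ≥ c ℓ`.
So `volume (Z ∩ J) ≤ ℓ - c ℓ` for all intervals `J ⊆ [0,1+u]`.  By the Lebesgue density theorem
(`Besicovitch.ae_tendsto_measure_inter_div` or `IsUnifLocDoublingMeasure.ae_tendsto_measure_inter_div`) a.e.
point of `Z` in the open interval `(0, 1+u)` is a density point of `Z`: contradiction unless `volume Z = 0`.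

PROOF of `back_iter`.  Induction on `n` (last digit): if `3^(n+1) b - D_{p'} ∈ A`,
`p' = (3 p.1 + i, 3 p.2 + j)`, then with `b' = 3^n b - D_p`: `3 b' - (j + u i) ∈ A`, so `b' ∈ A` for all `b`
outside the preimage of a null set under `b ↦ 3^n b - D_p` (null), and then `b ∈ A` by induction.
Finitely many words.

PROOF of `ae_full`: `ae_full_K` with `K = 1` and `back_iter`.
-/

namespace Pool.Agent.Lib.H59Q

open MeasureTheory Set

private theorem H3_vol_pre {N : ℝ} (hN : N ≠ 0) (d e : ℝ) (s : Set ℝ) :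
    volume {b : ℝ | N * b - d - e ∈ s} = ENNReal.ofReal |N⁻¹| * volume s := by
  have h1 : {b : ℝ | N * b - d - e ∈ s} = (N * ·) ⁻¹' ((fun y => y + (-d - e)) ⁻¹' s) := by
    ext b
    simp only [mem_setOf_eq, mem_preimage]
    have : N * b - d - e = N * b + (-d - e) := by ring
    rw [this]
  rw [h1, Real.volume_preimage_mul_left hN, measure_preimage_add_right]

private theorem H3_ae_pre {N : ℝ} (hN : N ≠ 0) (d e : ℝ) {Q : ℝ → Prop} (h : ∀ᵐ b : ℝ, Q b) :
    ∀ᵐ b : ℝ, Q (N * b - d - e) := by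
  rw [ae_iff] at h ⊢
  have h1 := H3_vol_pre hN d e {a | ¬ Q a}
  rw [h, mul_zero] at h1
  exact h1

/-- every interval contains a large part of `A` -/
private theorem H3_claim {u : ℝ} (hu : u ∈ Icc (1 / 3 : ℝ) 3) {K : ℕ} (hK : 0 < K) {A : Set ℝ}
    (hsub : A ⊆ Icc 0 (1 + u))
    (hback : ∀ n : ℕ, ∀ᵐ b : ℝ, ∀ p ∈ C (K * n) ×ˢ C (K * n),
      (3 : ℝ) ^ (K * n) * b - p.2 - u * p.1 ∈ A → b ∈ A) {v : ℝ} (hv0 : 0 ≤ v)
    (hv : ENNReal.ofReal v = volume A) {a l : ℝ} (hl : 0 < l) (ha : 0 ≤ a) (hal : a + l ≤ 1 + u) :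
    ENNReal.ofReal (v / (2 * (1 + u) * 3 ^ K) * l) ≤ volume (A ∩ Icc a (a + l)) := by
  classical
  have hu0 : 0 < 1 + u := by linarith [hu.1]
  have hex : ∃ n : ℕ, 2 * (1 + u) ≤ l * 3 ^ (K * n) := by
    obtain ⟨n, hn⟩ := pow_unbounded_of_one_lt (2 * (1 + u) / l) (show (1 : ℝ) < 3 by norm_num)
    refine ⟨n, ?_⟩
    rw [div_lt_iff₀ hl] at hn
    have h1 : (3 : ℝ) ^ n ≤ 3 ^ (K * n) :=
      pow_le_pow_right₀ (by norm_num) (Nat.le_mul_of_pos_left n hK)
    nlinarith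
  set n := Nat.find hex with hndef
  have hn := Nat.find_spec hex
  rw [← hndef] at hn
  have hn0 : n ≠ 0 := by
    intro h0
    rw [h0, mul_zero, pow_zero, mul_one] at hn
    linarith
  obtain ⟨m, hm⟩ := Nat.exists_eq_succ_of_ne_zero hn0
  have hmin : l * 3 ^ (K * m) < 2 * (1 + u) := by
    have := Nat.find_min hex (m := m) (by omega)
    exact not_le.1 this
  set N : ℝ := 3 ^ (K * n) with hN
  have hN0 : 0 < N := by positivity
  have hNle : l * N ≤ 2 * (1 + u) * 3 ^ K := by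
    have h1 : N = 3 ^ (K * m) * 3 ^ K := by
      rw [hN, hm, Nat.mul_succ, pow_add]
    rw [h1, ← mul_assoc]
    exact mul_le_mul_of_nonneg_right hmin.le (by positivity)
  obtain ⟨p, hp, hpm⟩ := cover hu (K * n) (b := a + l / 2) ⟨by linarith, by linarith⟩
  have hvol := H3_vol_pre hN0.ne' (p.2 : ℝ) (u * p.1) A
  have hA'sub : {b : ℝ | N * b - p.2 - u * p.1 ∈ A} ≤ᵐ[volume] (A ∩ Icc a (a + l) : Set ℝ) := by
    filter_upwards [hback n] with b hb hbA
    have hbA' : N * b - p.2 - u * p.1 ∈ A := hbA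
    refine ⟨hb p hp hbA', ?_⟩
    have h1 := hsub hbA'
    have h2 := hpm
    rw [← hN] at h2
    have h3 : N * (b - (a + l / 2)) ≤ 1 + u := by
      have e : N * (b - (a + l / 2)) = (N * b - p.2 - u * p.1) - (N * (a + l / 2) - p.2 - u * p.1) := by ring
      rw [e]
      linarith [h1.2, h2.1]
    have h4 : -(1 + u) ≤ N * (b - (a + l / 2)) := by
      have e : N * (b - (a + l / 2)) = (N * b - p.2 - u * p.1) - (N * (a + l / 2) - p.2 - u * p.1) := by ring
      rw [e]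
      linarith [h1.1, h2.2]
    have h5 : 1 + u ≤ N * (l / 2) := by linarith
    constructor
    · have h6 : N * -(l / 2) ≤ N * (b - (a + l / 2)) := by linarith
      have h7 := le_of_mul_le_mul_left h6 hN0
      linarith
    · have h6 : N * (b - (a + l / 2)) ≤ N * (l / 2) := by linarith
      have h7 := le_of_mul_le_mul_left h6 hN0
      linarith
  refine le_trans ?_ (measure_mono_ae hA'sub)
  rw [hvol, ← hv, ← ENNReal.ofReal_mul (abs_nonneg _)]
  apply ENNReal.ofReal_le_ofReal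
  rw [abs_of_pos (inv_pos.2 hN0), div_mul_eq_mul_div, div_le_iff₀ (by positivity)]
  have h8 : N⁻¹ * v * (2 * (1 + u) * 3 ^ K) = v * ((2 * (1 + u) * 3 ^ K) * N⁻¹) := by ring
  rw [h8]
  apply mul_le_mul_of_nonneg_left _ hv0
  rw [← div_eq_mul_inv, le_div_iff₀ hN0]
  exact hNle

theorem ae_full_K {u : ℝ} (hu : u ∈ Icc (1 / 3 : ℝ) 3) {K : ℕ} (hK : 0 < K) {A : Set ℝ}
    (hA : MeasurableSet A) (hsub : A ⊆ Icc 0 (1 + u)) (hpos : volume A ≠ 0)
    (hback : ∀ n : ℕ, ∀ᵐ b : ℝ, ∀ p ∈ C (K * n) ×ˢ C (K * n),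
      (3 : ℝ) ^ (K * n) * b - p.2 - u * p.1 ∈ A → b ∈ A) :
    volume (Icc 0 (1 + u) \ A) = 0 := by
  by_contra hZ
  have hu0 : 0 < 1 + u := by linarith [hu.1]
  have hfin : volume A ≠ ⊤ := by
    refine ne_top_of_le_ne_top ?_ (measure_mono hsub)
    rw [Real.volume_Icc]
    exact ENNReal.ofReal_ne_top
  set v : ℝ := (volume A).toReal with hvdef
  have hv : ENNReal.ofReal v = volume A := ENNReal.ofReal_toReal hfin
  have hv0 : 0 < v := ENNReal.toReal_pos hpos hfin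
  set c : ℝ := v / (2 * (1 + u) * 3 ^ K) with hc
  have hc0 : 0 < c := by positivity
  set Z : Set ℝ := Icc 0 (1 + u) \ A with hZdef
  have hZm : MeasurableSet Z := measurableSet_Icc.diff hA
  have hdens := Besicovitch.ae_tendsto_measure_inter_div volume Z
  have hne0 : ∀ᵐ x ∂(volume.restrict Z), x ≠ 0 :=
    (ae_restrict_of_ae (Measure.ae_ne volume (0 : ℝ)))
  have hneL : ∀ᵐ x ∂(volume.restrict Z), x ≠ 1 + u :=
    (ae_restrict_of_ae (Measure.ae_ne volume (1 + u : ℝ)))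
  have hmem : ∀ᵐ x ∂(volume.restrict Z), x ∈ Z := ae_restrict_mem hZm
  have hneb : (ae (volume.restrict Z)).NeBot := by
    rw [ae_neBot]
    intro h
    rw [Measure.restrict_eq_zero] at h
    exact hZ h
  obtain ⟨x, hx1, hx2, hx3, hx4⟩ := (hdens.and (hne0.and (hneL.and hmem))).exists
  have hx0 : 0 < x := lt_of_le_of_ne hx4.1.1 (Ne.symm hx2)
  have hxL : x < 1 + u := lt_of_le_of_ne hx4.1.2 hx3
  have hev : ∀ᶠ r in nhdsWithin (0 : ℝ) (Ioi 0),
      volume (Z ∩ Metric.closedBall x r) / volume (Metric.closedBall x r) ≤ ENNReal.ofReal (1 - c) := by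
    have h1 : ∀ᶠ r in nhdsWithin (0 : ℝ) (Ioi 0), r ∈ Ioo 0 (min x (1 + u - x)) :=
      Ioo_mem_nhdsGT (lt_min hx0 (by linarith))
    filter_upwards [h1] with r hr
    have hr0 : 0 < r := hr.1
    have hr1 : r < x := lt_of_lt_of_le hr.2 (min_le_left _ _)
    have hr2 : r < 1 + u - x := lt_of_lt_of_le hr.2 (min_le_right _ _)
    have hball : Metric.closedBall x r = Icc (x - r) (x - r + 2 * r) := by
      rw [Real.closedBall_eq_Icc]
      congr 1
      ring
    have hvb : volume (Metric.closedBall x r) = ENNReal.ofReal (2 * r) := Real.volume_closedBall x r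
    have h2 := H3_claim hu hK hsub hback hv0.le hv (a := x - r) (l := 2 * r) (by linarith)
      (by linarith) (by linarith)
    rw [← hball, ← hc] at h2
    have h3 : volume (Z ∩ Metric.closedBall x r) + volume (A ∩ Metric.closedBall x r) ≤
        volume (Metric.closedBall x r) := by
      rw [← measure_union]
      · apply measure_mono
        rintro y (hy | hy)
        · exact hy.2
        · exact hy.2
      · rw [Set.disjoint_left]
        intro y hy hy'
        exact hy.1.2 hy'.1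
      · exact hA.inter measurableSet_closedBall
    rw [hvb] at h3
    have h4 : volume (Z ∩ Metric.closedBall x r) + ENNReal.ofReal (c * (2 * r)) ≤ ENNReal.ofReal (2 * r) :=
      (add_le_add le_rfl h2).trans h3
    have h5 : volume (Z ∩ Metric.closedBall x r) ≤ ENNReal.ofReal (2 * r) - ENNReal.ofReal (c * (2 * r)) :=
      ENNReal.le_sub_of_add_le_right ENNReal.ofReal_ne_top h4
    rw [← ENNReal.ofReal_sub _ (by positivity)] at h5
    have h6 : 2 * r - c * (2 * r) = (1 - c) * (2 * r) := by ring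
    rw [h6] at h5
    rw [hvb]
    apply ENNReal.div_le_of_le_mul
    by_cases hc1 : 0 ≤ 1 - c
    · rwa [ENNReal.ofReal_mul hc1] at h5
    · push Not at hc1
      have h7 : (1 - c) * (2 * r) ≤ 0 := by nlinarith
      rw [ENNReal.ofReal_of_nonpos h7] at h5
      exact h5.trans (zero_le)
  have hlim := le_of_tendsto hx1 hev
  have hlt : ENNReal.ofReal (1 - c) < 1 := by
    rw [ENNReal.ofReal_lt_one]
    linarith
  exact absurd hlim (not_le.2 hlt)

theorem back_iter {u : ℝ} {A : Set ℝ}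
    (hback : ∀ᵐ b : ℝ, (3 * b ∈ A ∨ 3 * b - 2 ∈ A ∨ 3 * b - 2 * u ∈ A ∨ 3 * b - 2 - 2 * u ∈ A) →
      b ∈ A) (n : ℕ) :
    ∀ᵐ b : ℝ, ∀ p ∈ C n ×ˢ C n, (3 : ℝ) ^ n * b - p.2 - u * p.1 ∈ A → b ∈ A := by
  induction n with
  | zero =>
    filter_upwards with b p hp hb
    rw [Finset.mem_product] at hp
    have h1 : p.1 = 0 := by
      have := hp.1
      unfold C at this
      rwa [mem_Cd_zero] at this
    have h2 : p.2 = 0 := by
      have := hp.2
      unfold C at this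
      rwa [mem_Cd_zero] at this
    rw [h1, h2] at hb
    simpa using hb
  | succ n ih =>
    have h1 : ∀ᵐ b : ℝ, ∀ p ∈ C n ×ˢ C n,
        (3 * ((3 : ℝ) ^ n * b - p.2 - u * p.1) ∈ A ∨ 3 * ((3 : ℝ) ^ n * b - p.2 - u * p.1) - 2 ∈ A ∨
          3 * ((3 : ℝ) ^ n * b - p.2 - u * p.1) - 2 * u ∈ A ∨
          3 * ((3 : ℝ) ^ n * b - p.2 - u * p.1) - 2 - 2 * u ∈ A) →
        (3 : ℝ) ^ n * b - p.2 - u * p.1 ∈ A := by
      have h2 := (ae_ball_iff (μ := (volume : Measure ℝ)) (S := ((C n ×ˢ C n : Finset (ℕ × ℕ)) : Set (ℕ × ℕ)))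
        (p := fun b p _ => (3 * ((3 : ℝ) ^ n * b - p.2 - u * p.1) ∈ A ∨
          3 * ((3 : ℝ) ^ n * b - p.2 - u * p.1) - 2 ∈ A ∨
          3 * ((3 : ℝ) ^ n * b - p.2 - u * p.1) - 2 * u ∈ A ∨
          3 * ((3 : ℝ) ^ n * b - p.2 - u * p.1) - 2 - 2 * u ∈ A) →
          (3 : ℝ) ^ n * b - p.2 - u * p.1 ∈ A) (Finset.countable_toSet _)).2
      exact h2 fun p _ => H3_ae_pre (N := (3 : ℝ) ^ n) (by positivity) (p.2 : ℝ) (u * p.1) hback
    filter_upwards [ih, h1] with b hb1 hb2 p hp hb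
    rw [Finset.mem_product] at hp
    obtain ⟨x, hx, hx'⟩ := mem_C_succ.1 hp.1
    obtain ⟨y, hy, hy'⟩ := mem_C_succ.1 hp.2
    have hxy : (x, y) ∈ C n ×ˢ C n := Finset.mem_product.2 ⟨hx, hy⟩
    refine hb1 (x, y) hxy (hb2 (x, y) hxy ?_)
    have e : ∀ d e : ℝ, (p.1 : ℝ) = 3 * x + d → (p.2 : ℝ) = 3 * y + e →
        (3 : ℝ) ^ (n + 1) * b - p.2 - u * p.1 = 3 * ((3 : ℝ) ^ n * b - y - u * x) - e - d * u := by
      intro d e h1 h2
      rw [h1, h2, pow_succ]
      ring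
    rcases hx' with h3 | h3 <;> rcases hy' with h4 | h4
    · left
      have h5 := e 0 0 (by rw [h3]; push_cast; ring) (by rw [h4]; push_cast; ring)
      rw [h5] at hb
      simpa using hb
    · right; left
      have h5 := e 0 2 (by rw [h3]; push_cast; ring) (by rw [h4]; push_cast; ring)
      rw [h5] at hb
      simpa using hb
    · right; right; left
      have h5 := e 2 0 (by rw [h3]; push_cast; ring) (by rw [h4]; push_cast; ring)
      rw [h5] at hb
      simpa using hb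
    · right; right; right
      have h5 := e 2 2 (by rw [h3]; push_cast; ring) (by rw [h4]; push_cast; ring)
      rw [h5] at hb
      exact hb

theorem ae_full {u : ℝ} (hu : u ∈ Icc (1 / 3 : ℝ) 3) {A : Set ℝ} (hA : MeasurableSet A)
    (hsub : A ⊆ Icc 0 (1 + u)) (hpos : volume A ≠ 0)
    (hback : ∀ᵐ b : ℝ, (3 * b ∈ A ∨ 3 * b - 2 ∈ A ∨ 3 * b - 2 * u ∈ A ∨ 3 * b - 2 - 2 * u ∈ A) →
      b ∈ A) :
    volume (Icc 0 (1 + u) \ A) = 0 := by
  refine ae_full_K hu (K := 1) one_pos hA hsub hpos fun n => ?_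
  rw [one_mul]
  exact back_iter hback n

end Pool.Agent.Lib.H59Q
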