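import Pool.Agent.Lib.H59Q.H0

/-!
# H3a: the hull is covered at every level

PROOF of `cover`.  `n = 1`: the four intervals `(d + [0,1+u])/3`, `d ∈ {0, 2, 2u, 2+2u}`, cover `[0, 1+u]`:
for `u ≥ 1` in the order `0, 2, 2u, 2+2u` (`2/3 ≤ (1+u)/3`, `2u/3 ≤ 1 + u/3` iff `u ≤ 3`,
`2(1+u)/3 ≤ 1/3 + u`), for `u ≤ 1` in the order `0, 2u, 2, 2+2u` (`2/3 ≤ 1/3 + u` iff `u ≥ 1/3`).
Induction on `n`: from `b' = 3^n b - D_p ∈ I` choose `d` with `3 b' - d ∈ I`; the word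
`(3 p.1 + i, 3 p.2 + j)` (`mem_C_succ`).

PROOF of `hull_back`.  `D_p = p.2 + u p.1 ∈ [0, (1+u)(3^n - 1)]` (`Cd_lt`), so `b = (D_p + y)/3^n`, `y ∈ [0,1+u]`.
-/

namespace Pool.Agent.Lib.H59Q

open MeasureTheory Set

private theorem h3a_step {u : ℝ} (hu : u ∈ Icc (1 / 3 : ℝ) 3) {x : ℝ} (hx : x ∈ Icc 0 (1 + u)) :
    ∃ i ∈ ({0, 2} : Finset ℕ), ∃ j ∈ ({0, 2} : Finset ℕ), 3 * x - (j : ℝ) - u * (i : ℝ) ∈
      Icc 0 (1 + u) := by
  obtain ⟨h1, h2⟩ := hu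
  obtain ⟨h3, h4⟩ := hx
  rcases le_total 1 u with hu1 | hu1
  · rcases le_total (3 * x) (1 + u) with h5 | h5
    · exact ⟨0, by simp, 0, by simp, by push_cast; constructor <;> nlinarith⟩
    · rcases le_total (3 * x) (3 + u) with h6 | h6
      · exact ⟨0, by simp, 2, by simp, by push_cast; constructor <;> nlinarith⟩
      · rcases le_total (3 * x) (1 + 3 * u) with h7 | h7
        · exact ⟨2, by simp, 0, by simp, by push_cast; constructor <;> nlinarith⟩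
        · exact ⟨2, by simp, 2, by simp, by push_cast; constructor <;> nlinarith⟩
  · rcases le_total (3 * x) (1 + u) with h5 | h5
    · exact ⟨0, by simp, 0, by simp, by push_cast; constructor <;> nlinarith⟩
    · rcases le_total (3 * x) (1 + 3 * u) with h6 | h6
      · exact ⟨2, by simp, 0, by simp, by push_cast; constructor <;> nlinarith⟩
      · rcases le_total (3 * x) (3 + u) with h7 | h7
        · exact ⟨0, by simp, 2, by simp, by push_cast; constructor <;> nlinarith⟩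
        · exact ⟨2, by simp, 2, by simp, by push_cast; constructor <;> nlinarith⟩

theorem cover {u : ℝ} (hu : u ∈ Icc (1 / 3 : ℝ) 3) (n : ℕ) {b : ℝ} (hb : b ∈ Icc 0 (1 + u)) :
    ∃ p ∈ C n ×ˢ C n, (3 : ℝ) ^ n * b - p.2 - u * p.1 ∈ Icc 0 (1 + u) := by
  induction n with
  | zero =>
    refine ⟨(0, 0), ?_, ?_⟩
    · simp [C, Cd]
    · simpa using hb
  | succ n ih =>
    obtain ⟨p, hp, hpI⟩ := ih
    obtain ⟨i, hi, j, hj, hij⟩ := h3a_step hu hpI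
    rw [Finset.mem_product] at hp
    refine ⟨(3 * p.1 + i, 3 * p.2 + j), ?_, ?_⟩
    · rw [Finset.mem_product]
      exact ⟨mem_Cd_succ.mpr ⟨p.1, hp.1, i, hi, rfl⟩, mem_Cd_succ.mpr ⟨p.2, hp.2, j, hj, rfl⟩⟩
    · have e : (3 : ℝ) ^ (n + 1) * b - ((3 * p.2 + j : ℕ) : ℝ) - u * ((3 * p.1 + i : ℕ) : ℝ) =
          3 * ((3 : ℝ) ^ n * b - p.2 - u * p.1) - (j : ℝ) - u * (i : ℝ) := by
        push_cast
        ring
      show (3 : ℝ) ^ (n + 1) * b - ((3 * p.2 + j : ℕ) : ℝ) - u * ((3 * p.1 + i : ℕ) : ℝ) ∈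
        Icc 0 (1 + u)
      rw [e]
      exact hij

theorem hull_back {u : ℝ} (hu : 0 ≤ u) (n : ℕ) {b : ℝ} {p : ℕ × ℕ} (hp : p ∈ C n ×ˢ C n)
    (h : (3 : ℝ) ^ n * b - p.2 - u * p.1 ∈ Icc 0 (1 + u)) : b ∈ Icc 0 (1 + u) := by
  rw [Finset.mem_product] at hp
  have h1 : p.1 < 3 ^ n := Cd_lt C_digits hp.1
  have h2 : p.2 < 3 ^ n := Cd_lt C_digits hp.2
  have h1' : (p.1 : ℝ) + 1 ≤ 3 ^ n := by exact_mod_cast h1
  have h2' : (p.2 : ℝ) + 1 ≤ 3 ^ n := by exact_mod_cast h2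
  have h3 : (0 : ℝ) < 3 ^ n := by positivity
  have h4 : (0 : ℝ) ≤ p.1 := by positivity
  have h5 : (0 : ℝ) ≤ p.2 := by positivity
  obtain ⟨h6, h7⟩ := h
  have h8 : u * p.1 ≤ u * (3 ^ n - 1) := mul_le_mul_of_nonneg_left (by linarith) hu
  have h9 : 0 ≤ u * p.1 := mul_nonneg hu h4
  constructor
  · have : 0 ≤ (3 : ℝ) ^ n * b := by linarith
    exact nonneg_of_mul_nonneg_right this h3
  · have : (3 : ℝ) ^ n * b ≤ (3 : ℝ) ^ n * (1 + u) := by nlinarith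
    exact le_of_mul_le_mul_left this h3

end Pool.Agent.Lib.H59Q
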