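import Pool.Agent.Lib.H59Q.H3

/-!
# H4: a density is positive almost everywhere on the hull; iterated refinement; mass transport

PROOF of `density_pos`.  `A = {x : 0 < h x}` is measurable, contained in `[0, 1+u]` (`supp`), of positive
measure (`∫ h > 0`); if `3b - d ∈ A` then `h b ≥ (3/4) h (3b - d) > 0` for a.e. `b` (`eqn`, `nonneg`).  `ae_full`.

PROOF of `density_iter`.  Induction on `n`: insert the equation at the points `3^n x - D_p` (the exceptional
set is a finite union of preimages of a null set under affine maps of slope `3^n`, null) and regroup with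
`sum_Cd_succ` (`i = 3 p.1 + d`, digits `{0, 2}`) for both coordinates.

PROOF of `lintegral_words`.  Each of the `4^n` words contributes `∫⁻ g (3^n x - D) dx = 3^{-n} ∫⁻ g`
(`Real.volume_preserving`/`lintegral_comp_mul_left`-type change of variables, e.g.
`MeasureTheory.Measure.map` of `x ↦ 3^n x - D` is `3^{-n} • volume`); `card_C`: `4^n` words.
-/

namespace Pool.Agent.Lib.H59Q

open MeasureTheory Set

private lemma h4_ae_affine {P : ℝ → Prop} (hP : ∀ᵐ y : ℝ, P y) {a : ℝ} (ha : a ≠ 0) (c : ℝ) :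
    ∀ᵐ x : ℝ, P (a * x - c) := by
  rw [ae_iff] at hP ⊢
  have h1 : {x : ℝ | ¬ P (a * x - c)} =
      (fun x => a * x) ⁻¹' ((fun y => y + (-c)) ⁻¹' {y | ¬ P y}) := by
    ext x
    simp only [mem_ofPred_eq, mem_preimage, sub_eq_add_neg]
  rw [h1, Real.volume_preimage_mul_left ha, measure_preimage_add_right, hP, mul_zero]

private lemma h4_sum_C_succ {M : Type*} [AddCommMonoid M] (n : ℕ) (f : ℕ → M) :
    ∑ a ∈ C (n + 1), f a = ∑ x ∈ C n, (f (3 * x) + f (3 * x + 2)) := by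
  unfold C
  rw [sum_Cd_succ C_digits]
  refine Finset.sum_congr rfl fun x _ => ?_
  rw [Finset.sum_insert (by decide), Finset.sum_singleton, Nat.add_zero]

private lemma h4_lintegral_affine {g : ℝ → ENNReal} (hg : Measurable g) {a : ℝ} (ha : 0 < a)
    (c : ℝ) : ∫⁻ x : ℝ, g (a * x - c) = ENNReal.ofReal a⁻¹ * ∫⁻ x : ℝ, g x := by
  have h1 : ∫⁻ y : ℝ, (fun y => g (y - c)) y ∂(Measure.map (fun x : ℝ => a * x) volume) =
      ∫⁻ x : ℝ, (fun y => g (y - c)) (a * x) :=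
    lintegral_map (hg.comp (measurable_id.sub_const c)) (measurable_const_mul a)
  have h2 : Measure.map (fun x : ℝ => a * x) volume =
      ENNReal.ofReal |a⁻¹| • (volume : Measure ℝ) := Real.map_volume_mul_left ha.ne'
  rw [h2, lintegral_smul_measure, abs_of_pos (inv_pos.mpr ha)] at h1
  have h3 : ∫⁻ y : ℝ, g (y - c) = ∫⁻ y : ℝ, g y := lintegral_sub_right_eq_self g c
  calc ∫⁻ x : ℝ, g (a * x - c) = ENNReal.ofReal a⁻¹ • ∫⁻ y : ℝ, g (y - c) := h1.symm
    _ = ENNReal.ofReal a⁻¹ * ∫⁻ x : ℝ, g x := by rw [h3, smul_eq_mul]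

theorem density_pos {u : ℝ} (hu : u ∈ Icc (1 / 3 : ℝ) 3) {h : ℝ → ℝ} (hh : IsDensity u h) :
    ∀ᵐ x : ℝ, x ∈ Icc 0 (1 + u) → 0 < h x := by
  have hmeas : MeasurableSet {x | 0 < h x} := measurableSet_lt measurable_const hh.meas
  have hsub : {x | 0 < h x} ⊆ Icc 0 (1 + u) := by
    intro x hx
    by_contra hcon
    have h1 := hh.supp x hcon
    rw [mem_ofPred_eq, h1] at hx
    exact lt_irrefl _ hx
  have hpos : volume {x | 0 < h x} ≠ 0 := by
    intro h0
    have h1 : h =ᵐ[volume] 0 := by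
      rw [Filter.EventuallyEq, ae_iff]
      refine measure_mono_null ?_ h0
      intro x hx
      rw [mem_ofPred_eq, Pi.zero_apply] at hx
      exact lt_of_le_of_ne (hh.nonneg x) (Ne.symm hx)
    have h2 : ∫ x, h x = 0 := by
      rw [integral_congr_ae h1]
      simp
    have h3 := hh.pos
    rw [h2] at h3
    exact lt_irrefl _ h3
  have hback : ∀ᵐ b : ℝ, (3 * b ∈ {x | 0 < h x} ∨ 3 * b - 2 ∈ {x | 0 < h x} ∨
      3 * b - 2 * u ∈ {x | 0 < h x} ∨ 3 * b - 2 - 2 * u ∈ {x | 0 < h x}) →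
      b ∈ {x | 0 < h x} := by
    filter_upwards [hh.eqn] with b hb hor
    change 0 < h (3 * b) ∨ 0 < h (3 * b - 2) ∨ 0 < h (3 * b - 2 * u) ∨
      0 < h (3 * b - 2 - 2 * u) at hor
    rw [hb]
    have n1 := hh.nonneg (3 * b)
    have n2 := hh.nonneg (3 * b - 2)
    have n3 := hh.nonneg (3 * b - 2 * u)
    have n4 := hh.nonneg (3 * b - 2 - 2 * u)
    rcases hor with h1 | h1 | h1 | h1 <;> linarith
  have hfull := ae_full hu hmeas hsub hpos hback
  rw [ae_iff]
  refine measure_mono_null ?_ hfull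
  intro x hx
  rw [mem_ofPred_eq, Classical.not_imp] at hx
  exact ⟨hx.1, hx.2⟩

theorem density_iter {u : ℝ} {h : ℝ → ℝ} (hh : IsDensity u h) (n : ℕ) :
    ∀ᵐ x : ℝ, h x = (3 / 4) ^ n * ∑ p ∈ C n ×ˢ C n, h ((3 : ℝ) ^ n * x - p.2 - u * p.1) := by
  induction n with
  | zero =>
    refine Filter.Eventually.of_forall fun x => ?_
    simp [C, Cd]
  | succ n ih =>
    have h1 : ∀ᵐ x : ℝ, ∀ p ∈ C n ×ˢ C n,
        h ((3 : ℝ) ^ n * x - p.2 - u * p.1) = 3 / 4 *
          (h (3 * ((3 : ℝ) ^ n * x - p.2 - u * p.1)) +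
            h (3 * ((3 : ℝ) ^ n * x - p.2 - u * p.1) - 2) +
            h (3 * ((3 : ℝ) ^ n * x - p.2 - u * p.1) - 2 * u) +
            h (3 * ((3 : ℝ) ^ n * x - p.2 - u * p.1) - 2 - 2 * u)) := by
      rw [Filter.eventually_all_finset]
      intro p _
      have h2 := h4_ae_affine hh.eqn (a := (3 : ℝ) ^ n) (by positivity) ((p.2 : ℝ) + u * p.1)
      filter_upwards [h2] with x hx
      have e : (3 : ℝ) ^ n * x - p.2 - u * p.1 = (3 : ℝ) ^ n * x - ((p.2 : ℝ) + u * p.1) := by ring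
      rw [e]
      exact hx
    filter_upwards [ih, h1] with x hx hx1
    rw [hx, Finset.sum_product, Finset.sum_product, h4_sum_C_succ, Finset.mul_sum,
      Finset.mul_sum]
    refine Finset.sum_congr rfl fun i hi => ?_
    rw [h4_sum_C_succ, h4_sum_C_succ, ← Finset.sum_add_distrib, Finset.mul_sum, Finset.mul_sum]
    refine Finset.sum_congr rfl fun j hj => ?_
    have h3 := hx1 (i, j) (Finset.mem_product.mpr ⟨hi, hj⟩)
    simp only at h3
    rw [h3]
    push_cast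
    have e1 : (3 : ℝ) ^ (n + 1) * x - 3 * (j : ℝ) - u * (3 * (i : ℝ)) =
        3 * ((3 : ℝ) ^ n * x - j - u * i) := by ring
    have e2 : (3 : ℝ) ^ (n + 1) * x - (3 * (j : ℝ) + 2) - u * (3 * (i : ℝ)) =
        3 * ((3 : ℝ) ^ n * x - j - u * i) - 2 := by ring
    have e3 : (3 : ℝ) ^ (n + 1) * x - 3 * (j : ℝ) - u * (3 * (i : ℝ) + 2) =
        3 * ((3 : ℝ) ^ n * x - j - u * i) - 2 * u := by ring
    have e4 : (3 : ℝ) ^ (n + 1) * x - (3 * (j : ℝ) + 2) - u * (3 * (i : ℝ) + 2) =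
        3 * ((3 : ℝ) ^ n * x - j - u * i) - 2 - 2 * u := by ring
    rw [e1, e2, e3, e4]
    ring

theorem lintegral_words (u : ℝ) (n : ℕ) {g : ℝ → ENNReal} (hg : Measurable g) :
    ∫⁻ x : ℝ, ENNReal.ofReal ((3 / 4) ^ n) *
      ∑ p ∈ C n ×ˢ C n, g ((3 : ℝ) ^ n * x - p.2 - u * p.1) = ∫⁻ x : ℝ, g x := by
  have h1 : ∀ p ∈ C n ×ˢ C n, ∫⁻ x : ℝ, g ((3 : ℝ) ^ n * x - p.2 - u * p.1) =
      ENNReal.ofReal ((3 : ℝ) ^ n)⁻¹ * ∫⁻ x : ℝ, g x := by
    intro p _
    have h2 := h4_lintegral_affine hg (a := (3 : ℝ) ^ n) (by positivity) ((p.2 : ℝ) + u * p.1)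
    rw [← h2]
    refine lintegral_congr fun x => ?_
    rw [sub_add_eq_sub_sub]
  have hm : ∀ p ∈ C n ×ˢ C n,
      Measurable fun x : ℝ => g ((3 : ℝ) ^ n * x - p.2 - u * p.1) := by
    intro p _
    exact hg.comp (((measurable_const_mul _).sub_const _).sub_const _)
  have hms : Measurable fun x : ℝ => ∑ p ∈ C n ×ˢ C n, g ((3 : ℝ) ^ n * x - p.2 - u * p.1) :=
    Finset.measurable_fun_sum _ hm
  rw [lintegral_const_mul _ hms, lintegral_finsetSum _ hm, Finset.sum_congr rfl h1,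
    Finset.sum_const, Finset.card_product, card_C, nsmul_eq_mul, ← mul_assoc, ← mul_assoc]
  have h5 : ENNReal.ofReal ((3 / 4) ^ n) * ((2 ^ n * 2 ^ n : ℕ) : ENNReal) *
      ENNReal.ofReal ((3 : ℝ) ^ n)⁻¹ = 1 := by
    rw [← ENNReal.ofReal_natCast, ← ENNReal.ofReal_mul (by positivity),
      ← ENNReal.ofReal_mul (by positivity)]
    rw [← ENNReal.ofReal_one]
    congr 1
    push_cast
    rw [div_pow, ← mul_pow]
    norm_num
  rw [h5, one_mul]

end Pool.Agent.Lib.H59Q
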