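import Pool.Agent.Lib.H59Q.H3

/-!
# H5a: the domain of a certificate lies in the hull; almost every point has descendants in `G`

`G = Gset ρ S`, `X = Xset ρ S ⊇ G` (both finite unions of half-open cells: measurable, bounded),
`I = [0, 1+u]`, `T_w b = 3^{|w|} b - D_w`.

PROOF of `Gset_meas`, `Xset_meas`: `b ↦ ⌊b / ρ⌋` is measurable (`Int.measurable_floor`).

PROOF of `Gset_bdd`: `⌊b/ρ⌋ ∈ S` gives `|b| ≤ ρ (|k| + 1)` for some `k ∈ S`.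

PROOF of `Xset_subset`.  If `b ∈ X`, `b < 0` then `T_w b ≤ 3^n b → -∞` uniformly in `w`; if `b > 1+u` then
`T_w b ≥ 3^n b - (1+u)(3^n - 1) ≥ 3^n (b - 1 - u) → +∞`; `G` is bounded, so `cnt u G (K n) b = 0` for large `n`.

PROOF of `bad_null`.  `B_r = {b ∈ I : cnt u G (K r) b = 0}`.  If `cnt u G (K r) b ≥ 1` then some `T_w b ∈ G ⊆ X`,
so `cnt u G (K r') b ≥ 1` for all `r' > r` (`cnt_split`, `hc` with `n = r' - r ≥ 1`): `B_r` is decreasing.  `A = I \ ⋂ B_r =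
{b ∈ I : ∃ r, cnt u G (K r) b ≥ 1}` is measurable (`cnt_meas`), contains `X` (`Xset_subset`), a nonempty union of
cells, so has positive measure.  If `T_w b ∈ A` with `|w| = K n` then `b ∈ I` (`hull_back`) and `cnt u G (K (n+r)) b ≥ 1`
for some `r`, so `b ∈ A`: `ae_full_K` gives `volume (⋂ B_r) = 0`, and `volume B_r → 0`
(`tendsto_measure_iInter_atTop`, antitone, finite measures).
-/

namespace Pool.Agent.Lib.H59Q

open MeasureTheory Set Filter Topology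

private theorem H5a_floor_meas (ρ : ℝ) : Measurable (fun b : ℝ => ⌊b / ρ⌋) :=
  Int.measurable_floor.comp (measurable_id.div_const ρ)

theorem Gset_meas (ρ : ℝ) (S : Finset ℤ) : MeasurableSet (Gset ρ S) :=
  H5a_floor_meas ρ (MeasurableSet.of_discrete : MeasurableSet {k : ℤ | k ∈ S})

theorem Xset_meas (ρ : ℝ) (S : Finset ℤ) : MeasurableSet (Xset ρ S) :=
  H5a_floor_meas ρ
    (MeasurableSet.of_discrete : MeasurableSet {k : ℤ | k ∈ S ∨ k + 1 ∈ S ∨ k - 1 ∈ S})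

theorem Gset_bdd {ρ : ℝ} (hρ : 0 < ρ) (S : Finset ℤ) : ∃ R : ℝ, ∀ b ∈ Gset ρ S, |b| ≤ R := by
  refine ⟨(∑ k ∈ S, |(k : ℝ)| + 1) * ρ, fun b hb => ?_⟩
  have hk : ⌊b / ρ⌋ ∈ S := hb
  have h1 : |((⌊b / ρ⌋ : ℤ) : ℝ)| ≤ ∑ k ∈ S, |(k : ℝ)| :=
    Finset.single_le_sum (f := fun k : ℤ => |(k : ℝ)|) (fun k _ => abs_nonneg _) hk
  have h2 := Int.floor_le (b / ρ)
  have h3 := Int.lt_floor_add_one (b / ρ)
  have h4 : |b / ρ| ≤ |((⌊b / ρ⌋ : ℤ) : ℝ)| + 1 := by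
    rw [abs_le]
    have h5 := neg_abs_le ((⌊b / ρ⌋ : ℤ) : ℝ)
    have h6 := le_abs_self ((⌊b / ρ⌋ : ℤ) : ℝ)
    constructor <;> linarith
  have h7 : |b| = |b / ρ| * ρ := by
    rw [abs_div, abs_of_pos hρ, div_mul_cancel₀ _ (ne_of_gt hρ)]
  rw [h7]
  exact mul_le_mul_of_nonneg_right (by linarith) hρ.le

theorem Gset_subset_Xset (ρ : ℝ) (S : Finset ℤ) : Gset ρ S ⊆ Xset ρ S := by
  intro b hb
  exact Or.inl hb

private theorem H5a_exists {u : ℝ} {G : Set ℝ} {n : ℕ} {b : ℝ} (h : 1 ≤ cnt u G n b) :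
    ∃ p ∈ C n ×ˢ C n, (3 : ℝ) ^ n * b - p.2 - u * p.1 ∈ G := by
  classical
  unfold cnt at h
  obtain ⟨p, hp⟩ := Finset.card_pos.mp h
  rw [Finset.mem_filter] at hp
  exact ⟨p, hp.1, hp.2⟩

private theorem H5a_lt {n : ℕ} {p : ℕ × ℕ} (hp : p ∈ C n ×ˢ C n) :
    (p.1 : ℝ) ≤ 3 ^ n - 1 ∧ (p.2 : ℝ) ≤ 3 ^ n - 1 := by
  rw [Finset.mem_product] at hp
  have h1 : p.1 < 3 ^ n := Cd_lt C_digits hp.1
  have h2 : p.2 < 3 ^ n := Cd_lt C_digits hp.2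
  have h3 : p.1 + 1 ≤ 3 ^ n := h1
  have h4 : p.2 + 1 ≤ 3 ^ n := h2
  have h5 : ((p.1 + 1 : ℕ) : ℝ) ≤ ((3 ^ n : ℕ) : ℝ) := by exact_mod_cast h3
  have h6 : ((p.2 + 1 : ℕ) : ℝ) ≤ ((3 ^ n : ℕ) : ℝ) := by exact_mod_cast h4
  push_cast at h5 h6
  constructor <;> linarith

private theorem H5a_pow_large {K : ℕ} (hK : 0 < K) {a R : ℝ} (ha : 0 < a) :
    ∃ n : ℕ, 1 ≤ n ∧ R < (3 : ℝ) ^ (K * n) * a := by
  obtain ⟨n, hn⟩ := pow_unbounded_of_one_lt (R / a) (by norm_num : (1 : ℝ) < 3)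
  refine ⟨n + 1, by omega, ?_⟩
  rw [div_lt_iff₀ ha] at hn
  refine hn.trans_le (mul_le_mul_of_nonneg_right ?_ ha.le)
  refine pow_le_pow_right₀ (by norm_num) ?_
  calc n ≤ n + 1 := Nat.le_succ n
    _ ≤ K * (n + 1) := Nat.le_mul_of_pos_left _ hK

theorem Xset_subset {u : ℝ} (hu : u ∈ Icc (1 / 3 : ℝ) 3) {K : ℕ} (hK : 0 < K) {ρ : ℝ} (hρ : 0 < ρ)
    {S : Finset ℤ} (hc : ∀ n : ℕ, 1 ≤ n → ∀ b ∈ Xset ρ S, 1 ≤ cnt u (Gset ρ S) (K * n) b) :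
    Xset ρ S ⊆ Icc 0 (1 + u) := by
  intro b hb
  have hu0 : 0 ≤ u := by have := hu.1; linarith
  obtain ⟨R, hR⟩ := Gset_bdd hρ S
  by_contra hbI
  rw [mem_Icc, not_and_or, not_le, not_le] at hbI
  rcases hbI with hneg | hbig
  · obtain ⟨n, hn1, hn⟩ := H5a_pow_large (R := R) hK (neg_pos.mpr hneg)
    obtain ⟨p, hp, hpG⟩ := H5a_exists (hc n hn1 b hb)
    have h1 := (abs_le.mp (hR _ hpG)).1
    have h2 : (0 : ℝ) ≤ p.2 := Nat.cast_nonneg _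
    have h3 : (0 : ℝ) ≤ u * p.1 := mul_nonneg hu0 (Nat.cast_nonneg _)
    have h4 : (3 : ℝ) ^ (K * n) * -b = -((3 : ℝ) ^ (K * n) * b) := by ring
    linarith
  · obtain ⟨n, hn1, hn⟩ := H5a_pow_large (R := R) hK (sub_pos.mpr hbig)
    obtain ⟨p, hp, hpG⟩ := H5a_exists (hc n hn1 b hb)
    have h1 := (abs_le.mp (hR _ hpG)).2
    obtain ⟨h2, h3⟩ := H5a_lt hp
    have h5 : u * p.1 ≤ u * (3 ^ (K * n) - 1) := mul_le_mul_of_nonneg_left h2 hu0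
    have h4 : (3 : ℝ) ^ (K * n) * (b - (1 + u)) =
      (3 : ℝ) ^ (K * n) * b - 3 ^ (K * n) - u * 3 ^ (K * n) := by ring
    have h6 : u * ((3 : ℝ) ^ (K * n) - 1) = u * 3 ^ (K * n) - u := by ring
    linarith

private theorem H5a_step {u : ℝ} {G : Set ℝ} {m n : ℕ} {b : ℝ} {p : ℕ × ℕ}
    (hp : p ∈ C m ×ˢ C m) (h : 1 ≤ cnt u G n ((3 : ℝ) ^ m * b - p.2 - u * p.1)) :
    1 ≤ cnt u G (m + n) b := by
  rw [cnt_split]
  exact h.trans (Finset.single_le_sum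
    (f := fun p : ℕ × ℕ => cnt u G n ((3 : ℝ) ^ m * b - p.2 - u * p.1))
    (fun _ _ => Nat.zero_le _) hp)

theorem bad_null {u : ℝ} (hu : u ∈ Icc (1 / 3 : ℝ) 3) {K : ℕ} (hK : 0 < K) {ρ : ℝ} (hρ : 0 < ρ)
    {S : Finset ℤ} (hS : (Xset ρ S).Nonempty)
    (hc : ∀ n : ℕ, 1 ≤ n → ∀ b ∈ Xset ρ S, 1 ≤ cnt u (Gset ρ S) (K * n) b) :
    Tendsto (fun r : ℕ => volume {b | b ∈ Icc 0 (1 + u) ∧ cnt u (Gset ρ S) (K * r) b = 0})
      atTop (𝓝 0) := by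
  have hu0 : 0 ≤ u := by have := hu.1; linarith
  set G := Gset ρ S with hG
  set B : ℕ → Set ℝ := fun r => {b | b ∈ Icc 0 (1 + u) ∧ cnt u G (K * r) b = 0} with hB
  have hBmeas : ∀ r, MeasurableSet (B r) := by
    intro r
    have h1 : MeasurableSet {b : ℝ | (cnt u G (K * r) b : ℝ) = 0} :=
      (cnt_meas u (Gset_meas ρ S) (K * r)) (measurableSet_singleton 0)
    have h2 : B r = Icc 0 (1 + u) ∩ {b : ℝ | (cnt u G (K * r) b : ℝ) = 0} := by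
      ext b
      constructor
      · rintro ⟨h3, h4⟩
        exact ⟨h3, by show (cnt u G (K * r) b : ℝ) = 0; rw [h4]; simp⟩
      · rintro ⟨h3, h4⟩
        have h5 : (cnt u G (K * r) b : ℝ) = 0 := h4
        exact ⟨h3, by exact_mod_cast h5⟩
    rw [h2]
    exact measurableSet_Icc.inter h1
  have hanti : Antitone B := by
    intro r r' hrr b hb
    refine ⟨hb.1, ?_⟩
    by_contra hne
    have h1 : 1 ≤ cnt u G (K * r) b := Nat.one_le_iff_ne_zero.mpr hne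
    rcases Nat.eq_or_lt_of_le hrr with h2 | h2
    · subst h2
      exact hne hb.2
    · obtain ⟨p, hp, hpG⟩ := H5a_exists h1
      have h3 : 1 ≤ cnt u G (K * (r' - r)) ((3 : ℝ) ^ (K * r) * b - p.2 - u * p.1) :=
        hc (r' - r) (by omega) _ (Gset_subset_Xset ρ S hpG)
      have h4 := H5a_step hp h3
      have h5 : K * r + K * (r' - r) = K * r' := by
        rw [← Nat.mul_add]
        congr 1
        omega
      rw [h5] at h4
      have h6 : cnt u G (K * r') b = 0 := hb.2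
      omega
  set A : Set ℝ := Icc 0 (1 + u) \ ⋂ r, B r with hA
  have hAmem : ∀ b : ℝ, b ∈ A ↔ b ∈ Icc 0 (1 + u) ∧ ∃ r, 1 ≤ cnt u G (K * r) b := by
    intro b
    rw [hA, Set.mem_sdiff, mem_iInter]
    constructor
    · rintro ⟨h1, h2⟩
      refine ⟨h1, ?_⟩
      rw [not_forall] at h2
      obtain ⟨r, hr⟩ := h2
      refine ⟨r, Nat.one_le_iff_ne_zero.mpr fun h0 => hr ⟨h1, h0⟩⟩
    · rintro ⟨h1, r, hr⟩
      refine ⟨h1, fun h2 => ?_⟩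
      have h3 : cnt u G (K * r) b = 0 := (h2 r).2
      omega
  have hAm : MeasurableSet A := measurableSet_Icc.diff (MeasurableSet.iInter hBmeas)
  have hXA : Xset ρ S ⊆ A := by
    intro b hb
    rw [hAmem]
    exact ⟨Xset_subset hu hK hρ hc hb, 1, hc 1 le_rfl b hb⟩
  have hXpos : volume (Xset ρ S) ≠ 0 := by
    obtain ⟨b0, hb0⟩ := hS
    have hsub : Ico ((⌊b0 / ρ⌋ : ℝ) * ρ) (((⌊b0 / ρ⌋ : ℝ) + 1) * ρ) ⊆ Xset ρ S := by
      intro b hb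
      have h1 : ⌊b / ρ⌋ = ⌊b0 / ρ⌋ := by
        rw [Int.floor_eq_iff]
        constructor
        · rw [le_div_iff₀ hρ]; exact hb.1
        · rw [div_lt_iff₀ hρ]; exact hb.2
      show ⌊b / ρ⌋ ∈ S ∨ ⌊b / ρ⌋ + 1 ∈ S ∨ ⌊b / ρ⌋ - 1 ∈ S
      rw [h1]
      exact hb0
    intro h0
    have h1 := measure_mono_null hsub h0
    rw [Real.volume_Ico] at h1
    have h2 : (((⌊b0 / ρ⌋ : ℝ) + 1) * ρ) - ((⌊b0 / ρ⌋ : ℝ) * ρ) = ρ := by ring
    rw [h2, ENNReal.ofReal_eq_zero] at h1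
    linarith
  have hApos : volume A ≠ 0 := fun h0 => hXpos (measure_mono_null hXA h0)
  have hback : ∀ n : ℕ, ∀ᵐ b : ℝ, ∀ p ∈ C (K * n) ×ˢ C (K * n),
      (3 : ℝ) ^ (K * n) * b - p.2 - u * p.1 ∈ A → b ∈ A := by
    intro n
    refine Filter.Eventually.of_forall fun b p hp hpA => ?_
    rw [hAmem] at hpA ⊢
    obtain ⟨h1, r, hr⟩ := hpA
    refine ⟨hull_back hu0 (K * n) hp h1, n + r, ?_⟩
    have h4 := H5a_step hp hr
    rwa [← Nat.mul_add] at h4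
  have hfull := ae_full_K hu hK hAm sdiff_subset hApos hback
  have hint : volume (⋂ r, B r) = 0 := by
    refine measure_mono_null ?_ hfull
    intro b hb
    have hbI : b ∈ Icc 0 (1 + u) := ((mem_iInter.mp hb) 0).1
    exact ⟨hbI, fun h => h.2 hb⟩
  have htend := tendsto_measure_iInter_atTop (μ := volume) (s := B)
    (fun r => (hBmeas r).nullMeasurableSet) hanti
    ⟨0, ((measure_mono (fun b hb => hb.1 : B 0 ⊆ Icc 0 (1 + u))).trans_lt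
      measure_Icc_lt_top).ne⟩
  rw [hint] at htend
  exact htend

end Pool.Agent.Lib.H59Q
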