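import Pool.Agent.Lib.H59Q.H4
import Pool.Agent.Lib.H59Q.H5a

/-!
# H5: typical growth from a density

Fix `K > 0`, `ρ > 0`, `S`; `G = Gset ρ S`, `X = Xset ρ S ⊇ G` (measurable, bounded), `I = [0, 1+u]`, and assume
`1 ≤ cnt u G (K n) b` for all `b ∈ X`, `n ≥ 1`.  `T_w b = 3^{|w|} b - D_w`.  `X ⊆ I` (`Xset_subset`).

PROOF of `typical_of_density`.  If `X` is empty nothing to prove.  `B_r = {b ∈ I : cnt u G (K r) b = 0}`,
`volume B_r → 0` (`bad_null`).  Let `ε, η > 0`.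
(1) Choose `c₁ > 0` with `volume {b ∈ I : h b < 2 c₁} ≤ η/2` (`h > 0` a.e. on `I`, `density_pos`; continuity from
above along `c₁ = 1/k`).
(2) For `H, r` let `g(y) = h(y) 1[h(y) > H or y ∈ B_r]`; `∫ g ≤ ∫_{h > H} h + ∫_{B_r} h`, both `→ 0` (`h` integrable;
absolute continuity of the integral: `tendsto_setIntegral_of_...`, `Integrable.tendsto_setIntegral_nhds_zero`,
or `exists_pos_setLIntegral_lt_of_measure_lt`).  Choose `H ≥ 1`, `r` with `∫ g ≤ c₁ η/2`.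
(3) For every `n`, with `Σ_w` over the words of length `K n`: `h b = (3/4)^{Kn} Σ_w h(T_w b)` a.e.
(`density_iter`), and by `lintegral_words` and Markov the set where `(3/4)^{Kn} Σ_w g(T_w b) ≥ c₁` has measure
`≤ η/2`.  Off these two sets and a null set, for `b ∈ X ⊆ I`: `(3/4)^{Kn} Σ_{w good} h(T_w b) ≥ c₁`, where `w` is
good if `h(T_w b) ≤ H`, `T_w b ∉ B_r`; the terms with `T_w b ∉ I` vanish (`supp`).  So the number of words with
`T_w b ∈ I \ B_r` is `≥ (c₁/H) (4/3)^{Kn}`; each has `cnt u G (K r) (T_w b) ≥ 1`, so by `cnt_split`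
`cnt u G (K (n + r)) b ≥ (c₁/H) (4/3)^{Kn}`.
(4) `4/3 = 3^{s0}` (logarithms), so this is `≥ 3^{K(n+r)(s0-ε)}` for all large `n` (`3^{εKn}` beats the
constants `(c₁/H) 3^{-Kr s0}`; `s0 > 0`; if `s0 - ε < 0` the bound is weaker).  The exceptional set at level
`K (n + r)` is contained in the union of the two sets of measure `≤ η/2` and a null set.
-/

namespace Pool.Agent.Lib.H59Q

open MeasureTheory Set Filter Topology

theorem three_pow_s0 : (3 : ℝ) ^ s0 = 4 / 3 := by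
  have h3 : 0 < Real.log 3 := Real.log_pos (by norm_num)
  rw [Real.rpow_def_of_pos (by norm_num : (0 : ℝ) < 3)]
  have e : Real.log 3 * s0 = Real.log (4 / 3) := by
    unfold s0
    rw [Real.log_div (by norm_num) (by norm_num), show (4 : ℝ) = 2 ^ 2 by norm_num, Real.log_pow]
    field_simp
    push_cast
    ring
  rw [e, Real.exp_log (by norm_num)]

private theorem H5_c1 {u : ℝ} (hu : u ∈ Icc (1 / 3 : ℝ) 3) {h : ℝ → ℝ} (hh : IsDensity u h)
    {η : ℝ} (hη : 0 < η) :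
    ∃ c : ℝ, 0 < c ∧ volume {b | b ∈ Icc 0 (1 + u) ∧ h b < 2 * c} ≤ ENNReal.ofReal η := by
  let s : ℕ → Set ℝ := fun k => {b | b ∈ Icc 0 (1 + u) ∧ h b < 2 * (1 / ((k : ℝ) + 1))}
  have hmeas : ∀ k, MeasurableSet (s k) := by
    intro k
    exact measurableSet_Icc.inter (measurableSet_lt hh.meas measurable_const)
  have hanti : Antitone s := by
    intro k l hkl b hb
    refine ⟨hb.1, lt_of_lt_of_le hb.2 ?_⟩
    have h1 : (k : ℝ) ≤ l := by exact_mod_cast hkl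
    have h2 : 1 / ((l : ℝ) + 1) ≤ 1 / ((k : ℝ) + 1) :=
      one_div_le_one_div_of_le (by positivity) (by linarith)
    linarith
  have hfin : ∃ k, volume (s k) ≠ ⊤ := by
    refine ⟨0, ne_of_lt (lt_of_le_of_lt (measure_mono (t := Icc 0 (1 + u))
      (fun b hb => hb.1)) ?_)⟩
    rw [Real.volume_Icc]
    exact ENNReal.ofReal_lt_top
  have hlim := tendsto_measure_iInter_atTop (μ := volume) (fun k => (hmeas k).nullMeasurableSet)
    hanti hfin
  have h0 : volume (⋂ k, s k) = 0 := by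
    refine measure_mono_null ?_ (density_pos hu hh)
    intro b hb
    have hb' : ∀ k : ℕ, b ∈ s k := fun k => Set.mem_iInter.1 hb k
    show ¬ (b ∈ Icc 0 (1 + u) → 0 < h b)
    intro hcon
    have hpos := hcon (hb' 0).1
    obtain ⟨k, hk⟩ := exists_nat_one_div_lt (half_pos hpos)
    have h2 := (hb' k).2
    linarith
  rw [h0] at hlim
  have hev := (tendsto_order.1 hlim).2 _ (ENNReal.ofReal_pos.2 hη)
  obtain ⟨k, hk⟩ := hev.exists
  exact ⟨1 / ((k : ℝ) + 1), by positivity, hk.le⟩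

private theorem H5_big {u : ℝ} {h : ℝ → ℝ} (hh : IsDensity u h) :
    Tendsto (fun m : ℕ => volume {y | (m : ℝ) < h y}) atTop (𝓝 0) := by
  let s : ℕ → Set ℝ := fun m => {y | (m : ℝ) < h y}
  have hmeas : ∀ k, MeasurableSet (s k) := by
    intro k
    exact measurableSet_lt measurable_const hh.meas
  have hanti : Antitone s := by
    intro k l hkl b hb
    have h1 : (k : ℝ) ≤ l := by exact_mod_cast hkl
    exact lt_of_le_of_lt h1 hb
  have hfin : ∃ k, volume (s k) ≠ ⊤ := by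
    refine ⟨0, ne_of_lt (lt_of_le_of_lt (measure_mono (t := Icc 0 (1 + u)) ?_) ?_)⟩
    · intro b hb
      by_contra hI
      have h2 := hh.supp b hI
      have h3 : ((0 : ℕ) : ℝ) < h b := hb
      rw [h2] at h3
      simp at h3
    · rw [Real.volume_Icc]
      exact ENNReal.ofReal_lt_top
  have hlim := tendsto_measure_iInter_atTop (μ := volume) (fun k => (hmeas k).nullMeasurableSet)
    hanti hfin
  have h0 : (⋂ k, s k) = ∅ := by
    rw [Set.eq_empty_iff_forall_notMem]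
    intro b hb
    obtain ⟨k, hk⟩ := exists_nat_gt (h b)
    have h1 : (k : ℝ) < h b := Set.mem_iInter.1 hb k
    linarith
  rw [h0, measure_empty] at hlim
  exact hlim

private theorem H5_Bmeas (u : ℝ) {G : Set ℝ} (hG : MeasurableSet G) (n : ℕ) :
    MeasurableSet {b | b ∈ Icc 0 (1 + u) ∧ cnt u G n b = 0} := by
  have h1 : MeasurableSet {b | (cnt u G n b : ℝ) = 0} :=
    measurableSet_eq_fun (cnt_meas u hG n) measurable_const
  have h2 : {b | b ∈ Icc 0 (1 + u) ∧ cnt u G n b = 0} =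
      Icc 0 (1 + u) ∩ {b | (cnt u G n b : ℝ) = 0} := by
    ext b
    constructor
    · rintro ⟨hb1, hb2⟩
      refine ⟨hb1, ?_⟩
      show (cnt u G n b : ℝ) = 0
      rw [hb2, Nat.cast_zero]
    · rintro ⟨hb1, hb2⟩
      refine ⟨hb1, ?_⟩
      have h3 : (cnt u G n b : ℝ) = 0 := hb2
      exact_mod_cast h3
  rw [h2]
  exact measurableSet_Icc.inter h1

private theorem H5_point {u : ℝ} {h : ℝ → ℝ} (hnn : ∀ x, 0 ≤ h x)
    (hsupp : ∀ x, x ∉ Icc 0 (1 + u) → h x = 0) (G : Set ℝ) (N R m : ℕ) {c b : ℝ}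
    (h1 : 2 * c ≤ h b)
    (h2 : h b = (3 / 4) ^ N * ∑ p ∈ C N ×ˢ C N, h ((3 : ℝ) ^ N * b - p.2 - u * p.1))
    (h3 : ENNReal.ofReal ((3 / 4) ^ N) * ∑ p ∈ C N ×ˢ C N,
      ({y | (m : ℝ) < h y} ∪ {y | y ∈ Icc 0 (1 + u) ∧ cnt u G R y = 0}).indicator
        (fun y => ENNReal.ofReal (h y)) ((3 : ℝ) ^ N * b - p.2 - u * p.1) < ENNReal.ofReal c) :
    c * (4 / 3) ^ N ≤ ((m : ℝ) + 1) * (cnt u G (N + R) b : ℝ) := by
  classical
  let Z : Set ℝ := {y | (m : ℝ) < h y} ∪ {y | y ∈ Icc 0 (1 + u) ∧ cnt u G R y = 0}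
  let T : ℕ × ℕ → ℝ := fun p => (3 : ℝ) ^ N * b - p.2 - u * p.1
  have hind : ∀ x, 0 ≤ Z.indicator h x := fun x => Set.indicator_nonneg (fun y _ => hnn y) x
  have e3 : ENNReal.ofReal ((3 / 4) ^ N) * ∑ p ∈ C N ×ˢ C N,
      Z.indicator (fun y => ENNReal.ofReal (h y)) (T p) =
      ENNReal.ofReal ((3 / 4) ^ N * ∑ p ∈ C N ×ˢ C N, Z.indicator h (T p)) := by
    rw [ENNReal.ofReal_mul (by positivity), ENNReal.ofReal_sum_of_nonneg (fun p _ => hind _)]
    congr 1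
    refine Finset.sum_congr rfl fun p _ => ?_
    by_cases hp : T p ∈ Z
    · rw [Set.indicator_of_mem hp, Set.indicator_of_mem hp]
    · rw [Set.indicator_of_notMem hp, Set.indicator_of_notMem hp, ENNReal.ofReal_zero]
  have h3' : (3 / 4) ^ N * ∑ p ∈ C N ×ˢ C N, Z.indicator h (T p) < c := by
    have h4 : ENNReal.ofReal ((3 / 4) ^ N * ∑ p ∈ C N ×ˢ C N, Z.indicator h (T p)) <
        ENNReal.ofReal c := by
      rw [← e3]
      exact h3
    refine (ENNReal.ofReal_lt_ofReal_iff_of_nonneg ?_).1 h4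
    exact mul_nonneg (by positivity) (Finset.sum_nonneg fun p _ => hind _)
  have hterm : ∀ p ∈ C N ×ˢ C N, h (T p) ≤ Z.indicator h (T p) +
      (m : ℝ) * (cnt u G R (T p) : ℝ) := by
    intro p _
    by_cases hp : T p ∈ Z
    · rw [Set.indicator_of_mem hp]
      have : (0 : ℝ) ≤ (m : ℝ) * (cnt u G R (T p) : ℝ) := by positivity
      linarith
    · rw [Set.indicator_of_notMem hp, zero_add]
      have hp1 : ¬ ((m : ℝ) < h (T p)) := fun hq => hp (Or.inl hq)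
      by_cases hI : T p ∈ Icc 0 (1 + u)
      · have hc1 : 1 ≤ cnt u G R (T p) :=
          Nat.one_le_iff_ne_zero.2 (fun h0 => hp (Or.inr ⟨hI, h0⟩))
        have hc2 : (1 : ℝ) ≤ (cnt u G R (T p) : ℝ) := by exact_mod_cast hc1
        have hm := not_lt.1 hp1
        have hm0 : (0 : ℝ) ≤ (m : ℝ) := Nat.cast_nonneg m
        calc h (T p) ≤ (m : ℝ) * 1 := by linarith
          _ ≤ (m : ℝ) * (cnt u G R (T p) : ℝ) := mul_le_mul_of_nonneg_left hc2 hm0
      · rw [hsupp _ hI]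
        positivity
  have hsum := Finset.sum_le_sum hterm
  rw [Finset.sum_add_distrib, ← Finset.mul_sum] at hsum
  have hsplit : (cnt u G (N + R) b : ℝ) = ∑ p ∈ C N ×ˢ C N, (cnt u G R (T p) : ℝ) := by
    rw [cnt_split]
    push_cast
    rfl
  rw [← hsplit] at hsum
  have hpow : (0 : ℝ) < (3 / 4) ^ N := by positivity
  have h4 : (4 / 3 : ℝ) ^ N * (3 / 4) ^ N = 1 := by
    rw [← mul_pow]
    norm_num
  have h2' : h b = (3 / 4) ^ N * ∑ p ∈ C N ×ˢ C N, h (T p) := h2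
  have h5 : c < (3 / 4) ^ N * ((m : ℝ) * (cnt u G (N + R) b : ℝ)) := by
    have h6 := mul_le_mul_of_nonneg_left hsum hpow.le
    rw [mul_add] at h6
    linarith
  have h6 : c * (4 / 3) ^ N ≤ (m : ℝ) * (cnt u G (N + R) b : ℝ) := by
    have h7 := mul_le_mul_of_nonneg_right h5.le (by positivity : (0 : ℝ) ≤ (4 / 3) ^ N)
    calc c * (4 / 3) ^ N ≤ ((3 / 4) ^ N * ((m : ℝ) * (cnt u G (N + R) b : ℝ))) * (4 / 3) ^ N := h7
      _ = (4 / 3) ^ N * (3 / 4) ^ N * ((m : ℝ) * (cnt u G (N + R) b : ℝ)) := by ring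
      _ = (m : ℝ) * (cnt u G (N + R) b : ℝ) := by rw [h4, one_mul]
  have h8 : (0 : ℝ) ≤ (cnt u G (N + R) b : ℝ) := Nat.cast_nonneg _
  linarith

theorem typical_of_density {u : ℝ} (hu : u ∈ Icc (1 / 3 : ℝ) 3) {h : ℝ → ℝ}
    (hh : IsDensity u h) : Typical u := by
  intro K ρ S hK hρ hc ε hε η hη
  rcases (Xset ρ S).eq_empty_or_nonempty with hS | hS
  · refine ⟨0, fun n _ => ?_⟩
    have h0 : {b | b ∈ Xset ρ S ∧
        (cnt u (Gset ρ S) (K * n) b : ℝ) < (3 : ℝ) ^ (((K * n : ℕ) : ℝ) * (s0 - ε))} = ∅ := by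
      rw [Set.eq_empty_iff_forall_notMem]
      rintro b ⟨hb, _⟩
      rw [hS] at hb
      exact hb
    rw [h0, measure_empty]
    exact bot_le
  have hGm := Gset_meas ρ S
  have hη2 : 0 < η / 2 := half_pos hη
  obtain ⟨c, hc0, hcA⟩ := H5_c1 hu hh hη2
  -- the numbers `m` and `r`
  have hfin : ∫⁻ y, ENNReal.ofReal (h y) ≠ ⊤ := (hh.int.lintegral_lt_top).ne
  have hδ : ENNReal.ofReal (c * (η / 2)) ≠ 0 := (ENNReal.ofReal_pos.2 (mul_pos hc0 hη2)).ne'
  obtain ⟨δ, hδ0, hδint⟩ := exists_pos_setLIntegral_lt_of_measure_lt hfin hδ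
  have hδ2 : 0 < δ / 2 := ENNReal.half_pos hδ0.ne'
  obtain ⟨m, hm⟩ := ((tendsto_order.1 (H5_big hh)).2 _ hδ2).exists
  obtain ⟨r, hr⟩ := ((tendsto_order.1 (bad_null hu hK hρ hS hc)).2 _ hδ2).exists
  let Z : Set ℝ := {y | (m : ℝ) < h y} ∪
    {y | y ∈ Icc 0 (1 + u) ∧ cnt u (Gset ρ S) (K * r) y = 0}
  have hZm : MeasurableSet Z :=
    (measurableSet_lt measurable_const hh.meas).union (H5_Bmeas u hGm (K * r))
  have hZint : ∫⁻ y, Z.indicator (fun y => ENNReal.ofReal (h y)) y <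
      ENNReal.ofReal (c * (η / 2)) := by
    rw [lintegral_indicator hZm]
    apply hδint
    calc volume Z ≤ volume {y | (m : ℝ) < h y} +
        volume {y | y ∈ Icc 0 (1 + u) ∧ cnt u (Gset ρ S) (K * r) y = 0} := measure_union_le _ _
      _ < δ / 2 + δ / 2 := ENNReal.add_lt_add hm hr
      _ = δ := ENNReal.add_halves δ
  -- growth
  have hq0 : (0 : ℝ) < (3 : ℝ) ^ (-(ε * K)) := Real.rpow_pos_of_pos (by norm_num) _
  have hKR : (0 : ℝ) < K := by exact_mod_cast hK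
  have hq1 : (3 : ℝ) ^ (-(ε * K)) < 1 :=
    Real.rpow_lt_one_of_one_lt_of_neg (by norm_num) (neg_lt_zero.2 (mul_pos hε hKR))
  have hexp : ∀ n : ℕ, (3 : ℝ) ^ (((K * n : ℕ) : ℝ) * (s0 - ε)) =
      (4 / 3) ^ (K * n) * ((3 : ℝ) ^ (-(ε * K))) ^ n := by
    intro n
    have e : ((K * n : ℕ) : ℝ) * (s0 - ε) = s0 * ((K * n : ℕ) : ℝ) + (-(ε * K)) * (n : ℝ) := by
      push_cast
      ring
    rw [e, Real.rpow_add (by norm_num), Real.rpow_mul (by norm_num), three_pow_s0,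
      Real.rpow_natCast, Real.rpow_mul (by norm_num), Real.rpow_natCast]
  have hlim : Tendsto (fun n : ℕ => (4 / 3 : ℝ) ^ (K * r) * ((3 : ℝ) ^ (-(ε * K))) ^ n) atTop
      (𝓝 0) := by
    have h1 := (tendsto_pow_atTop_nhds_zero_of_lt_one hq0.le hq1).const_mul
      ((4 / 3 : ℝ) ^ (K * r))
    rwa [mul_zero] at h1
  have hcm : 0 < c / ((m : ℝ) + 1) := by positivity
  obtain ⟨n₁, hn₁⟩ := Filter.eventually_atTop.1 ((tendsto_order.1 hlim).2 _ hcm)
  refine ⟨max n₁ r, fun n' hn' => ?_⟩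
  obtain ⟨n, rfl⟩ : ∃ n, n' = n + r := ⟨n' - r, by
    have := le_trans (le_max_right n₁ r) hn'
    omega⟩
  have hlarge := hn₁ (n + r) (le_trans (le_max_left n₁ r) hn')
  have hgm : Measurable (Z.indicator (fun y => ENNReal.ofReal (h y))) :=
    hh.meas.ennreal_ofReal.indicator hZm
  have hFm : Measurable (fun x : ℝ => ENNReal.ofReal ((3 / 4) ^ (K * n)) *
      ∑ p ∈ C (K * n) ×ˢ C (K * n), Z.indicator (fun y => ENNReal.ofReal (h y))
        ((3 : ℝ) ^ (K * n) * x - p.2 - u * p.1)) := by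
    refine Measurable.const_mul ?_ _
    refine Finset.measurable_fun_sum _ fun p _ => ?_
    exact hgm.comp (by fun_prop)
  have hcne : ENNReal.ofReal c ≠ 0 := (ENNReal.ofReal_pos.2 hc0).ne'
  have hM := meas_ge_le_lintegral_div (μ := volume) hFm.aemeasurable hcne ENNReal.ofReal_ne_top
  rw [lintegral_words u (K * n) hgm] at hM
  have hM2 : volume {x : ℝ | ENNReal.ofReal c ≤ ENNReal.ofReal ((3 / 4) ^ (K * n)) *
      ∑ p ∈ C (K * n) ×ˢ C (K * n), Z.indicator (fun y => ENNReal.ofReal (h y))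
        ((3 : ℝ) ^ (K * n) * x - p.2 - u * p.1)} ≤ ENNReal.ofReal (η / 2) := by
    refine hM.trans (ENNReal.div_le_of_le_mul ?_)
    rw [← ENNReal.ofReal_mul hη2.le, mul_comm (η / 2) c]
    exact hZint.le
  have hN := density_iter hh (K * n)
  have hsub : {b | b ∈ Xset ρ S ∧ (cnt u (Gset ρ S) (K * (n + r)) b : ℝ) <
      (3 : ℝ) ^ (((K * (n + r) : ℕ) : ℝ) * (s0 - ε))} ⊆
      ({b | b ∈ Icc 0 (1 + u) ∧ h b < 2 * c} ∪
        {x : ℝ | ENNReal.ofReal c ≤ ENNReal.ofReal ((3 / 4) ^ (K * n)) *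
          ∑ p ∈ C (K * n) ×ˢ C (K * n), Z.indicator (fun y => ENNReal.ofReal (h y))
            ((3 : ℝ) ^ (K * n) * x - p.2 - u * p.1)}) ∪
        {x : ℝ | ¬ h x = (3 / 4) ^ (K * n) * ∑ p ∈ C (K * n) ×ˢ C (K * n),
          h ((3 : ℝ) ^ (K * n) * x - p.2 - u * p.1)} := by
    rintro b ⟨hbX, hbcnt⟩
    by_contra hnot
    have hbI : b ∈ Icc 0 (1 + u) := Xset_subset hu hK hρ hc hbX
    have g1 : 2 * c ≤ h b := by
      by_contra hlt
      exact hnot (Or.inl (Or.inl ⟨hbI, not_le.1 hlt⟩))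
    have g2 : h b = (3 / 4) ^ (K * n) * ∑ p ∈ C (K * n) ×ˢ C (K * n),
        h ((3 : ℝ) ^ (K * n) * b - p.2 - u * p.1) := by
      by_contra hne
      exact hnot (Or.inr hne)
    have g3 : ENNReal.ofReal ((3 / 4) ^ (K * n)) *
        ∑ p ∈ C (K * n) ×ˢ C (K * n), Z.indicator (fun y => ENNReal.ofReal (h y))
          ((3 : ℝ) ^ (K * n) * b - p.2 - u * p.1) < ENNReal.ofReal c := by
      by_contra hge
      exact hnot (Or.inl (Or.inr (not_lt.1 hge)))
    have g4 := H5_point hh.nonneg hh.supp (Gset ρ S) (K * n) (K * r) m g1 g2 g3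
    rw [← Nat.mul_add] at g4
    have g5 : (cnt u (Gset ρ S) (K * (n + r)) b : ℝ) <
        (4 / 3) ^ (K * (n + r)) * ((3 : ℝ) ^ (-(ε * K))) ^ (n + r) := by
      rw [← hexp]
      exact hbcnt
    have hm1 : (0 : ℝ) < (m : ℝ) + 1 := by positivity
    have g6 : ((m : ℝ) + 1) * ((4 / 3 : ℝ) ^ (K * r) * ((3 : ℝ) ^ (-(ε * K))) ^ (n + r)) < c := by
      have := (lt_div_iff₀ hm1).1 hlarge
      linarith
    have g7 : c * (4 / 3) ^ (K * n) < c * (4 / 3) ^ (K * n) := by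
      calc c * (4 / 3) ^ (K * n) ≤ ((m : ℝ) + 1) * (cnt u (Gset ρ S) (K * (n + r)) b : ℝ) := g4
        _ < ((m : ℝ) + 1) * ((4 / 3) ^ (K * (n + r)) * ((3 : ℝ) ^ (-(ε * K))) ^ (n + r)) :=
          mul_lt_mul_of_pos_left g5 hm1
        _ = (((m : ℝ) + 1) * ((4 / 3 : ℝ) ^ (K * r) * ((3 : ℝ) ^ (-(ε * K))) ^ (n + r))) *
            (4 / 3) ^ (K * n) := by
          rw [Nat.mul_add, pow_add (4 / 3 : ℝ)]
          ring
        _ ≤ c * (4 / 3) ^ (K * n) := mul_le_mul_of_nonneg_right g6.le (by positivity)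
    exact lt_irrefl _ g7
  refine (measure_mono hsub).trans ((measure_union_le _ _).trans ?_)
  have hN0 : volume {x : ℝ | ¬ h x = (3 / 4) ^ (K * n) * ∑ p ∈ C (K * n) ×ˢ C (K * n),
      h ((3 : ℝ) ^ (K * n) * x - p.2 - u * p.1)} = 0 := hN
  rw [hN0, add_zero]
  refine (measure_union_le _ _).trans ((add_le_add hcA hM2).trans ?_)
  rw [← ENNReal.ofReal_add hη2.le hη2.le, add_halves]

end Pool.Agent.Lib.H59Q
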