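import Pool.Agent.Lib.H59Q.F8
import Pool.Agent.Lib.H59Q.F7
import Pool.Agent.Lib.H59Q.H1
import Pool.Agent.Lib.H59Q.H2
import Pool.Agent.Lib.H59Q.H5

/-!
# H6: assembly of part (III)
-/

namespace Pool.Agent.Lib.H59Q

open MeasureTheory Set

theorem exists_density (hU : UpperGrowth) {u : ℝ} (hu : u ∈ Icc (1 / 3 : ℝ) 3)
    (hirr : Irrational u) (hexc : u ∉ Exc) : ∃ h : ℝ → ℝ, IsDensity u h := by
  obtain ⟨K, _, hK⟩ := pairG_bound hU hu hirr hexc
  obtain ⟨K', hK'⟩ := fn_L2 hu hK
  exact exists_density_of_L2 hu hK'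

/-- Part (III) from the upper growth theorem. -/
theorem typicalSlopes (hU : UpperGrowth) : TypicalSlopes := by
  unfold TypicalSlopes
  have hsub : {u : ℝ | u ∈ Icc (1 / 3) 3 ∧ ¬ (Irrational u ∧ Typical u)} ⊆
      Exc ∪ range (fun q : ℚ => (q : ℝ)) := by
    rintro u ⟨hu, hnot⟩
    by_cases hirr : Irrational u
    · by_cases hexc : u ∈ Exc
      · exact Or.inl hexc
      · exfalso
        obtain ⟨h, hh⟩ := exists_density hU hu hirr hexc
        exact hnot ⟨hirr, typical_of_density hu hh⟩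
    · right
      rw [Irrational, not_not] at hirr
      exact hirr
  have h1 : dimH (Exc ∪ range (fun q : ℚ => (q : ℝ))) = 0 := by
    rw [dimH_union, dimH_Exc, (countable_range _).dimH_zero]
    simp
  exact le_antisymm ((dimH_mono hsub).trans_eq h1) zero_le

end Pool.Agent.Lib.H59Q
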